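import Pool.Agent.Lib.MP_d70044_ag.L.Jm

/-! # Antisymmetrisers -/

namespace SecLow

open Equiv Finset

variable {n : ℕ} {V : Type*} [NormedAddCommGroup V] [InnerProductSpace ℂ V]

/-- the permutations which fix the elements of `S` -/
def fixS (S : Finset (Fin (n + 1))) : Finset (Perm (Fin (n + 1))) :=
  univ.filter fun g : Perm (Fin (n + 1)) => ∀ t ∈ S, g t = t

theorem mem_fixS {S : Finset (Fin (n + 1))} {g : Perm (Fin (n + 1))} :
    g ∈ fixS S ↔ ∀ t ∈ S, g t = t := by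
  simp [fixS]

theorem fixS_inv {S : Finset (Fin (n + 1))} {g : Perm (Fin (n + 1))} (hg : g ∈ fixS S) :
    g⁻¹ ∈ fixS S := by
  rw [mem_fixS] at hg ⊢
  intro t ht
  rw [Perm.inv_eq_iff_eq]
  exact (hg t ht).symm

theorem fixS_mul {S : Finset (Fin (n + 1))} {g h : Perm (Fin (n + 1))} (hg : g ∈ fixS S)
    (hh : h ∈ fixS S) : g * h ∈ fixS S := by
  rw [mem_fixS] at hg hh ⊢
  intro t ht
  rw [Perm.mul_apply, hh t ht, hg t ht]

theorem card_fixS (S : Finset (Fin (n + 1))) : (fixS S).card = (n + 1 - S.card).factorial := by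
  classical
  have e := Equiv.Perm.subtypeEquivSubtypePerm (fun a : Fin (n + 1) => a ∉ S)
  have h1 : (fixS S).card = Fintype.card {f : Perm (Fin (n + 1)) // ∀ a, ¬ (a ∉ S) → f a = a} := by
    rw [Fintype.card_subtype, fixS]
    congr 1
    ext g
    simp
  rw [h1, ← Fintype.card_congr e, Fintype.card_perm]
  congr 1
  rw [Fintype.card_subtype_compl]
  simp

theorem altS_apply (ρ : Perm (Fin (n + 1)) →* (V →ₗ[ℂ] V)) (S : Finset (Fin (n + 1))) (v : V) :
    altS ρ S v = ∑ g ∈ fixS S, (((Perm.sign g : ℤˣ) : ℤ) : ℂ) • ρ g v := by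
  simp only [altS, LinearMap.sum_apply, LinearMap.smul_apply, fixS]

theorem altS_symm (ρ : Perm (Fin (n + 1)) →* (V →ₗ[ℂ] V)) (hρ : IsUni ρ)
    (S : Finset (Fin (n + 1))) (v w : V) :
    inner ℂ (altS ρ S v) w = inner ℂ v (altS ρ S w) := by
  rw [altS_apply, altS_apply, sum_inner, inner_sum]
  refine Finset.sum_bij (fun g _ => g⁻¹) (fun g hg => fixS_inv hg)
    (fun a _ b _ h => inv_injective h) (fun b hb => ⟨b⁻¹, fixS_inv hb, inv_inv b⟩) ?_
  intro g _
  rw [inner_smul_left, inner_smul_right, uni_symm ρ hρ, Perm.sign_inv, map_intCast]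

theorem sign_sq_C (g : Perm (Fin (n + 1))) :
    (((Perm.sign g : ℤˣ) : ℤ) : ℂ) * (((Perm.sign g : ℤˣ) : ℤ) : ℂ) = 1 := by
  rw [← Int.cast_mul, ← Units.val_mul, Int.units_mul_self]
  simp

theorem altS_rho (ρ : Perm (Fin (n + 1)) →* (V →ₗ[ℂ] V)) (S : Finset (Fin (n + 1)))
    (h : Perm (Fin (n + 1))) (hh : h ∈ fixS S) (v : V) :
    altS ρ S (ρ h v) = (((Perm.sign h : ℤˣ) : ℤ) : ℂ) • altS ρ S v := by
  rw [altS_apply, altS_apply, Finset.smul_sum]
  refine Finset.sum_bij (fun g _ => g * h) (fun g hg => fixS_mul hg hh)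
    (fun a _ b _ e => mul_right_cancel e)
    (fun b hb => ⟨b * h⁻¹, fixS_mul hb (fixS_inv hh), by simp⟩) ?_
  intro g _
  rw [smul_smul, map_mul ρ g h, Module.End.mul_apply, Perm.sign_mul, Units.val_mul, Int.cast_mul]
  congr 1
  linear_combination (-(((Perm.sign g : ℤˣ) : ℤ) : ℂ)) * sign_sq_C h

theorem altS_of_sign (ρ : Perm (Fin (n + 1)) →* (V →ₗ[ℂ] V)) (S : Finset (Fin (n + 1))) (v : V)
    (h : ∀ g ∈ fixS S, ρ g v = (((Perm.sign g : ℤˣ) : ℤ) : ℂ) • v) :
    altS ρ S v = (((n + 1 - S.card).factorial : ℕ) : ℂ) • v := by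
  rw [altS_apply, Finset.sum_congr rfl (fun g hg => by
    rw [h g hg, smul_smul, sign_sq_C, one_smul] :
    ∀ g ∈ fixS S, (((Perm.sign g : ℤˣ) : ℤ) : ℂ) • ρ g v = v), Finset.sum_const, card_fixS,
    Nat.cast_smul_eq_nsmul]

/-- `altS` is a multiple of a projection -/
theorem altS_sq (ρ : Perm (Fin (n + 1)) →* (V →ₗ[ℂ] V)) (S : Finset (Fin (n + 1))) (v : V) :
    altS ρ S (altS ρ S v) = (((n + 1 - S.card).factorial : ℕ) : ℂ) • altS ρ S v := by
  rw [altS_apply ρ S v, map_sum, Finset.sum_congr rfl (fun g hg => by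
    rw [map_smul, altS_rho ρ S g hg, smul_smul, sign_sq_C, one_smul] :
    ∀ g ∈ fixS S, altS ρ S ((((Perm.sign g : ℤˣ) : ℤ) : ℂ) • ρ g v) = altS ρ S v),
    Finset.sum_const, card_fixS, Nat.cast_smul_eq_nsmul, ← altS_apply]

/-- a vector which changes sign under the adjacent transpositions of the interval `[p, q]`
changes sign under all transpositions of the interval -/
theorem sign_swap_interval (ρ : Perm (Fin (n + 1)) →* (V →ₗ[ℂ] V)) (p q : ℕ)
    (v : V) (h : ∀ m : Fin n, p ≤ (m : ℕ) → (m : ℕ) + 1 ≤ q → sw ρ m v = -v) (k : ℕ) :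
    ∀ i j : Fin (n + 1), p ≤ (i : ℕ) → (j : ℕ) = i + (k + 1) → (j : ℕ) ≤ q →
      ρ (swap i j) v = -v := by
  induction k with
  | zero =>
    intro i j hi hj hq
    have hm : (i : ℕ) < n := by have := j.2; omega
    have := h ⟨i, hm⟩ hi (by simp; omega)
    have e1 : (⟨i, hm⟩ : Fin n).castSucc = i := Fin.ext (by simp)
    have e2 : (⟨i, hm⟩ : Fin n).succ = j := Fin.ext (by simp [hj])
    rwa [sw, e1, e2] at this
  | succ k ih =>
    intro i j hi hj hq
    have hm : (i : ℕ) + (k + 1) < n := by have := j.2; omega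
    set m : Fin n := ⟨i + (k + 1), hm⟩ with hmdef
    have e2 : m.succ = j := Fin.ext (by simp [hmdef, hj]; omega)
    have h1 := ih i m.castSucc hi (by simp [hmdef]) (by simp [hmdef]; omega)
    have h2 := h m (by simp [hmdef]; omega) (by simp [hmdef]; omega)
    have hne1 : i ≠ m.castSucc := by
      intro e; have := congrArg Fin.val e; simp [hmdef] at this
    have hne2 : i ≠ j := by
      intro e; have := congrArg Fin.val e; omega
    have e3 : swap i j = swap m.castSucc m.succ * swap i m.castSucc * swap m.castSucc m.succ := by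
      rw [Equiv.mul_swap_eq_swap_mul (swap m.castSucc m.succ) i m.castSucc, swap_apply_left,
        swap_apply_of_ne_of_ne hne1 (by rw [e2]; exact hne2), mul_assoc, swap_mul_self, mul_one, e2]
    rw [e3, map_mul, map_mul, Module.End.mul_apply, Module.End.mul_apply]
    rw [sw] at h2
    rw [h2, map_neg, h1, neg_neg, h2]

theorem sign_interval (ρ : Perm (Fin (n + 1)) →* (V →ₗ[ℂ] V)) (p q : ℕ)
    (S : Finset (Fin (n + 1))) (hS : ∀ t : Fin (n + 1), t ∈ S ↔ ¬ (p ≤ (t : ℕ) ∧ (t : ℕ) ≤ q))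
    (v : V) (h : ∀ m : Fin n, p ≤ (m : ℕ) → (m : ℕ) + 1 ≤ q → sw ρ m v = -v)
    (g : Perm (Fin (n + 1))) (hg : g ∈ fixS S) :
    ρ g v = (((Perm.sign g : ℤˣ) : ℤ) : ℂ) • v := by
  classical
  have hsw : ∀ i j : Fin (n + 1), i ∉ S → j ∉ S → i ≠ j → ρ (swap i j) v = -v := by
    intro i j hi hj hne
    rw [hS, not_not] at hi hj
    rcases lt_or_gt_of_ne (fun e => hne (Fin.ext e) : (i : ℕ) ≠ j) with hlt | hlt
    · exact sign_swap_interval ρ p q v h (j - i - 1) i j hi.1 (by omega) hj.2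
    · rw [swap_comm]
      exact sign_swap_interval ρ p q v h (i - j - 1) j i hj.1 (by omega) hi.2
  have hall : ∀ τ : Perm {a : Fin (n + 1) // a ∉ S},
      ρ (Perm.ofSubtype τ) v = (((Perm.sign (Perm.ofSubtype τ) : ℤˣ) : ℤ) : ℂ) • v := by
    intro τ
    induction τ using Equiv.Perm.swap_induction_on with
    | one => simp
    | swap_mul f x y hxy ih =>
      rw [map_mul, map_mul, Module.End.mul_apply, ih, map_smul, Equiv.Perm.ofSubtype_swap_eq,
        hsw x y x.2 y.2 (fun e => hxy (Subtype.ext e)), Perm.sign_mul,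
        Perm.sign_swap (fun e => hxy (Subtype.ext e))]
      simp
  rw [mem_fixS] at hg
  have hp : ∀ x : Fin (n + 1), g x ∉ S ↔ x ∉ S := by
    intro x
    constructor
    · intro h1 h2
      rw [hg x h2] at h1
      exact h1 h2
    · intro h1 h2
      have := hg _ h2
      rw [g.injective this] at h2
      exact h1 h2
  have hgeq : Perm.ofSubtype (Equiv.Perm.subtypePerm (p := fun a : Fin (n + 1) => a ∉ S) g hp) =
      g := by
    apply Equiv.Perm.ofSubtype_subtypePerm
    intro x hx h2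
    exact hx (hg x h2)
  rw [← hgeq]
  exact hall _

/-- a vector which changes sign under the adjacent transpositions of the interval `[p, q]` is
multiplied by a positive number by the antisymmetriser over this interval -/
theorem altS_of_interval (ρ : Perm (Fin (n + 1)) →* (V →ₗ[ℂ] V)) (p q : ℕ)
    (S : Finset (Fin (n + 1))) (hS : ∀ t : Fin (n + 1), t ∈ S ↔ ¬ (p ≤ (t : ℕ) ∧ (t : ℕ) ≤ q))
    (v : V) (h : ∀ m : Fin n, p ≤ (m : ℕ) → (m : ℕ) + 1 ≤ q → sw ρ m v = -v) :
    altS ρ S v = (((n + 1 - S.card).factorial : ℕ) : ℂ) • v :=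
  altS_of_sign ρ S v (sign_interval ρ p q S hS v h)

end SecLow
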