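import Pool.Agent.Lib.MP_d70044_ag.L.Defs

/-! # Classification of the triples of content vectors -/

namespace SecLow

open Equiv Finset

section cont
variable {n : ℕ} {z : Fin (n + 1) → ℤ}

theorem IsCont.neg (hz : IsCont z) : IsCont fun m => -z m := by
  obtain ⟨h0, h1, h2, h3⟩ := hz
  refine ⟨by simp [h0], ?_, ?_, ?_⟩
  · intro m hm
    obtain ⟨j, hj, hj2⟩ := h2 m (by simpa using hm)
    exact ⟨j, hj, by simp only [hj2]; ring⟩
  · intro m hm
    obtain ⟨j, hj, hj2⟩ := h1 m (by simpa using hm)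
    exact ⟨j, hj, by simp only [hj2]; ring⟩
  · intro p q hpq h
    obtain ⟨⟨j, a1, a2, a3⟩, ⟨j', b1, b2, b3⟩⟩ := h3 p q hpq (by simpa using h)
    exact ⟨⟨j', b1, b2, by simp only [b3]; ring⟩, ⟨j, a1, a2, by simp only [a3]; ring⟩⟩

theorem cont_chain_pos (hz : IsCont z) (k : ℕ) : ∀ (m : Fin (n + 1)) (x : ℤ), (m : ℕ) = k →
    x < z m → 0 < x → ∃ j, j < m ∧ z j = x := by
  induction k using Nat.strong_induction_on with
  | _ k ih =>
    intro m x hm hx hx0
    obtain ⟨j, hj, hj2⟩ := hz.2.1 m (by omega)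
    by_cases h : x = z m - 1
    · exact ⟨j, hj, by rw [hj2, h]⟩
    · obtain ⟨j', h1, h2⟩ := ih j (by rw [← hm]; exact hj) j x rfl (by omega) hx0
      exact ⟨j', h1.trans hj, h2⟩

theorem cont_upper (hz : IsCont z) (k : ℕ) : ∀ m : Fin (n + 1), (m : ℕ) = k →
    z m ≤ (m : ℕ) := by
  induction k using Nat.strong_induction_on with
  | _ k ih =>
    intro m hm
    by_cases h : 0 < z m
    · obtain ⟨j, hj, hj2⟩ := hz.2.1 m h
      have := ih j (by rw [← hm]; exact hj) j rfl
      rw [Fin.lt_def] at hj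
      omega
    · omega

theorem cont_lower (hz : IsCont z) (m : Fin (n + 1)) : -((m : ℕ) : ℤ) ≤ z m := by
  have := cont_upper hz.neg m m rfl
  omega

/-- positive contents do not repeat before the first repeated zero -/
theorem cont_inj (hz : IsCont z) (M : ℕ) (hM : ∀ j : Fin (n + 1), 0 < j → (j : ℕ) < M → z j ≠ 0)
    (k : ℕ) : ∀ p q : Fin (n + 1), p < q → (q : ℕ) ≤ M → z p = z q → 0 < z p →
      z p ≠ k + 1 := by
  induction k with
  | zero =>
    intro p q hpq hq he hp hk
    obtain ⟨j, h1, h2, h3⟩ := (hz.2.2.2 p q hpq he).1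
    exact hM j (lt_of_le_of_lt (Fin.zero_le p) h1) (by rw [Fin.lt_def] at h2; omega) (by
      rw [h3, hk]; simp)
  | succ k ih =>
    intro p q hpq hq he hp hk
    obtain ⟨j, h1, h2, h3⟩ := (hz.2.2.2 p q hpq he).1
    obtain ⟨j', h4, h5⟩ := hz.2.1 p hp
    exact ih j' j (h4.trans h1) (by rw [Fin.lt_def] at h2; omega) (by rw [h5, h3])
      (by rw [h5, hk]; push_cast; omega) (by rw [h5, hk]; push_cast; ring)

/-- the next positive content in a hook -/
theorem cont_next_pos (hz : IsCont z) (m : Fin (n + 1)) (hm : 0 < m)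
    (hM : ∀ j : Fin (n + 1), 0 < j → j < m → z j ≠ 0) (h : 0 < z m) :
    z m = ((univ.filter fun i : Fin (n + 1) => 0 < i ∧ i < m ∧ 0 < z i).card : ℤ) + 1 := by
  classical
  have hinj : ∀ p q : Fin (n + 1), p < q → q ≤ m → 0 < z p → z p ≠ z q := by
    intro p q hpq hq hp he
    obtain ⟨k, hk⟩ : ∃ k : ℕ, z p = k + 1 := ⟨(z p - 1).toNat, by omega⟩
    exact cont_inj hz m (fun j h1 h2 => hM j h1 h2) k p q hpq hq he hp hk
  have himg : (univ.filter fun i : Fin (n + 1) => 0 < i ∧ i < m ∧ 0 < z i).image z =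
      Finset.Ioo 0 (z m) := by
    ext x
    simp only [mem_image, mem_filter, mem_univ, true_and, Finset.mem_Ioo]
    constructor
    · rintro ⟨i, ⟨h1, h2, h3⟩, rfl⟩
      refine ⟨h3, ?_⟩
      by_contra hcon
      push Not at hcon
      rcases hcon.lt_or_eq with h4 | h4
      · obtain ⟨j, h5, h6⟩ := cont_chain_pos hz i i (z m) rfl h4 h
        exact hinj j m (h5.trans h2) le_rfl (by rw [h6]; exact h) h6
      · exact hinj i m h2 le_rfl h3 h4.symm
    · rintro ⟨h1, h2⟩
      obtain ⟨j, h3, h4⟩ := cont_chain_pos hz m m x rfl h2 h1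
      refine ⟨j, ⟨?_, h3, by omega⟩, h4⟩
      apply Fin.pos_of_ne_zero
      rintro rfl
      rw [hz.1] at h4
      omega
  have hcard := congrArg Finset.card himg
  rw [Finset.card_image_of_injOn, Int.card_Ioo] at hcard
  · rw [hcard]; omega
  · intro p hp q hq he
    simp only [coe_filter, mem_univ, true_and, Set.mem_ofPred_eq] at hp hq
    by_contra hne
    rcases lt_or_gt_of_ne hne with h1 | h1
    · exact hinj p q h1 hq.2.1.le hp.2.2 he
    · exact hinj q p h1 hp.2.1.le hq.2.2 he.symm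

theorem cont_next_neg (hz : IsCont z) (m : Fin (n + 1)) (hm : 0 < m)
    (hM : ∀ j : Fin (n + 1), 0 < j → j < m → z j ≠ 0) (h : z m < 0) :
    z m = -((univ.filter fun i : Fin (n + 1) => 0 < i ∧ i < m ∧ z i < 0).card : ℤ) - 1 := by
  have := cont_next_pos hz.neg m hm (fun j h1 h2 => by simpa using hM j h1 h2) (by simpa using h)
  simp only [Left.neg_pos_iff] at this
  omega

/-- number of positive contents at the positions `0 < i < k` -/
def PA (z : Fin (n + 1) → ℤ) (k : ℕ) : ℤ :=
  ((univ.filter fun i : Fin (n + 1) => 0 < i ∧ (i : ℕ) < k ∧ 0 < z i).card : ℤ)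

theorem PA_nonneg (z : Fin (n + 1) → ℤ) (k : ℕ) : 0 ≤ PA z k := by
  unfold PA; positivity

theorem PA_succ (z : Fin (n + 1) → ℤ) (m : Fin (n + 1)) (hm : 0 < m) :
    PA z ((m : ℕ) + 1) = PA z m + if 0 < z m then 1 else 0 := by
  classical
  unfold PA
  split_ifs with h
  · have e : (univ.filter fun i : Fin (n + 1) => 0 < i ∧ (i : ℕ) < (m : ℕ) + 1 ∧ 0 < z i) =
        insert m (univ.filter fun i : Fin (n + 1) => 0 < i ∧ (i : ℕ) < (m : ℕ) ∧ 0 < z i) := by
      ext i
      simp only [mem_filter, mem_univ, true_and, mem_insert]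
      constructor
      · rintro ⟨h1, h2, h3⟩
        by_cases h4 : i = m
        · left; exact h4
        · right; exact ⟨h1, by have : (i : ℕ) ≠ m := fun e => h4 (Fin.ext e); omega, h3⟩
      · rintro (rfl | ⟨h1, h2, h3⟩)
        · exact ⟨hm, by omega, h⟩
        · exact ⟨h1, by omega, h3⟩
    rw [e, Finset.card_insert_of_notMem (by simp)]
    push_cast; ring
  · rw [add_zero]
    congr 2
    ext i
    simp only [mem_filter, mem_univ, true_and]
    constructor
    · rintro ⟨h1, h2, h3⟩
      refine ⟨h1, ?_, h3⟩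
      have : i ≠ m := by rintro rfl; exact h h3
      have : (i : ℕ) ≠ m := fun e => this (Fin.ext e)
      omega
    · rintro ⟨h1, h2, h3⟩
      exact ⟨h1, by omega, h3⟩

/-- the possible next contents in a hook -/
theorem cont_next (hz : IsCont z) (m : Fin (n + 1)) (hm : 0 < m)
    (hM : ∀ j : Fin (n + 1), 0 < j → j < m → z j ≠ 0) :
    (0 < z m → z m = PA z m + 1) ∧ (z m < 0 → z m = PA z m - (m : ℕ)) := by
  classical
  constructor
  · intro h
    exact cont_next_pos hz m hm hM h
  · intro h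
    rw [cont_next_neg hz m hm hM h]
    have e : ((univ.filter fun i : Fin (n + 1) => 0 < i ∧ i < m ∧ z i < 0).card : ℤ) + PA z m =
        (m : ℕ) - 1 := by
      unfold PA
      rw [← Nat.cast_add, ← Finset.card_union_of_disjoint]
      · have e2 : (univ.filter fun i : Fin (n + 1) => 0 < i ∧ i < m ∧ z i < 0) ∪
            (univ.filter fun i : Fin (n + 1) => 0 < i ∧ (i : ℕ) < (m : ℕ) ∧ 0 < z i) =
            Finset.Ioo 0 m := by
          ext i
          simp only [mem_union, mem_filter, mem_univ, true_and, Finset.mem_Ioo]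
          constructor
          · rintro (⟨h1, h2, _⟩ | ⟨h1, h2, _⟩)
            · exact ⟨h1, h2⟩
            · exact ⟨h1, h2⟩
          · rintro ⟨h1, h2⟩
            rcases lt_or_gt_of_ne (hM i h1 h2) with h3 | h3
            · left; exact ⟨h1, h2, h3⟩
            · right; exact ⟨h1, h2, h3⟩
        rw [e2, Fin.card_Ioo]
        rw [Fin.lt_def] at hm
        simp at hm ⊢
        omega
      · rw [Finset.disjoint_left]
        intro i h1 h2
        simp only [mem_filter, mem_univ, true_and] at h1 h2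
        omega
    omega

end cont

section triple
variable {n : ℕ} {z : Fin 3 → Fin (n + 1) → ℤ}

theorem sumPA (hz : ∀ X, IsCont (z X)) (hs : ∀ m, ∑ X, z X m = -((m : ℕ) : ℤ)) (k : ℕ) :
    1 ≤ k → k ≤ n + 1 → (∀ i : Fin (n + 1), 0 < i → (i : ℕ) < k → ∀ X, z X i ≠ 0) →
      PA (z 0) k + PA (z 1) k + PA (z 2) k = k - 1 := by
  induction k with
  | zero => intro h; omega
  | succ k ih =>
    intro _ hk hne
    by_cases hk0 : k = 0
    · have h0 : ∀ X, PA (z X) (k + 1) = 0 := by
        intro X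
        unfold PA
        rw [Finset.filter_eq_empty_iff.mpr]
        · simp
        · rintro i _ ⟨h1, h2, _⟩
          rw [Fin.lt_def] at h1
          simp at h1
          omega
      rw [h0, h0, h0, hk0]; simp
    · set m : Fin (n + 1) := ⟨k, by omega⟩ with hm
      have hmk : (m : ℕ) = k := rfl
      have hm0 : 0 < m := by rw [Fin.lt_def]; simp only [hm]; simp; omega
      have h1 := ih (by omega) (by omega) (fun i h1 h2 => hne i h1 (by omega))
      have h2 := fun X => PA_succ (z X) m hm0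
      have h3 := fun X => cont_next (hz X) m hm0 (fun j a b => hne j a (by
        rw [Fin.lt_def] at b; omega) X)
      have h4 := fun X => hne m hm0 (by omega) X
      have h5 := hs m
      rw [Fin.sum_univ_three] at h5
      simp only [hmk] at h2 h3 h5
      have a0 := h2 0; have a1 := h2 1; have a2 := h2 2
      have b0 := h3 0; have b1 := h3 1; have b2 := h3 2
      have c0 := h4 0; have c1 := h4 1; have c2 := h4 2
      rw [a0, a1, a2]
      split_ifs <;> push_cast <;> omega

/-- exactly one content is positive -/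
theorem one_pos (hz : ∀ X, IsCont (z X)) (hs : ∀ m, ∑ X, z X m = -((m : ℕ) : ℤ))
    (m : Fin (n + 1)) (hm : 0 < m)
    (hne : ∀ i : Fin (n + 1), 0 < i → i ≤ m → ∀ X, z X i ≠ 0) :
    ∃ X, 0 < z X m ∧ ∀ Y, Y ≠ X → z Y m < 0 := by
  have hmv : 0 < (m : ℕ) := hm
  have h1 := sumPA hz hs m (by omega) (by omega) (fun i h1 h2 => hne i h1 (Fin.le_def.mpr h2.le))
  have h3 := fun X => cont_next (hz X) m hm (fun j a b => hne j a b.le X)
  have h4 := fun X => hne m hm le_rfl X
  have h5 := hs m
  rw [Fin.sum_univ_three] at h5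
  have b0 := h3 0; have b1 := h3 1; have b2 := h3 2
  have c0 := h4 0; have c1 := h4 1; have c2 := h4 2
  by_cases e0 : 0 < z 0 m
  · refine ⟨0, e0, ?_⟩
    intro Y hY
    fin_cases Y
    · exact absurd rfl hY
    · show z 1 m < 0
      omega
    · show z 2 m < 0
      omega
  · by_cases e1 : 0 < z 1 m
    · refine ⟨1, e1, ?_⟩
      intro Y hY
      fin_cases Y
      · show z 0 m < 0
        omega
      · exact absurd rfl hY
      · show z 2 m < 0
        omega
    · refine ⟨2, by omega, ?_⟩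
      intro Y hY
      fin_cases Y
      · show z 0 m < 0
        omega
      · show z 1 m < 0
        omega
      · exact absurd rfl hY

/-- a column together with two opposite contents, one of them with a zero, never ends -/
theorem column_forever {x y u : Fin (n + 1) → ℤ} (hx : IsCont x) (hy : IsCont y) (hu : IsCont u)
    (hs : ∀ m : Fin (n + 1), x m + y m + u m = -((m : ℕ) : ℤ)) (m : Fin (n + 1)) (hm : 0 < m)
    (hcol : ∀ j, j ≤ m → x j = -((j : ℕ) : ℤ)) (hym : y m = 0) :
    ∀ j, x j = -((j : ℕ) : ℤ) := by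
  classical
  by_contra hcon
  push Not at hcon
  obtain ⟨N, hN, hmin⟩ : ∃ N : Fin (n + 1), x N ≠ -((N : ℕ) : ℤ) ∧
      ∀ j, j < N → x j = -((j : ℕ) : ℤ) := by
    have hne : (univ.filter fun q : Fin (n + 1) => x q ≠ -((q : ℕ) : ℤ)).Nonempty := by
      obtain ⟨q, hq⟩ := hcon
      exact ⟨q, by simpa using hq⟩
    refine ⟨_, by simpa using Finset.min'_mem _ hne, ?_⟩
    intro j hj
    by_contra h
    have := Finset.min'_le (univ.filter fun q : Fin (n + 1) => x q ≠ -((q : ℕ) : ℤ)) j
      (by simpa using h)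
    exact absurd hj (not_lt.mpr this)
  have hmN : m < N := by
    by_contra h
    push Not at h
    exact hN (hcol N h)
  have hN0 : 0 < N := hm.trans hmN
  have hNv : 0 < (N : ℕ) := hN0
  -- the content of `x` at `N` is `1`
  have hxne : ∀ j : Fin (n + 1), 0 < j → j < N → x j ≠ 0 := by
    intro j h1 h2
    rw [hmin j h2]
    rw [Fin.lt_def] at h1
    simp at h1
    omega
  have hPA : PA x N = 0 := by
    unfold PA
    rw [Finset.filter_eq_empty_iff.mpr]
    · simp
    · rintro i _ ⟨h1, h2, h3⟩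
      rw [hmin i (Fin.lt_def.mpr h2)] at h3
      omega
  have hnext := cont_next hx N hN0 hxne
  rw [hPA] at hnext
  have hx0 : x N ≠ 0 := by
    intro h
    obtain ⟨j, h1, h2, h3⟩ := (hx.2.2.2 0 N hN0 (by rw [hx.1, h])).2
    rw [hx.1, hmin j h2] at h3
    omega
  have hx1 : x N = 1 := by
    rcases lt_or_gt_of_ne hx0 with h | h
    · exact absurd (by rw [hnext.2 h]; ring) hN
    · rw [hnext.1 h]; norm_num
  have hsN := hs N
  have hyl := cont_lower hy N
  have hul := cont_lower hu N
  -- pigeonhole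
  set T : Finset ℤ := Finset.Ioo (y N) 0 ∪ Finset.Ioo 0 (-(u N)) with hT
  set Q : Finset (Fin (n + 1)) := (Finset.Ioo 0 N).erase m with hQ
  have hsub : T ⊆ Q.image y := by
    intro t ht
    rw [hT, Finset.mem_union, Finset.mem_Ioo, Finset.mem_Ioo] at ht
    have hex : ∃ j, j < N ∧ y j = t := by
      rcases ht with ⟨h1, h2⟩ | ⟨h1, h2⟩
      · obtain ⟨j, h3, h4⟩ := cont_chain_pos hy.neg N N (-t) rfl (by omega) (by omega)
        exact ⟨j, h3, by omega⟩
      · obtain ⟨j, h3, h4⟩ := cont_chain_pos hu.neg N N t rfl (by omega) h1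
        refine ⟨j, h3, ?_⟩
        have h5 := hs j
        rw [hmin j h3] at h5
        omega
    obtain ⟨j, h1, h2⟩ := hex
    rw [Finset.mem_image]
    refine ⟨j, ?_, h2⟩
    rw [hQ, Finset.mem_erase, Finset.mem_Ioo]
    refine ⟨?_, ?_, h1⟩
    · rintro rfl
      omega
    · apply Fin.pos_of_ne_zero
      rintro rfl
      rw [hy.1] at h2
      omega
  have h1 := (Finset.card_le_card hsub).trans Finset.card_image_le
  rw [hT, Finset.card_union_of_disjoint, Int.card_Ioo, Int.card_Ioo, hQ,
    Finset.card_erase_of_mem, Fin.card_Ioo] at h1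
  · rw [Fin.val_zero] at h1
    rw [Fin.lt_def] at hmN hm
    rw [Fin.val_zero] at hm
    omega
  · rw [Finset.mem_Ioo]; exact ⟨hm, hmN⟩
  · rw [Finset.disjoint_left]
    intro t h1 h2
    rw [Finset.mem_Ioo] at h1 h2
    omega

/-- all contents at positive positions are nonzero -/
theorem all_ne (hz : ∀ X, IsCont (z X)) (hs : ∀ m, ∑ X, z X m = -((m : ℕ) : ℤ))
    (hcol : ∀ X, ∃ m, z X m ≠ -((m : ℕ) : ℤ)) (k : ℕ) :
    ∀ m : Fin (n + 1), (m : ℕ) = k → 0 < m → ∀ X, z X m ≠ 0 := by
  induction k using Nat.strong_induction_on with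
  | _ k ih =>
    intro m hmk hm X0 hX0
    have hmv : 0 < (m : ℕ) := hm
    have hprev : ∀ i : Fin (n + 1), 0 < i → (i : ℕ) < m → ∀ X, z X i ≠ 0 :=
      fun i h1 h2 => ih i (by omega) i rfl h1
    have hS := sumPA hz hs m (by omega) (by omega) hprev
    have h3 := fun X => cont_next (hz X) m hm (fun j a b => hprev j a b X)
    have h5 := hs m
    rw [Fin.sum_univ_three] at h5
    have b0 := h3 0; have b1 := h3 1; have b2 := h3 2
    have p0 := PA_nonneg (z 0) m; have p1 := PA_nonneg (z 1) m; have p2 := PA_nonneg (z 2) m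
    have hX : z 0 m = 0 ∨ z 1 m = 0 ∨ z 2 m = 0 := by
      fin_cases X0
      · left; exact hX0
      · right; left; exact hX0
      · right; right; exact hX0
    -- a column
    have hcolumn : ∀ X, PA (z X) m = 0 → z X m < 0 → ∀ j, j ≤ m → z X j = -((j : ℕ) : ℤ) := by
      intro X hP hneg j hj
      have hposj : ∀ i : Fin (n + 1), 0 < i → i < m → ¬ 0 < z X i := by
        intro i h1 h2 h4
        unfold PA at hP
        have : (univ.filter fun i : Fin (n + 1) => 0 < i ∧ (i : ℕ) < (m : ℕ) ∧ 0 < z X i) = ∅ := by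
          rw [← Finset.card_eq_zero]; exact_mod_cast hP
        have h6 : i ∈ (univ.filter fun i : Fin (n + 1) => 0 < i ∧ (i : ℕ) < (m : ℕ) ∧
            0 < z X i) := by simp only [mem_filter, mem_univ, true_and]; exact ⟨h1, h2, h4⟩
        rw [this] at h6
        exact absurd h6 (Finset.notMem_empty _)
      by_cases hj0 : j = 0
      · rw [hj0, (hz X).1]; simp
      · have hjp : 0 < j := Fin.pos_of_ne_zero hj0
        have hnegj : z X j < 0 := by
          rcases hj.lt_or_eq with h | h
          · have := hposj j hjp h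
            have := hprev j hjp h X
            omega
          · rw [h]; exact hneg
        have h7 := (cont_next (hz X) j hjp (fun i a b => hprev i a (lt_of_lt_of_le b hj) X)).2 hnegj
        have h8 : PA (z X) j = 0 := by
          unfold PA
          rw [Finset.filter_eq_empty_iff.mpr]
          · simp
          · rintro i _ ⟨h1, h2, h4⟩
            exact hposj i h1 (lt_of_lt_of_le h2 hj) h4
        rw [h7, h8]; ring
    have hfin : ∀ X Y U : Fin 3, (∀ j, z X j + z Y j + z U j = -((j : ℕ) : ℤ)) →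
        PA (z X) m = 0 → z X m < 0 → z Y m = 0 → False := by
      intro X Y U hsum hP hneg hY
      obtain ⟨j, hj⟩ := hcol X
      exact hj (column_forever (hz X) (hz Y) (hz U) hsum m hm (hcolumn X hP hneg) hY j)
    have hs' : ∀ j, z 0 j + z 1 j + z 2 j = -((j : ℕ) : ℤ) := fun j => by
      rw [← hs j, Fin.sum_univ_three]
    have hcase : (PA (z 0) m = 0 ∧ z 0 m < 0 ∧ z 1 m = 0) ∨
        (PA (z 1) m = 0 ∧ z 1 m < 0 ∧ z 0 m = 0) ∨ (PA (z 2) m = 0 ∧ z 2 m < 0 ∧ z 0 m = 0) := by
      omega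
    rcases hcase with ⟨h1, h2, h4⟩ | ⟨h1, h2, h4⟩ | ⟨h1, h2, h4⟩
    · exact hfin 0 1 2 hs' h1 h2 h4
    · exact hfin 1 0 2 (fun j => by rw [← hs' j]; ring) h1 h2 h4
    · exact hfin 2 0 1 (fun j => by rw [← hs' j]; ring) h1 h2 h4

end triple

theorem classify {n : ℕ} (z : Fin 3 → Fin (n + 1) → ℤ) (hz : ∀ X, IsCont (z X))
    (hs : ∀ m, ∑ X, z X m = -((m : ℕ) : ℤ)) (hcol : ∀ X, ∃ m, z X m ≠ -((m : ℕ) : ℤ)) :
    ∃ w : Fin (n + 1) → Fin 3, ∀ X m, z X m = wcont w X m := by
  classical
  have hne : ∀ m : Fin (n + 1), 0 < m → ∀ X, z X m ≠ 0 := fun m hm =>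
    all_ne hz hs hcol m m rfl hm
  have hone : ∀ m : Fin (n + 1), ∃ X, 0 < m → (0 < z X m ∧ ∀ Y, Y ≠ X → z Y m < 0) := by
    intro m
    by_cases hm : 0 < m
    · obtain ⟨X, hX⟩ := one_pos hz hs m hm (fun i h1 _ => hne i h1)
      exact ⟨X, fun _ => hX⟩
    · exact ⟨0, fun h => absurd h hm⟩
  choose w hw using hone
  refine ⟨w, fun X m => ?_⟩
  have hwiff : ∀ j : Fin (n + 1), 0 < j → (w j = X ↔ 0 < z X j) := by
    intro j hj
    constructor
    · rintro rfl; exact (hw j hj).1
    · intro h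
      by_contra hcon
      have := (hw j hj).2 X (fun e => hcon e.symm)
      omega
  by_cases hm : 0 < m
  · have hcnt : cnt w X m = PA (z X) ((m : ℕ) + 1) := by
      unfold cnt PA
      congr 2
      ext j
      simp only [mem_filter, mem_univ, true_and]
      constructor
      · rintro ⟨h1, h2, h3⟩
        exact ⟨h1, Nat.lt_succ_of_le h2, (hwiff j h1).mp h3⟩
      · rintro ⟨h1, h2, h3⟩
        exact ⟨h1, Fin.le_def.mpr (Nat.le_of_lt_succ h2), (hwiff j h1).mpr h3⟩
    have hnext := cont_next (hz X) m hm (fun j h1 _ => hne j h1 X)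
    have hsucc := PA_succ (z X) m hm
    rw [wcont, hcnt, hsucc]
    have h1 := hwiff m hm
    by_cases h2 : 0 < z X m
    · rw [if_pos (h1.mpr h2), if_pos h2]
      exact hnext.1 h2
    · rw [if_neg (fun e => h2 (h1.mp e)), if_neg h2, add_zero]
      have := hne m hm X
      exact hnext.2 (by omega)
  · have hm0 : m = 0 := by
      by_contra h
      exact hm (Fin.pos_of_ne_zero h)
    subst hm0
    have hc0 : cnt w X 0 = 0 := by
      unfold cnt
      rw [Finset.filter_eq_empty_iff.mpr]
      · simp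
      · rintro j _ ⟨h1, h2, _⟩
        exact absurd h1 (not_lt.mpr h2)
    rw [(hz X).1, wcont, hc0]
    simp

end SecLow
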