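import Pool.Agent.Lib.MP_d70044_ag.L.Step

/-! # Content vectors -/

namespace SecLow

open Equiv Finset

variable {n : ℕ} {V : Type*} [NormedAddCommGroup V] [InnerProductSpace ℂ V]

variable (ρ : Perm (Fin (n + 1)) →* (V →ₗ[ℂ] V)) (hρ : IsUni ρ) (c : Fin (n + 1) → ℝ) (v : V)
  (hv : JE ρ c v) (h0 : v ≠ 0)

include hρ hv h0

theorem cont_zero : c 0 = 0 := by
  have h := hv 0
  have e : jm ρ 0 = 0 := by
    rw [jm, Finset.filter_eq_empty_iff.mpr, Finset.sum_empty]
    intro i _
    exact Fin.not_lt_zero i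
  rw [e, LinearMap.zero_apply] at h
  rcases smul_eq_zero.mp h.symm with h1 | h1
  · exact_mod_cast h1
  · exact absurd h1 h0

omit hv h0 in
theorem cont_near_aux (k : ℕ) : ∀ (c : Fin (n + 1) → ℝ) (v : V), JE ρ c v → v ≠ 0 →
    ∀ m : Fin (n + 1), (m : ℕ) = k → 0 < m → ∃ j, j < m ∧ (c j = c m - 1 ∨ c j = c m + 1) := by
  induction k with
  | zero =>
    intro c v _ _ m hm hm0
    exact absurd hm0 (by rw [Fin.lt_def]; simp [hm])
  | succ k ih =>
    intro c v hv h0 m hm hm0
    obtain ⟨m', rfl⟩ : ∃ m' : Fin n, m = m'.succ := ⟨m.pred (ne_of_gt hm0), by simp⟩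
    have hk : (m' : ℕ) = k := by simpa using hm
    have habs := step_abs ρ hρ c v hv h0 m'
    rcases habs.lt_or_eq with hlt | heq
    · obtain ⟨hne, hJ⟩ := step_big ρ hρ c v hv h0 m' hlt
      by_cases hk0 : k = 0
      · exfalso
        have hm'0 : m'.castSucc = 0 := Fin.ext (by simp [hk, hk0])
        have h1 := cont_zero ρ hρ _ _ hJ hne
        have h2 := cont_zero ρ hρ c v hv h0
        rw [← hm'0] at h1 h2
        simp only [swap_apply_left] at h1
        rw [h1, h2] at hlt
        norm_num at hlt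
      · obtain ⟨j, hj, hj2⟩ := ih _ _ hJ hne m'.castSucc (by simp [hk])
          (by rw [Fin.lt_def]; simp; omega)
        simp only [swap_apply_left] at hj2
        have e1 : j ≠ m'.castSucc := ne_of_lt hj
        have e2 : j ≠ m'.succ := ne_of_lt (hj.trans Fin.castSucc_lt_succ)
        rw [swap_apply_of_ne_of_ne e1 e2] at hj2
        exact ⟨j, hj.trans Fin.castSucc_lt_succ, hj2⟩
    · refine ⟨m'.castSucc, Fin.castSucc_lt_succ, ?_⟩
      rcases abs_eq (by norm_num : (0 : ℝ) ≤ 1) |>.mp heq.symm with h1 | h1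
      · left; linarith
      · right; linarith

theorem cont_near (m : Fin (n + 1)) (hm : 0 < m) :
    ∃ j, j < m ∧ (c j = c m - 1 ∨ c j = c m + 1) :=
  cont_near_aux ρ hρ m c v hv h0 m rfl hm

omit hv h0 in
theorem cont_rep_aux (N : ℕ) : ∀ (c : Fin (n + 1) → ℝ) (v : V), JE ρ c v → v ≠ 0 →
    ∀ ε : ℝ, (ε = 1 ∨ ε = -1) → ∀ p q : Fin (n + 1), p < q → (q : ℕ) ≤ p + N → c p = c q →
      ∃ j, p < j ∧ j < q ∧ c j = c p - ε := by
  induction N with
  | zero =>
    intro c v _ _ ε _ p q hpq hN
    rw [Fin.lt_def] at hpq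
    omega
  | succ N ih =>
    intro c v hv h0 ε hε p q hpq hN hc
    by_contra hno
    push Not at hno
    rw [Fin.lt_def] at hpq
    -- no further occurrence
    have hnox : ∀ j, p < j → j < q → c j ≠ c p := by
      intro j hj1 hj2 hj3
      obtain ⟨j', h1, h2, h3⟩ := ih c v hv h0 ε hε p j hj1
        (by rw [Fin.lt_def] at hj1 hj2; omega) hj3.symm
      exact hno j' h1 (h2.trans hj2) h3
    obtain ⟨pm, hpm⟩ : ∃ m : Fin n, m.castSucc = p :=
      ⟨⟨p, by have := q.2; omega⟩, Fin.ext (by simp)⟩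
    obtain ⟨qm, hqm⟩ : ∃ m : Fin n, m.succ = q :=
      ⟨⟨q - 1, by have := q.2; omega⟩, Fin.ext (by simp; omega)⟩
    have hpv : (pm : ℕ) = p := by rw [← hpm]; simp
    have hqv : (qm : ℕ) + 1 = q := by rw [← hqm]; simp
    have hεne : ε ≠ 0 := by rcases hε with h | h <;> rw [h] <;> norm_num
    have hne1 : (q : ℕ) ≠ p + 1 := by
      intro h
      have h1 := step_abs ρ hρ c v hv h0 pm
      have e : pm.succ = q := Fin.ext (by simp [hpv, h])
      rw [e, hpm, ← hc, sub_self, abs_zero] at h1
      norm_num at h1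
    -- the value after `p`
    have hlt1 : p < pm.succ := by rw [Fin.lt_def]; simp [hpv]
    have hlt2 : pm.succ < q := by rw [Fin.lt_def]; simp [hpv]; omega
    have hlt3 : p < qm.castSucc := by rw [Fin.lt_def]; simp; omega
    have hlt4 : qm.castSucc < q := by rw [Fin.lt_def]; simp; omega
    have key : ∀ y : ℝ, 1 ≤ |y - c p| → y ≠ c p - ε → y = c p + ε ∨ 1 < |y - c p| := by
      intro y h1 h2
      rcases h1.lt_or_eq with h3 | h3
      · right; exact h3
      · left
        rcases abs_eq (by norm_num : (0 : ℝ) ≤ 1) |>.mp h3.symm with h4 | h4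
        · rcases hε with h5 | h5
          · rw [h5]; linarith
          · exact absurd (by rw [h5]; linarith : y = c p - ε) h2
        · rcases hε with h5 | h5
          · exact absurd (by rw [h5]; linarith : y = c p - ε) h2
          · rw [h5]; linarith
    have hA : c pm.succ = c p + ε := by
      have h1 := step_abs ρ hρ c v hv h0 pm
      rw [hpm] at h1
      rcases key _ h1 (hno _ hlt1 hlt2) with h2 | h2
      · exact h2
      · exfalso
        rw [← hpm] at h2
        obtain ⟨hne, hJ⟩ := step_big ρ hρ c v hv h0 pm h2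
        have e1 : q ≠ pm.castSucc := by rw [hpm]; intro h; rw [h] at hpq; omega
        have e2 : q ≠ pm.succ := ne_of_gt hlt2
        obtain ⟨j, hj1, hj2, hj3⟩ := ih _ _ hJ hne ε hε pm.succ q hlt2
          (by simp [hpv]; omega) (by
            simp only [swap_apply_right]
            rw [swap_apply_of_ne_of_ne e1 e2, hpm, hc])
        simp only [swap_apply_right] at hj3
        have e3 : j ≠ pm.succ := ne_of_gt hj1
        have e4 : j ≠ pm.castSucc := by rw [hpm]; exact ne_of_gt (hlt1.trans hj1)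
        rw [swap_apply_of_ne_of_ne e4 e3, hpm] at hj3
        exact hno j (hlt1.trans hj1) hj2 hj3
    have hB : c qm.castSucc = c p + ε := by
      have h1 := step_abs ρ hρ c v hv h0 qm
      rw [hqm, ← hc, abs_sub_comm] at h1
      rcases key _ h1 (hno _ hlt3 hlt4) with h2 | h2
      · exact h2
      · exfalso
        rw [hc, abs_sub_comm, ← hqm] at h2
        obtain ⟨hne, hJ⟩ := step_big ρ hρ c v hv h0 qm h2
        have e1 : p ≠ qm.castSucc := ne_of_lt hlt3
        have e2 : p ≠ qm.succ := by rw [hqm]; intro h; rw [h] at hpq; omega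
        obtain ⟨j, hj1, hj2, hj3⟩ := ih _ _ hJ hne ε hε p qm.castSucc hlt3
          (by simp; omega) (by
            simp only [swap_apply_left]
            rw [swap_apply_of_ne_of_ne e1 e2, hqm, hc])
        have e3 : j ≠ qm.castSucc := ne_of_lt hj2
        have e4 : j ≠ qm.succ := by rw [hqm]; exact ne_of_lt (hj2.trans hlt4)
        rw [swap_apply_of_ne_of_ne e3 e4, swap_apply_of_ne_of_ne e1 e2] at hj3
        exact hno j hj1 (hj2.trans hlt4) hj3
    by_cases hadj : (q : ℕ) = p + 2
    · -- the pattern `x, x + ε, x`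
      have hq1 : qm.castSucc = pm.succ := Fin.ext (by simp; omega)
      have hbr := sw_braid ρ pm qm (by omega) v
      have hz : v = -v := by
        rcases hε with h | h
        · have s1 : sw ρ pm v = v := step_one ρ hρ c v hv h0 pm (by rw [hA, hpm, h])
          have s2 : sw ρ qm v = -v := step_neg_one ρ hρ c v hv h0 qm (by
            rw [hqm, ← hc, hB, h]; ring)
          simp only [s1, s2, map_neg, neg_neg] at hbr
          exact hbr.symm
        · have s1 : sw ρ pm v = -v := step_neg_one ρ hρ c v hv h0 pm (by rw [hA, hpm, h]; ring)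
          have s2 : sw ρ qm v = v := step_one ρ hρ c v hv h0 qm (by
            rw [hqm, ← hc, hB, h]; ring)
          simp only [s1, s2, map_neg, neg_neg] at hbr
          exact hbr
      have h2 : (2 : ℂ) • v = 0 := by
        rw [two_smul]; nth_rewrite 2 [hz]; abel
      rcases smul_eq_zero.mp h2 with h3 | h3
      · norm_num at h3
      · exact h0 h3
    · have hlt5 : pm.succ < qm.castSucc := by rw [Fin.lt_def]; simp; omega
      obtain ⟨j, hj1, hj2, hj3⟩ := ih c v hv h0 ε hε pm.succ qm.castSucc hlt5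
        (by simp; omega) (by rw [hA, hB])
      rw [hA, add_sub_cancel_right] at hj3
      exact hnox j (hlt1.trans hj1) (hj2.trans hlt4) hj3

theorem cont_rep (p q : Fin (n + 1)) (hpq : p < q) (h : c p = c q) :
    (∃ j, p < j ∧ j < q ∧ c j = c p - 1) ∧ (∃ j, p < j ∧ j < q ∧ c j = c p + 1) := by
  constructor
  · exact cont_rep_aux ρ hρ q c v hv h0 1 (Or.inl rfl) p q hpq (by omega) h
  · obtain ⟨j, h1, h2, h3⟩ :=
      cont_rep_aux ρ hρ q c v hv h0 (-1) (Or.inr rfl) p q hpq (by omega) h
    exact ⟨j, h1, h2, by rw [h3]; ring⟩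

/-- the eigenvalues form a content vector -/
theorem exists_cont : ∃ z : Fin (n + 1) → ℤ, (∀ m, c m = z m) ∧ IsCont z := by
  have hint : ∀ k : ℕ, ∀ m : Fin (n + 1), (m : ℕ) = k → ∃ z : ℤ, c m = z := by
    intro k
    induction k using Nat.strong_induction_on with
    | _ k ih =>
      intro m hm
      by_cases h : m = 0
      · exact ⟨0, by rw [h, cont_zero ρ hρ c v hv h0]; simp⟩
      · obtain ⟨j, hj1, hj2⟩ := cont_near ρ hρ c v hv h0 m (Fin.pos_of_ne_zero h)
        obtain ⟨z, hz⟩ := ih j (by rw [← hm]; exact hj1) j rfl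
        rcases hj2 with h2 | h2
        · exact ⟨z + 1, by push_cast; linarith⟩
        · exact ⟨z - 1, by push_cast; linarith⟩
  choose z hz using fun m : Fin (n + 1) => hint (m : ℕ) m rfl
  refine ⟨z, hz, ?_, ?_, ?_, ?_⟩
  · have := cont_zero ρ hρ c v hv h0
    rw [hz] at this
    exact_mod_cast this
  · intro m hm
    obtain ⟨q, hq, hmin⟩ : ∃ q : Fin (n + 1), (q ≤ m ∧ z m ≤ z q) ∧ ∀ q', q' < q → z q' < z m := by
      have hne : (univ.filter fun q : Fin (n + 1) => q ≤ m ∧ z m ≤ z q).Nonempty :=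
        ⟨m, by simp⟩
      refine ⟨(univ.filter fun q : Fin (n + 1) => q ≤ m ∧ z m ≤ z q).min' hne, ?_, ?_⟩
      · have := Finset.min'_mem _ hne
        simpa using this
      · intro q' hq'
        by_contra hcon
        push Not at hcon
        have h1 := Finset.min'_mem _ hne
        simp only [mem_filter, mem_univ, true_and] at h1
        have h2 := Finset.min'_le (univ.filter fun q : Fin (n + 1) => q ≤ m ∧ z m ≤ z q) q'
          (by simp only [mem_filter, mem_univ, true_and]; exact ⟨hq'.le.trans h1.1, hcon⟩)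
        exact absurd hq' (not_lt.mpr h2)
    have hq0 : 0 < q := by
      apply Fin.pos_of_ne_zero
      rintro rfl
      have := cont_zero ρ hρ c v hv h0
      rw [hz] at this
      have h3 : z 0 = 0 := by exact_mod_cast this
      omega
    obtain ⟨j, hj1, hj2⟩ := cont_near ρ hρ c v hv h0 q hq0
    have hj3 : z j = z q - 1 ∨ z j = z q + 1 := by
      rcases hj2 with h | h
      · left; rw [hz, hz] at h; exact_mod_cast h
      · right; rw [hz, hz] at h; exact_mod_cast h
    have hj4 := hmin j hj1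
    have hj5 := hq.2
    refine ⟨j, lt_of_lt_of_le hj1 hq.1, ?_⟩
    omega
  · intro m hm
    obtain ⟨q, hq, hmin⟩ : ∃ q : Fin (n + 1), (q ≤ m ∧ z q ≤ z m) ∧ ∀ q', q' < q → z m < z q' := by
      have hne : (univ.filter fun q : Fin (n + 1) => q ≤ m ∧ z q ≤ z m).Nonempty :=
        ⟨m, by simp⟩
      refine ⟨(univ.filter fun q : Fin (n + 1) => q ≤ m ∧ z q ≤ z m).min' hne, ?_, ?_⟩
      · have := Finset.min'_mem _ hne
        simpa using this
      · intro q' hq'
        by_contra hcon
        push Not at hcon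
        have h1 := Finset.min'_mem _ hne
        simp only [mem_filter, mem_univ, true_and] at h1
        have h2 := Finset.min'_le (univ.filter fun q : Fin (n + 1) => q ≤ m ∧ z q ≤ z m) q'
          (by simp only [mem_filter, mem_univ, true_and]; exact ⟨hq'.le.trans h1.1, hcon⟩)
        exact absurd hq' (not_lt.mpr h2)
    have hq0 : 0 < q := by
      apply Fin.pos_of_ne_zero
      rintro rfl
      have := cont_zero ρ hρ c v hv h0
      rw [hz] at this
      have h3 : z 0 = 0 := by exact_mod_cast this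
      omega
    obtain ⟨j, hj1, hj2⟩ := cont_near ρ hρ c v hv h0 q hq0
    have hj3 : z j = z q - 1 ∨ z j = z q + 1 := by
      rcases hj2 with h | h
      · left; rw [hz, hz] at h; exact_mod_cast h
      · right; rw [hz, hz] at h; exact_mod_cast h
    have hj4 := hmin j hj1
    have hj5 := hq.2
    refine ⟨j, lt_of_lt_of_le hj1 hq.1, ?_⟩
    omega
  · intro p q hpq h
    obtain ⟨⟨j, a1, a2, a3⟩, ⟨j', b1, b2, b3⟩⟩ := cont_rep ρ hρ c v hv h0 p q hpq
      (by rw [hz, hz, h])
    rw [hz, hz] at a3 b3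
    exact ⟨⟨j, a1, a2, by exact_mod_cast a3⟩, ⟨j', b1, b2, by exact_mod_cast b3⟩⟩

end SecLow
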