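import Mathlib

/-!
# Lowest degree equations of the secant varieties of `P^{m1-1} × P^{m2-1} × P^{m3-1}`: definitions
-/

namespace SecLow

open Equiv Finset

/-! ### Representations of the symmetric group on `n + 1` letters -/

section rep
variable {n : ℕ} {V : Type*} [NormedAddCommGroup V] [InnerProductSpace ℂ V]

/-- The representation `ρ` is unitary. -/
def IsUni (ρ : Perm (Fin (n + 1)) →* (V →ₗ[ℂ] V)) : Prop :=
  ∀ g v w, inner ℂ (ρ g v) (ρ g w) = inner ℂ v w

/-- The Jucys–Murphy element `∑_{i < m} (i m)`. -/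
def jm (ρ : Perm (Fin (n + 1)) →* (V →ₗ[ℂ] V)) (m : Fin (n + 1)) : V →ₗ[ℂ] V :=
  ∑ i ∈ univ.filter (fun i => i < m), ρ (swap i m)

/-- The adjacent transposition `(m m+1)`. -/
def sw (ρ : Perm (Fin (n + 1)) →* (V →ₗ[ℂ] V)) (m : Fin n) : V →ₗ[ℂ] V :=
  ρ (swap m.castSucc m.succ)

/-- `v` is a joint eigenvector of the Jucys–Murphy elements with eigenvalues (contents) `c`. -/
def JE (ρ : Perm (Fin (n + 1)) →* (V →ₗ[ℂ] V)) (c : Fin (n + 1) → ℝ) (v : V) : Prop :=
  ∀ m, jm ρ m v = (c m : ℂ) • v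

/-- Antisymmetrisation over the permutations which fix all elements of `S`. -/
def altS (ρ : Perm (Fin (n + 1)) →* (V →ₗ[ℂ] V)) (S : Finset (Fin (n + 1))) : V →ₗ[ℂ] V :=
  ∑ g ∈ univ.filter (fun g : Perm (Fin (n + 1)) => ∀ t ∈ S, g t = t),
    (((Perm.sign g : ℤˣ) : ℤ) : ℂ) • ρ g

end rep

/-- The properties of content vectors that are used. -/
def IsCont {n : ℕ} (z : Fin (n + 1) → ℤ) : Prop :=
  z 0 = 0 ∧ (∀ m, 0 < z m → ∃ j, j < m ∧ z j = z m - 1) ∧
  (∀ m, z m < 0 → ∃ j, j < m ∧ z j = z m + 1) ∧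
  ∀ p q, p < q → z p = z q → (∃ j, p < j ∧ j < q ∧ z j = z p - 1) ∧
    (∃ j, p < j ∧ j < q ∧ z j = z p + 1)

/-- Number of positions `j` with `0 < j ≤ m` and letter `X`. -/
def cnt {n : ℕ} (w : Fin (n + 1) → Fin 3) (X : Fin 3) (m : Fin (n + 1)) : ℤ :=
  ((univ.filter fun j : Fin (n + 1) => 0 < j ∧ j ≤ m ∧ w j = X).card : ℤ)

/-- The contents attached to a word: at each step the factor `w m` gets a box in the first row, the
other two factors get a box in the first column. -/
def wcont {n : ℕ} (w : Fin (n + 1) → Fin 3) (X : Fin 3) (m : Fin (n + 1)) : ℤ :=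
  if w m = X then cnt w X m else cnt w X m - (m : ℕ)

/-- Three commuting unitary representations of the symmetric group. -/
structure Tri (n : ℕ) (V : Type*) [NormedAddCommGroup V] [InnerProductSpace ℂ V] where
  /-- the representations -/
  ρ : Fin 3 → (Perm (Fin (n + 1)) →* (V →ₗ[ℂ] V))
  uni : ∀ X, IsUni (ρ X)
  comm : ∀ X Y, X ≠ Y → ∀ g h, Commute (ρ X g) (ρ Y h)

section tri
variable {n : ℕ} {V : Type*} [NormedAddCommGroup V] [InnerProductSpace ℂ V]

/-- joint eigenvectors for the three representations -/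
def Tri.JE3 (T : Tri n V) (c : Fin 3 → Fin (n + 1) → ℝ) (v : V) : Prop := ∀ X, JE (T.ρ X) (c X) v

/-- The conditions on the symmetric function of a polynomial of degree `n + 1` which vanishes on all
tensors of rank `≤ n`. -/
structure Tri.Pol (T : Tri n V) (P : V) : Prop where
  inv : ∀ g, T.ρ 0 g (T.ρ 1 g (T.ρ 2 g P)) = P
  quad : ∀ i j, i ≠ j → ∑ X, T.ρ X (swap i j) P = -P

end tri

/-! ### Polynomials on tensors -/

/-- The coordinates of a tensor. -/
abbrev Var (m1 m2 m3 : ℕ) : Type := Fin m1 × Fin m2 × Fin m3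

section poly
variable {m1 m2 m3 : ℕ}

/-- Rearranging the three coordinates of a sequence of index triples. -/
def perm3 {D : Type*} (σ : Fin 3 → Perm D) (s : D → Var m1 m2 m3) : D → Var m1 m2 m3 :=
  fun t => ((s (σ 0 t)).1, (s (σ 1 t)).2.1, (s (σ 2 t)).2.2)

/-- The monomial `∏_t x_{s t}`. -/
noncomputable def monS {D : Type*} [Fintype D] (s : D → Var m1 m2 m3) :
    MvPolynomial (Var m1 m2 m3) ℂ := ∏ t, MvPolynomial.X (s t)

/-- The minor of the flattening with respect to the factor `X`: antisymmetrisation of the monomial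
`∏_t x_{s t}` in the indices of the factor `X`. -/
noncomputable def minorPoly {d : ℕ} (X : Fin 3) (s : Fin d → Var m1 m2 m3) :
    MvPolynomial (Var m1 m2 m3) ℂ :=
  ∑ σ : Perm (Fin d), ((Perm.sign σ : ℤˣ) : ℤ) •
    monS (perm3 (Function.update (fun _ => Equiv.refl (Fin d)) X σ) s)

/-- For a colouring `χ` of the positions by the three factors: antisymmetrisation of the monomial
`∏_t x_{s t}`, in the indices of each factor `X`, over all positions not coloured by `X`. -/
noncomputable def hookPoly {d : ℕ} (χ : Fin d → Fin 3) (s : Fin d → Var m1 m2 m3) :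
    MvPolynomial (Var m1 m2 m3) ℂ :=
  ∑ σ : Fin 3 → Perm (Fin d), if ∀ X t, χ t = X → σ X t = t then
    (∏ X, ((Perm.sign (σ X) : ℤˣ) : ℤ)) • monS (perm3 σ s) else 0

/-- The tensor `∑_{i < r} a_i ⊗ b_i ⊗ c_i`. -/
def tens {r : ℕ} (a : Fin r → Fin m1 → ℂ) (b : Fin r → Fin m2 → ℂ) (c : Fin r → Fin m3 → ℂ) :
    Var m1 m2 m3 → ℂ := fun p => ∑ i, a i p.1 * b i p.2.1 * c i p.2.2

/-- The polynomial `f` vanishes on all tensors of rank at most `r`, i.e. on the `r`-th secant variety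
of the Segre variety. -/
def Vanish (r : ℕ) (f : MvPolynomial (Var m1 m2 m3) ℂ) : Prop :=
  ∀ (a : Fin r → Fin m1 → ℂ) (b : Fin r → Fin m2 → ℂ) (c : Fin r → Fin m3 → ℂ),
    MvPolynomial.eval (tens a b c) f = 0

/-- The space of functions on sequences of index triples. -/
abbrev FS (d m1 m2 m3 : ℕ) : Type := EuclideanSpace ℂ (Fin d → Var m1 m2 m3)

/-- The homogeneous polynomial `∑_s P(s) ∏_t x_{s t}`. -/
noncomputable def Phi {d : ℕ} (P : FS d m1 m2 m3) : MvPolynomial (Var m1 m2 m3) ℂ :=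
  ∑ s : Fin d → Var m1 m2 m3, MvPolynomial.C (P s) * monS s

end poly

end SecLow
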