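import Pool.Agent.Lib.MP_d70044_ag.L.Polar

/-! # Orthogonality to the polynomials -/

namespace SecLow

open Equiv Finset MvPolynomial

section poly
variable {m1 m2 m3 : ℕ}

theorem inner_symP {d : ℕ} (R h : FS d m1 m2 m3) (hR : SymF R) :
    (inner ℂ R (symP h) : ℂ) = inner ℂ R h := by
  classical
  have hf : ((d.factorial : ℕ) : ℂ) ≠ 0 := by exact_mod_cast Nat.factorial_ne_zero d
  rw [PiLp.inner_apply, PiLp.inner_apply]
  simp only [RCLike.inner_apply, symP_apply]
  have e1 : ∀ g : Perm (Fin d), ∑ s : Fin d → Var m1 m2 m3,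
      h (fun t => s (g t)) * (starRingEnd ℂ) (R s) = ∑ s, h s * (starRingEnd ℂ) (R s) := by
    intro g
    rw [← Equiv.sum_comp (posE g) (fun s => h s * (starRingEnd ℂ) (R s))]
    refine Finset.sum_congr rfl fun s _ => ?_
    show _ = h (fun t => s (g t)) * (starRingEnd ℂ) (R (fun t => s (g t)))
    rw [hR g s]
  have e2 : ∑ s : Fin d → Var m1 m2 m3, ((d.factorial : ℕ) : ℂ)⁻¹ *
      (∑ g : Perm (Fin d), h (fun t => s (g t))) * (starRingEnd ℂ) (R s) =
      ((d.factorial : ℕ) : ℂ)⁻¹ * ∑ g : Perm (Fin d), ∑ s : Fin d → Var m1 m2 m3,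
        h (fun t => s (g t)) * (starRingEnd ℂ) (R s) := by
    rw [Finset.sum_comm, Finset.mul_sum]
    refine Finset.sum_congr rfl fun s _ => ?_
    rw [mul_assoc, Finset.sum_mul]
  rw [e2, Finset.sum_congr rfl (fun g _ => e1 g), Finset.sum_const, Finset.card_univ,
    Fintype.card_perm, Fintype.card_fin, nsmul_eq_mul, ← mul_assoc, inv_mul_cancel₀ hf, one_mul]

theorem orth_minor {n : ℕ} (T : Tri n (FS (n + 1) m1 m2 m3)) (hT : IsModel T)
    (R : FS (n + 1) m1 m2 m3) (hR : SymF R)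
    (h : ∀ Q : FS (n + 1) m1 m2 m3, SymF Q →
      Phi Q ∈ Submodule.span ℂ (Set.range fun q : Fin 3 × (Fin (n + 1) → Var m1 m2 m3) =>
        minorPoly q.1 q.2) → inner ℂ R Q = 0) (X : Fin 3) : altS (T.ρ X) ∅ R = 0 := by
  classical
  refine PiLp.ext fun s => ?_
  rw [model_alt T hT]
  set k : FS (n + 1) m1 m2 m3 := ∑ σ : Perm (Fin (n + 1)), EuclideanSpace.single
    (perm3 (Function.update (fun _ => Equiv.refl _) X σ) s) (((Perm.sign σ : ℤˣ) : ℤ) : ℂ) with hk
  have hPhi : Phi k = minorPoly X s := by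
    rw [hk, ← PhiL_apply, map_sum]
    unfold minorPoly
    refine Finset.sum_congr rfl fun σ _ => ?_
    rw [PhiL_apply, Phi_single, map_intCast, zsmul_eq_mul]
  have h1 := h (symP k) (symP_symF k) (by
    rw [Phi_symP, hPhi]
    exact Submodule.subset_span ⟨(X, s), rfl⟩)
  rw [inner_symP R k hR, hk, inner_sum] at h1
  have h2 := congrArg (starRingEnd ℂ) h1
  rw [map_sum, map_zero] at h2
  rw [PiLp.zero_apply]
  refine Eq.trans (Finset.sum_congr rfl fun σ _ => ?_) h2
  rw [EuclideanSpace.inner_single_right, map_mul, Complex.conj_conj, map_intCast]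

theorem orth_hook {n : ℕ} (T : Tri n (FS (n + 1) m1 m2 m3)) (hT : IsModel T)
    (R : FS (n + 1) m1 m2 m3) (hR : SymF R)
    (h : ∀ Q : FS (n + 1) m1 m2 m3, SymF Q →
      Phi Q ∈ Submodule.span ℂ (Set.range fun q : (Fin (n + 1) → Fin 3) ×
        (Fin (n + 1) → Var m1 m2 m3) => hookPoly q.1 q.2) → inner ℂ R Q = 0)
    (χ : Fin (n + 1) → Fin 3) :
    altS (T.ρ 0) (univ.filter fun t => χ t = 0) (altS (T.ρ 1) (univ.filter fun t => χ t = 1)
      (altS (T.ρ 2) (univ.filter fun t => χ t = 2) R)) = 0 := by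
  classical
  refine PiLp.ext fun s => ?_
  rw [model_alt3 T hT]
  set k : FS (n + 1) m1 m2 m3 := ∑ σ : Fin 3 → Perm (Fin (n + 1)), EuclideanSpace.single
    (perm3 σ s) (if ∀ X t, χ t = X → σ X t = t then
      (((∏ X, ((Perm.sign (σ X) : ℤˣ) : ℤ) : ℤ) : ℂ)) else 0) with hk
  have hPhi : Phi k = hookPoly χ s := by
    rw [hk, ← PhiL_apply, map_sum]
    unfold hookPoly
    refine Finset.sum_congr rfl fun σ _ => ?_
    rw [PhiL_apply, Phi_single]
    split_ifs
    · rw [map_intCast, zsmul_eq_mul]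
    · rw [map_zero, zero_mul]
  have h1 := h (symP k) (symP_symF k) (by
    rw [Phi_symP, hPhi]
    exact Submodule.subset_span ⟨(χ, s), rfl⟩)
  rw [inner_symP R k hR, hk, inner_sum] at h1
  have h2 := congrArg (starRingEnd ℂ) h1
  rw [map_sum, map_zero] at h2
  rw [PiLp.zero_apply]
  refine Eq.trans (Finset.sum_congr rfl fun σ _ => ?_) h2
  rw [EuclideanSpace.inner_single_right, map_mul, Complex.conj_conj]
  split_ifs
  · rw [map_intCast]
  · rw [map_zero, zero_mul]

end poly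

end SecLow
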