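import Pool.Agent.Lib.MP_d70044_ag.L.PolarZero

/-! # The conditions on the symmetric function -/

namespace SecLow

open Equiv Finset MvPolynomial

/-- additive functions which vanish for equal arguments are alternating -/
theorem alt_of_add {N : ℕ} {W : Type*} [Add W] (F : (Fin N → W) → ℂ) (i j : Fin N) (hij : i ≠ j)
    (hi : ∀ B x y, F (Function.update B i (x + y)) =
      F (Function.update B i x) + F (Function.update B i y))
    (hj : ∀ B x y, F (Function.update B j (x + y)) =
      F (Function.update B j x) + F (Function.update B j y))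
    (h0 : ∀ B, B i = B j → F B = 0) (B : Fin N → W) :
    F B + F (fun t => B (swap i j t)) = 0 := by
  have h1 := h0 (Function.update (Function.update B i (B i + B j)) j (B i + B j)) (by
    rw [Function.update_self, Function.update_of_ne hij, Function.update_self])
  rw [hj, Function.update_comm hij, Function.update_comm hij, hi, hi] at h1
  have h2 := h0 (Function.update (Function.update B j (B i)) i (B i)) (by
    rw [Function.update_self, Function.update_of_ne hij.symm, Function.update_self])
  have h3 := h0 (Function.update (Function.update B j (B j)) i (B j)) (by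
    rw [Function.update_self, Function.update_of_ne hij.symm, Function.update_self])
  have e1 : Function.update (Function.update B j (B i)) i (B j) = fun t => B (swap i j t) := by
    funext t
    by_cases ht : t = i
    · subst ht; rw [Function.update_self, swap_apply_left]
    · rw [Function.update_of_ne ht]
      by_cases ht2 : t = j
      · subst ht2; rw [Function.update_self, swap_apply_right]
      · rw [Function.update_of_ne ht2, swap_apply_of_ne_of_ne ht ht2]
  have e2 : Function.update (Function.update B j (B j)) i (B i) = B := by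
    rw [Function.update_eq_self, Function.update_eq_self]
  rw [h2, h3, e1, e2] at h1
  linear_combination h1

section poly
variable {m1 m2 m3 : ℕ}

/-- the polarisation -/
noncomputable def PolG {N : ℕ} (P : FS N m1 m2 m3) (A : Fin N → Fin m1 → ℂ)
    (B : Fin N → Fin m2 → ℂ) (C : Fin N → Fin m3 → ℂ) : ℂ :=
  ∑ s : Fin N → Var m1 m2 m3, P s * ∏ t, (A t (s t).1 * B t (s t).2.1 * C t (s t).2.2)

theorem PolG_eq {N M : ℕ} (P : FS N m1 m2 m3) (a : Fin M → Fin m1 → ℂ)
    (b : Fin M → Fin m2 → ℂ) (c : Fin M → Fin m3 → ℂ) (φ : Fin N → Fin M) :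
    Pol P a b c φ = PolG P (fun t => a (φ t)) (fun t => b (φ t)) (fun t => c (φ t)) := rfl

theorem prod_split {N : ℕ} (f : Fin N → ℂ) (i : Fin N) :
    ∏ t, f t = f i * ∏ t ∈ univ.erase i, f t := (Finset.mul_prod_erase _ _ (mem_univ i)).symm

theorem prod_erase_congr {N : ℕ} (f g : Fin N → ℂ) (i : Fin N) (h : ∀ t, t ≠ i → f t = g t) :
    ∏ t ∈ univ.erase i, f t = ∏ t ∈ univ.erase i, g t :=
  Finset.prod_congr rfl fun t ht => h t (Finset.ne_of_mem_erase ht)

theorem PolG_add1 {N : ℕ} (P : FS N m1 m2 m3) (A : Fin N → Fin m1 → ℂ)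
    (B : Fin N → Fin m2 → ℂ) (C : Fin N → Fin m3 → ℂ) (i : Fin N) (x y : Fin m1 → ℂ) :
    PolG P (Function.update A i (x + y)) B C = PolG P (Function.update A i x) B C +
      PolG P (Function.update A i y) B C := by
  unfold PolG
  rw [← Finset.sum_add_distrib]
  refine Finset.sum_congr rfl fun s _ => ?_
  rw [prod_split _ i, prod_split (fun t => Function.update A i x t (s t).1 * _ * _) i,
    prod_split (fun t => Function.update A i y t (s t).1 * _ * _) i]
  rw [prod_erase_congr _ (fun t => A t (s t).1 * B t (s t).2.1 * C t (s t).2.2) i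
      (fun t ht => by rw [Function.update_of_ne ht]),
    prod_erase_congr (fun t => Function.update A i x t (s t).1 * _ * _)
      (fun t => A t (s t).1 * B t (s t).2.1 * C t (s t).2.2) i
      (fun t ht => by rw [Function.update_of_ne ht]),
    prod_erase_congr (fun t => Function.update A i y t (s t).1 * _ * _)
      (fun t => A t (s t).1 * B t (s t).2.1 * C t (s t).2.2) i
      (fun t ht => by rw [Function.update_of_ne ht])]
  simp only [Function.update_self, Pi.add_apply]
  ring

theorem PolG_add2 {N : ℕ} (P : FS N m1 m2 m3) (A : Fin N → Fin m1 → ℂ)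
    (B : Fin N → Fin m2 → ℂ) (C : Fin N → Fin m3 → ℂ) (i : Fin N) (x y : Fin m2 → ℂ) :
    PolG P A (Function.update B i (x + y)) C = PolG P A (Function.update B i x) C +
      PolG P A (Function.update B i y) C := by
  unfold PolG
  rw [← Finset.sum_add_distrib]
  refine Finset.sum_congr rfl fun s _ => ?_
  rw [prod_split _ i, prod_split (fun t => _ * Function.update B i x t (s t).2.1 * _) i,
    prod_split (fun t => _ * Function.update B i y t (s t).2.1 * _) i]
  rw [prod_erase_congr _ (fun t => A t (s t).1 * B t (s t).2.1 * C t (s t).2.2) i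
      (fun t ht => by rw [Function.update_of_ne ht]),
    prod_erase_congr (fun t => _ * Function.update B i x t (s t).2.1 * _)
      (fun t => A t (s t).1 * B t (s t).2.1 * C t (s t).2.2) i
      (fun t ht => by rw [Function.update_of_ne ht]),
    prod_erase_congr (fun t => _ * Function.update B i y t (s t).2.1 * _)
      (fun t => A t (s t).1 * B t (s t).2.1 * C t (s t).2.2) i
      (fun t ht => by rw [Function.update_of_ne ht])]
  simp only [Function.update_self, Pi.add_apply]
  ring

theorem PolG_add3 {N : ℕ} (P : FS N m1 m2 m3) (A : Fin N → Fin m1 → ℂ)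
    (B : Fin N → Fin m2 → ℂ) (C : Fin N → Fin m3 → ℂ) (i : Fin N) (x y : Fin m3 → ℂ) :
    PolG P A B (Function.update C i (x + y)) = PolG P A B (Function.update C i x) +
      PolG P A B (Function.update C i y) := by
  unfold PolG
  rw [← Finset.sum_add_distrib]
  refine Finset.sum_congr rfl fun s _ => ?_
  rw [prod_split _ i, prod_split (fun t => _ * _ * Function.update C i x t (s t).2.2) i,
    prod_split (fun t => _ * _ * Function.update C i y t (s t).2.2) i]
  rw [prod_erase_congr _ (fun t => A t (s t).1 * B t (s t).2.1 * C t (s t).2.2) i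
      (fun t ht => by rw [Function.update_of_ne ht]),
    prod_erase_congr (fun t => _ * _ * Function.update C i x t (s t).2.2)
      (fun t => A t (s t).1 * B t (s t).2.1 * C t (s t).2.2) i
      (fun t ht => by rw [Function.update_of_ne ht]),
    prod_erase_congr (fun t => _ * _ * Function.update C i y t (s t).2.2)
      (fun t => A t (s t).1 * B t (s t).2.1 * C t (s t).2.2) i
      (fun t ht => by rw [Function.update_of_ne ht])]
  simp only [Function.update_self, Pi.add_apply]
  ring

/-- the value at coordinate vectors -/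
theorem PolG_single {N : ℕ} (P : FS N m1 m2 m3) (s : Fin N → Var m1 m2 m3) :
    PolG P (fun t => Pi.single (s t).1 1) (fun t => Pi.single (s t).2.1 1)
      (fun t => Pi.single (s t).2.2 1) = P s := by
  classical
  unfold PolG
  rw [Finset.sum_eq_single s]
  · simp
  · intro s' _ hne
    obtain ⟨t, ht⟩ := Function.ne_iff.mp hne
    rw [Finset.prod_eq_zero (mem_univ t), mul_zero]
    dsimp only
    by_cases h1 : (s' t).1 = (s t).1
    · by_cases h2 : (s' t).2.1 = (s t).2.1
      · by_cases h3 : (s' t).2.2 = (s t).2.2
        · exact absurd (Prod.ext h1 (Prod.ext h2 h3)) ht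
        · rw [Pi.single_eq_of_ne h3, mul_zero]
      · rw [Pi.single_eq_of_ne h2, mul_zero, zero_mul]
    · rw [Pi.single_eq_of_ne h1, zero_mul, zero_mul]
  · intro h; exact absurd (mem_univ _) h

theorem PolG_zero {n : ℕ} (P : FS (n + 1) m1 m2 m3) (hP : SymF P) (hV : Vanish n (Phi P))
    (i j : Fin (n + 1)) (hij : i ≠ j) (A : Fin (n + 1) → Fin m1 → ℂ)
    (B : Fin (n + 1) → Fin m2 → ℂ) (C : Fin (n + 1) → Fin m3 → ℂ) (hA : A i = A j)
    (hB : B i = B j) (hC : C i = C j) : PolG P A B C = 0 := by
  classical
  set e := (finSuccAboveEquiv j).symm with he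
  have hne : ∀ t, (if t = j then i else t) ≠ j := by
    intro t
    split_ifs with h
    · exact hij
    · exact h
  set ψ : Fin (n + 1) → Fin n := fun t => e ⟨if t = j then i else t, hne t⟩ with hψ
  have h := polar_fiber P hP hV (fun k => A (e.symm k)) (fun k => B (e.symm k))
    (fun k => C (e.symm k)) ψ
  rw [PolG_eq] at h
  have key : ∀ t, ((e.symm (ψ t) : {x // x ≠ j}) : Fin (n + 1)) = if t = j then i else t := by
    intro t
    rw [hψ]
    simp only [Equiv.symm_apply_apply]
  have eA : (fun t => A (e.symm (ψ t))) = A := by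
    funext t
    rw [key]
    split_ifs with h
    · rw [h, hA]
    · rfl
  have eB : (fun t => B (e.symm (ψ t))) = B := by
    funext t
    rw [key]
    split_ifs with h
    · rw [h, hB]
    · rfl
  have eC : (fun t => C (e.symm (ψ t))) = C := by
    funext t
    rw [key]
    split_ifs with h
    · rw [h, hC]
    · rfl
  rw [eA, eB, eC] at h
  exact h

theorem PolG_eight {n : ℕ} (P : FS (n + 1) m1 m2 m3) (hP : SymF P) (hV : Vanish n (Phi P))
    (i j : Fin (n + 1)) (hij : i ≠ j) (A : Fin (n + 1) → Fin m1 → ℂ)
    (B : Fin (n + 1) → Fin m2 → ℂ) (C : Fin (n + 1) → Fin m3 → ℂ) :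
    ((PolG P A B C + PolG P (fun t => A (swap i j t)) B C) +
      (PolG P A (fun t => B (swap i j t)) C +
        PolG P (fun t => A (swap i j t)) (fun t => B (swap i j t)) C)) +
    ((PolG P A B (fun t => C (swap i j t)) +
        PolG P (fun t => A (swap i j t)) B (fun t => C (swap i j t))) +
      (PolG P A (fun t => B (swap i j t)) (fun t => C (swap i j t)) +
        PolG P (fun t => A (swap i j t)) (fun t => B (swap i j t)) (fun t => C (swap i j t))))
      = 0 := by
  have s1 : ∀ (B : Fin (n + 1) → Fin m2 → ℂ) (C : Fin (n + 1) → Fin m3 → ℂ), B i = B j →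
      C i = C j → ∀ A, PolG P A B C + PolG P (fun t => A (swap i j t)) B C = 0 := by
    intro B C hB hC A
    exact alt_of_add (fun A => PolG P A B C) i j hij (fun A x y => PolG_add1 P A B C i x y)
      (fun A x y => PolG_add1 P A B C j x y)
      (fun A hA => PolG_zero P hP hV i j hij A B C hA hB hC) A
  have s2 : ∀ (C : Fin (n + 1) → Fin m3 → ℂ), C i = C j → ∀ A B,
      (PolG P A B C + PolG P (fun t => A (swap i j t)) B C) +
      (PolG P A (fun t => B (swap i j t)) C +
        PolG P (fun t => A (swap i j t)) (fun t => B (swap i j t)) C) = 0 := by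
    intro C hC A B
    exact alt_of_add (fun B => PolG P A B C + PolG P (fun t => A (swap i j t)) B C) i j hij
      (fun B x y => by simp only [PolG_add2]; ring)
      (fun B x y => by simp only [PolG_add2]; ring)
      (fun B hB => s1 B C hB hC A) B
  exact alt_of_add (fun C => (PolG P A B C + PolG P (fun t => A (swap i j t)) B C) +
      (PolG P A (fun t => B (swap i j t)) C +
        PolG P (fun t => A (swap i j t)) (fun t => B (swap i j t)) C)) i j hij
      (fun B x y => by simp only [PolG_add3]; ring)
      (fun B x y => by simp only [PolG_add3]; ring)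
      (fun C hC => s2 C hC A B) C

theorem pol_of_vanish {n : ℕ} (T : Tri n (FS (n + 1) m1 m2 m3)) (hT : IsModel T)
    (P : FS (n + 1) m1 m2 m3) (hP : SymF P) (hV : Vanish n (Phi P)) : T.Pol P := by
  classical
  have hinv : ∀ g, T.ρ 0 g (T.ρ 1 g (T.ρ 2 g P)) = P := by
    intro g
    refine PiLp.ext fun s => ?_
    rw [hT, hT, hT]
    exact hP g s
  refine ⟨hinv, ?_⟩
  intro i j hij
  refine PiLp.ext fun s => ?_
  have h := PolG_eight P hP hV i j hij (fun t => Pi.single (s t).1 1)
    (fun t => Pi.single (s t).2.1 1) (fun t => Pi.single (s t).2.2 1)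
  set g := swap i j with hg
  -- the eight values
  have v000 := PolG_single P s
  have v100 : PolG P (fun t => Pi.single (s (g t)).1 1) (fun t => Pi.single (s t).2.1 1)
      (fun t => Pi.single (s t).2.2 1) = T.ρ 0 g P s := by
    rw [hT]; exact PolG_single P (perm3 (Function.update (fun _ => Equiv.refl _) 0 g) s)
  have v010 : PolG P (fun t => Pi.single (s t).1 1) (fun t => Pi.single (s (g t)).2.1 1)
      (fun t => Pi.single (s t).2.2 1) = T.ρ 1 g P s := by
    rw [hT]; exact PolG_single P (perm3 (Function.update (fun _ => Equiv.refl _) 1 g) s)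
  have v001 : PolG P (fun t => Pi.single (s t).1 1) (fun t => Pi.single (s t).2.1 1)
      (fun t => Pi.single (s (g t)).2.2 1) = T.ρ 2 g P s := by
    rw [hT]; exact PolG_single P (perm3 (Function.update (fun _ => Equiv.refl _) 2 g) s)
  have hgg : ∀ t, g (g t) = t := fun t => by rw [hg]; exact swap_apply_self i j t
  have v011 : PolG P (fun t => Pi.single (s t).1 1) (fun t => Pi.single (s (g t)).2.1 1)
      (fun t => Pi.single (s (g t)).2.2 1) = T.ρ 0 g P s := by
    rw [← v100]
    have e1 := PolG_single P (fun t => ((s (g t)).1, (s t).2.1, (s t).2.2))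
    have e2 := PolG_single P (fun t => ((s t).1, (s (g t)).2.1, (s (g t)).2.2))
    simp only at e1 e2
    rw [e1, e2, ← hP g]
    simp only [hgg]
  have v101 : PolG P (fun t => Pi.single (s (g t)).1 1) (fun t => Pi.single (s t).2.1 1)
      (fun t => Pi.single (s (g t)).2.2 1) = T.ρ 1 g P s := by
    rw [← v010]
    have e1 := PolG_single P (fun t => ((s t).1, (s (g t)).2.1, (s t).2.2))
    have e2 := PolG_single P (fun t => ((s (g t)).1, (s t).2.1, (s (g t)).2.2))
    simp only at e1 e2
    rw [e1, e2, ← hP g]
    simp only [hgg]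
  have v110 : PolG P (fun t => Pi.single (s (g t)).1 1) (fun t => Pi.single (s (g t)).2.1 1)
      (fun t => Pi.single (s t).2.2 1) = T.ρ 2 g P s := by
    rw [← v001]
    have e1 := PolG_single P (fun t => ((s t).1, (s t).2.1, (s (g t)).2.2))
    have e2 := PolG_single P (fun t => ((s (g t)).1, (s (g t)).2.1, (s t).2.2))
    simp only at e1 e2
    rw [e1, e2, ← hP g]
    simp only [hgg]
  have v111 : PolG P (fun t => Pi.single (s (g t)).1 1) (fun t => Pi.single (s (g t)).2.1 1)
      (fun t => Pi.single (s (g t)).2.2 1) = P s := by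
    rw [← hP g s]
    exact PolG_single P (fun t => s (g t))
  rw [v000, v100, v010, v001, v011, v101, v110, v111] at h
  rw [Fin.sum_univ_three, PiLp.add_apply, PiLp.add_apply, PiLp.neg_apply]
  linear_combination h / 2

end poly

end SecLow
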