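import Pool.Agent.Lib.MP_d70044_ag.L.PolarZero

/-! # The polynomials vanish on tensors of low rank -/

namespace SecLow

open Equiv Finset MvPolynomial

section poly
variable {m1 m2 m3 : ℕ}

/-- the summands of the value of a monomial at a tensor of low rank -/
noncomputable def Pr {N M : ℕ} (a : Fin M → Fin m1 → ℂ) (b : Fin M → Fin m2 → ℂ)
    (c : Fin M → Fin m3 → ℂ) (s : Fin N → Var m1 m2 m3) (φ : Fin N → Fin M)
    (σ : Fin 3 → Perm (Fin N)) : ℂ :=
  (∏ t, a (φ t) (s (σ 0 t)).1) * (∏ t, b (φ t) (s (σ 1 t)).2.1) * ∏ t, c (φ t) (s (σ 2 t)).2.2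

theorem eval_monS_tens {N M : ℕ} (a : Fin M → Fin m1 → ℂ) (b : Fin M → Fin m2 → ℂ)
    (c : Fin M → Fin m3 → ℂ) (s : Fin N → Var m1 m2 m3) (σ : Fin 3 → Perm (Fin N)) :
    eval (tens a b c) (monS (perm3 σ s)) = ∑ φ : Fin N → Fin M, Pr a b c s φ σ := by
  classical
  rw [eval_monS]
  unfold tens
  rw [Finset.prod_univ_sum, Fintype.piFinset_univ]
  refine Finset.sum_congr rfl fun φ _ => ?_
  unfold Pr
  rw [← Finset.prod_mul_distrib, ← Finset.prod_mul_distrib]
  rfl

theorem prod_swap {N M : ℕ} {W : Type*} (a : Fin M → W → ℂ) (φ : Fin N → Fin M) (f : Fin N → W)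
    (t t' : Fin N) (h : φ t = φ t') :
    ∏ u, a (φ u) (f (swap t t' u)) = ∏ u, a (φ u) (f u) := by
  rw [← Equiv.prod_comp (swap t t') (fun u => a (φ u) (f u))]
  refine Finset.prod_congr rfl fun u _ => ?_
  have : φ (swap t t' u) = φ u := by
    by_cases h1 : u = t
    · subst h1; rw [swap_apply_left, h]
    · by_cases h2 : u = t'
      · subst h2; rw [swap_apply_right, h]
      · rw [swap_apply_of_ne_of_ne h1 h2]
  rw [this]

theorem Pr_swap {N M : ℕ} (a : Fin M → Fin m1 → ℂ) (b : Fin M → Fin m2 → ℂ)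
    (c : Fin M → Fin m3 → ℂ) (s : Fin N → Var m1 m2 m3) (φ : Fin N → Fin M)
    (σ : Fin 3 → Perm (Fin N)) (X : Fin 3) (t t' : Fin N) (h : φ t = φ t') :
    Pr a b c s φ (Function.update σ X (σ X * swap t t')) = Pr a b c s φ σ := by
  unfold Pr
  have e0 : ∏ u, a (φ u) (s (Function.update σ X (σ X * swap t t') 0 u)).1 =
      ∏ u, a (φ u) (s (σ 0 u)).1 := by
    by_cases hX : X = 0
    · subst hX
      rw [Function.update_self]
      exact prod_swap a φ (fun u => (s (σ 0 u)).1) t t' h
    · rw [Function.update_of_ne (Ne.symm hX)]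
  have e1 : ∏ u, b (φ u) (s (Function.update σ X (σ X * swap t t') 1 u)).2.1 =
      ∏ u, b (φ u) (s (σ 1 u)).2.1 := by
    by_cases hX : X = 1
    · subst hX
      rw [Function.update_self]
      exact prod_swap b φ (fun u => (s (σ 1 u)).2.1) t t' h
    · rw [Function.update_of_ne (Ne.symm hX)]
  have e2 : ∏ u, c (φ u) (s (Function.update σ X (σ X * swap t t') 2 u)).2.2 =
      ∏ u, c (φ u) (s (σ 2 u)).2.2 := by
    by_cases hX : X = 2
    · subst hX
      rw [Function.update_self]
      exact prod_swap c φ (fun u => (s (σ 2 u)).2.2) t t' h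
    · rw [Function.update_of_ne (Ne.symm hX)]
  rw [e0, e1, e2]

theorem minorPoly_vanish {d : ℕ} (X : Fin 3) (s : Fin (d + 1) → Var m1 m2 m3) :
    Vanish d (minorPoly X s) := by
  classical
  intro a b c
  unfold minorPoly
  rw [map_sum]
  simp only [map_zsmul, eval_monS_tens, Finset.smul_sum]
  rw [Finset.sum_comm]
  refine Finset.sum_eq_zero fun φ _ => ?_
  obtain ⟨t, t', hne, h⟩ := Fintype.exists_ne_map_eq_of_card_lt φ (by simp)
  set F : Perm (Fin (d + 1)) → ℂ := fun σ => ((Perm.sign σ : ℤˣ) : ℤ) •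
    Pr a b c s φ (Function.update (fun _ => Equiv.refl (Fin (d + 1))) X σ) with hF
  have h1 : ∑ σ, F σ = ∑ σ, F (σ * swap t t') :=
    (Equiv.sum_comp (Equiv.mulRight (swap t t')) F).symm
  have h2 : ∀ σ, F (σ * swap t t') = - F σ := by
    intro σ
    simp only [hF]
    have e := Pr_swap a b c s φ (Function.update (fun _ => Equiv.refl (Fin (d + 1))) X σ) X t t' h
    rw [Function.update_self, Function.update_idem] at e
    rw [e, Perm.sign_mul, Perm.sign_swap hne]
    simp
  rw [Finset.sum_congr rfl fun σ _ => h2 σ, Finset.sum_neg_distrib] at h1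
  have h3 : (2 : ℂ) * ∑ σ, F σ = 0 := by linear_combination h1
  rcases mul_eq_zero.mp h3 with h4 | h4
  · norm_num at h4
  · exact h4

theorem hookPoly_vanish {d : ℕ} (χ : Fin (d + 1) → Fin 3) (s : Fin (d + 1) → Var m1 m2 m3) :
    Vanish d (hookPoly χ s) := by
  classical
  intro a b c
  unfold hookPoly
  rw [map_sum]
  have e0 : ∀ σ : Fin 3 → Perm (Fin (d + 1)), eval (tens a b c)
      (if ∀ X t, χ t = X → σ X t = t then
        (∏ X, ((Perm.sign (σ X) : ℤˣ) : ℤ)) • monS (perm3 σ s) else 0) =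
      ∑ φ : Fin (d + 1) → Fin d, if ∀ X t, χ t = X → σ X t = t then
        (∏ X, ((Perm.sign (σ X) : ℤˣ) : ℤ)) • Pr a b c s φ σ else 0 := by
    intro σ
    split_ifs with h
    · rw [map_zsmul, eval_monS_tens, Finset.smul_sum]
    · simp
  simp only [e0]
  rw [Finset.sum_comm]
  refine Finset.sum_eq_zero fun φ _ => ?_
  obtain ⟨t, t', hne, h⟩ := Fintype.exists_ne_map_eq_of_card_lt φ (by simp)
  obtain ⟨X, hX1, hX2⟩ : ∃ X, χ t ≠ X ∧ χ t' ≠ X := by
    have : ∀ x y : Fin 3, ∃ X, x ≠ X ∧ y ≠ X := by decide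
    exact this _ _
  set F : (Fin 3 → Perm (Fin (d + 1))) → ℂ := fun σ => if ∀ X t, χ t = X → σ X t = t then
        (∏ X, ((Perm.sign (σ X) : ℤˣ) : ℤ)) • Pr a b c s φ σ else 0 with hF
  set e : (Fin 3 → Perm (Fin (d + 1))) → (Fin 3 → Perm (Fin (d + 1))) := fun σ =>
    Function.update σ X (σ X * swap t t') with he
  have hinv : Function.Involutive e := by
    intro σ
    simp only [he]
    rw [Function.update_self, Function.update_idem, mul_assoc, swap_mul_self, mul_one,
      Function.update_eq_self]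
  have hcond : ∀ σ, (∀ X t, χ t = X → σ X t = t) → ∀ Y u, χ u = Y → e σ Y u = u := by
    intro σ hσ Y u hu
    simp only [he]
    by_cases hY : Y = X
    · subst hY
      rw [Function.update_self, Perm.mul_apply, swap_apply_of_ne_of_ne, hσ Y u hu]
      · rintro rfl; exact hX1 hu
      · rintro rfl; exact hX2 hu
    · rw [Function.update_of_ne hY]
      exact hσ Y u hu
  have h1 : ∑ σ, F σ = ∑ σ, F (e σ) := (Equiv.sum_comp (hinv.toPerm e) F).symm
  have h2 : ∀ σ, F (e σ) = - F σ := by
    intro σ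
    simp only [hF]
    by_cases hσ : ∀ X t, χ t = X → σ X t = t
    · rw [if_pos hσ, if_pos (hcond σ hσ)]
      rw [show Pr a b c s φ (e σ) = Pr a b c s φ σ from Pr_swap a b c s φ σ X t t' h]
      have hs : (∏ Y, ((Perm.sign (e σ Y) : ℤˣ) : ℤ)) = - ∏ Y, ((Perm.sign (σ Y) : ℤˣ) : ℤ) := by
        rw [← Finset.mul_prod_erase univ _ (mem_univ X),
          ← Finset.mul_prod_erase univ (fun Y => ((Perm.sign (σ Y) : ℤˣ) : ℤ)) (mem_univ X)]
        have e1 : ((Perm.sign (e σ X) : ℤˣ) : ℤ) = - ((Perm.sign (σ X) : ℤˣ) : ℤ) := by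
          simp only [he]
          rw [Function.update_self, Perm.sign_mul, Perm.sign_swap hne]
          simp
        have e2 : ∏ Y ∈ univ.erase X, ((Perm.sign (e σ Y) : ℤˣ) : ℤ) =
            ∏ Y ∈ univ.erase X, ((Perm.sign (σ Y) : ℤˣ) : ℤ) := by
          refine Finset.prod_congr rfl fun Y hY => ?_
          simp only [he]
          rw [Function.update_of_ne (Finset.ne_of_mem_erase hY)]
        rw [e1, e2]
        ring
      rw [hs, neg_smul]
    · rw [if_neg hσ, if_neg, neg_zero]
      intro h3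
      apply hσ
      have := hcond (e σ) h3
      rwa [hinv σ] at this
  rw [Finset.sum_congr rfl fun σ _ => h2 σ, Finset.sum_neg_distrib] at h1
  have h3 : (2 : ℂ) * ∑ σ, F σ = 0 := by linear_combination h1
  rcases mul_eq_zero.mp h3 with h4 | h4
  · norm_num at h4
  · exact h4

theorem minorPoly_homog {d : ℕ} (X : Fin 3) (s : Fin d → Var m1 m2 m3) :
    (minorPoly X s).IsHomogeneous d := by
  rw [← mem_homogeneousSubmodule]
  unfold minorPoly
  refine Submodule.sum_mem _ fun σ _ => ?_
  exact zsmul_mem ((mem_homogeneousSubmodule _ _).mpr (monS_homog _)) _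

theorem hookPoly_homog {d : ℕ} (χ : Fin d → Fin 3) (s : Fin d → Var m1 m2 m3) :
    (hookPoly χ s).IsHomogeneous d := by
  rw [← mem_homogeneousSubmodule]
  unfold hookPoly
  refine Submodule.sum_mem _ fun σ _ => ?_
  split_ifs
  · exact zsmul_mem ((mem_homogeneousSubmodule _ _).mpr (monS_homog _)) _
  · exact Submodule.zero_mem _

/-- the minors vanish identically if the factor has dimension `< d` -/
theorem minorPoly_zero {d k : ℕ} (hk : k < d) (X : Fin 3) (s : Fin d → Var k k k) :
    minorPoly X s = 0 := by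
  classical
  set f : Fin d → Fin k := fun t => if X = 0 then (s t).1 else if X = 1 then (s t).2.1 else
    (s t).2.2 with hf
  obtain ⟨t, t', hne, h⟩ := Fintype.exists_ne_map_eq_of_card_lt f (by simpa using hk)
  set F : Perm (Fin d) → MvPolynomial (Var k k k) ℂ := fun σ => ((Perm.sign σ : ℤˣ) : ℤ) •
    monS (perm3 (Function.update (fun _ => Equiv.refl (Fin d)) X σ) s) with hF
  have h1 : ∑ σ, F σ = ∑ σ, F (swap t t' * σ) :=
    (Equiv.sum_comp (Equiv.mulLeft (swap t t')) F).symm
  have hsw : ∀ u, f (swap t t' u) = f u := by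
    intro u
    by_cases h1 : u = t
    · subst h1; rw [swap_apply_left, h]
    · by_cases h2 : u = t'
      · subst h2; rw [swap_apply_right, h]
      · rw [swap_apply_of_ne_of_ne h1 h2]
  have h2 : ∀ σ, F (swap t t' * σ) = - F σ := by
    intro σ
    simp only [hF]
    have e : perm3 (Function.update (fun _ => Equiv.refl (Fin d)) X (swap t t' * σ)) s =
        perm3 (Function.update (fun _ => Equiv.refl (Fin d)) X σ) s := by
      funext u
      have hu := hsw (σ u)
      unfold perm3
      simp only [hf] at hu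
      fin_cases X
      · simp at hu
        simp [hu]
      · simp at hu
        simp [hu]
      · simp at hu
        simp [hu]
    rw [e, Perm.sign_mul, Perm.sign_swap hne]
    simp
  rw [Finset.sum_congr rfl fun σ _ => h2 σ, Finset.sum_neg_distrib] at h1
  have h3 : (2 : ℂ) • ∑ σ, F σ = 0 := by
    rw [two_smul]
    nth_rewrite 2 [h1]
    exact add_neg_cancel _
  rcases smul_eq_zero.mp h3 with h4 | h4
  · norm_num at h4
  · exact h4

end poly

end SecLow
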