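import Pool.Agent.Lib.MP_d70044_ag.L.Main
import Pool.Agent.Lib.MP_d70044_ag.L.Quad
import Pool.Agent.Lib.MP_d70044_ag.L.VanishPoly
import Pool.Agent.Lib.MP_d70044_ag.L.Orth

/-! # All equations of the lowest degree of the secant varieties of three factor Segre varieties -/

namespace SecLow

open Equiv Finset MvPolynomial

section poly
variable {m1 m2 m3 : ℕ}

/-- the polynomials vanishing on the tensors of rank `≤ r`, as a subspace -/
def vanSub (r m1 m2 m3 : ℕ) : Submodule ℂ (MvPolynomial (Var m1 m2 m3) ℂ) where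
  carrier := {f | Vanish r f}
  add_mem' := fun hf hg a b c => by rw [map_add, hf a b c, hg a b c, add_zero]
  zero_mem' := fun a b c => by rw [map_zero]
  smul_mem' := fun x f hf a b c => by rw [smul_eval, hf a b c, mul_zero]

theorem lowest_degree (r m1 m2 m3 : ℕ) (f : MvPolynomial (Var m1 m2 m3) ℂ)
    (hf : f.IsHomogeneous (r + 1)) :
    Vanish r f ↔ f ∈ Submodule.span ℂ
      ((Set.range fun q : Fin 3 × (Fin (r + 1) → Var m1 m2 m3) => minorPoly q.1 q.2) ∪
        Set.range fun q : (Fin (r + 1) → Fin 3) × (Fin (r + 1) → Var m1 m2 m3) =>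
          hookPoly q.1 q.2) := by
  classical
  set G : Submodule ℂ (MvPolynomial (Var m1 m2 m3) ℂ) := Submodule.span ℂ
      ((Set.range fun q : Fin 3 × (Fin (r + 1) → Var m1 m2 m3) => minorPoly q.1 q.2) ∪
        Set.range fun q : (Fin (r + 1) → Fin 3) × (Fin (r + 1) → Var m1 m2 m3) =>
          hookPoly q.1 q.2) with hG
  have hGv : G ≤ vanSub r m1 m2 m3 := by
    rw [hG, Submodule.span_le]
    rintro g (⟨q, rfl⟩ | ⟨q, rfl⟩)
    · exact minorPoly_vanish q.1 q.2
    · exact hookPoly_vanish q.1 q.2
  constructor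
  · intro hV
    obtain ⟨P, hPs, hPf⟩ := exists_Phi f hf
    -- the submodule of good symmetric functions
    set K : Submodule ℂ (FS (r + 1) m1 m2 m3) :=
      { carrier := {Q | SymF Q ∧ Phi Q ∈ G}
        add_mem' := by
          rintro Q Q' ⟨h1, h2⟩ ⟨h3, h4⟩
          refine ⟨fun g s => by
            rw [PiLp.add_apply, PiLp.add_apply, h1, h3], ?_⟩
          rw [← PhiL_apply, map_add]
          exact G.add_mem h2 h4
        zero_mem' := ⟨fun g s => rfl, by rw [← PhiL_apply, map_zero]; exact G.zero_mem⟩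
        smul_mem' := by
          rintro a Q ⟨h1, h2⟩
          refine ⟨fun g s => by rw [PiLp.smul_apply, PiLp.smul_apply, h1], ?_⟩
          rw [← PhiL_apply, map_smul]
          exact G.smul_mem _ h2 } with hK
    set Q := K.starProjection P with hQ
    set R := P - Q with hR
    have hQK : Q ∈ K := K.starProjection_apply_mem P
    have hRo : ∀ Q' : FS (r + 1) m1 m2 m3, Q' ∈ K → (inner ℂ R Q' : ℂ) = 0 := by
      intro Q' hQ'
      rw [hR, hQ, inner_sub_left, K.inner_starProjection_left_eq_right,
        K.starProjection_eq_self_iff.mpr hQ', sub_self]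
    have hRs : SymF R := fun g s => by
      rw [hR, PiLp.sub_apply, PiLp.sub_apply, hPs, hQK.1]
    have hRV : Vanish r (Phi R) := by
      have e : Phi R = f - Phi Q := by
        rw [hR, ← PhiL_apply, map_sub, PhiL_apply, PhiL_apply, hPf]
      rw [e]
      exact (vanSub r m1 m2 m3).sub_mem hV (hGv hQK.2)
    obtain ⟨T, hT⟩ := exists_model r m1 m2 m3
    have hPol := pol_of_vanish T hT R hRs hRV
    have h1 := orth_minor T hT R hRs (fun Q' hs hQ' => hRo Q' ⟨hs, by
      rw [hG]
      exact Submodule.span_mono (Set.subset_union_left) hQ'⟩)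
    have h2 := orth_hook T hT R hRs (fun Q' hs hQ' => hRo Q' ⟨hs, by
      rw [hG]
      exact Submodule.span_mono (Set.subset_union_right) hQ'⟩)
    have hR0 := main_abs T R hPol h1 h2
    have hPQ : P = Q := sub_eq_zero.mp hR0
    rw [← hPf, hPQ]
    exact hQK.2
  · intro h
    exact hGv h

/-- the case of the problem: `Sec_k (P^{k-1} × P^{k-1} × P^{k-1})` -/
theorem lowest_degree_cube (k : ℕ) (f : MvPolynomial (Var k k k) ℂ)
    (hf : f.IsHomogeneous (k + 1)) :
    Vanish k f ↔ f ∈ Submodule.span ℂ
      (Set.range fun q : (Fin (k + 1) → Fin 3) × (Fin (k + 1) → Var k k k) =>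
        hookPoly q.1 q.2) := by
  rw [lowest_degree k k k k f hf]
  constructor
  · intro h
    refine (Submodule.span_le.mpr ?_) h
    rintro g (⟨q, rfl⟩ | ⟨q, rfl⟩)
    · rw [SetLike.mem_coe]
      show minorPoly q.1 q.2 ∈ _
      rw [minorPoly_zero (Nat.lt_succ_self k)]
      exact Submodule.zero_mem _
    · exact Submodule.subset_span ⟨q, rfl⟩
  · intro h
    exact Submodule.span_mono Set.subset_union_right h

end poly

end SecLow
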