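import Pool.Agent.Lib.MP_d70044_ag.L.Main2
import Pool.Agent.Lib.MP_d70044_ag.L.Final

/-! # The equations of the lowest degree, sorted colourings -/

namespace SecLow

open Equiv Finset MvPolynomial

section poly
variable {m1 m2 m3 : ℕ}

theorem orth_hook2 {n : ℕ} (T : Tri n (FS (n + 1) m1 m2 m3)) (hT : IsModel T)
    (R : FS (n + 1) m1 m2 m3) (hR : SymF R) (χ : Fin (n + 1) → Fin 3)
    (h : ∀ Q : FS (n + 1) m1 m2 m3, SymF Q → ∀ s, Phi Q = hookPoly χ s → inner ℂ R Q = 0) :
    altS (T.ρ 0) (univ.filter fun t => χ t = 0) (altS (T.ρ 1) (univ.filter fun t => χ t = 1)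
      (altS (T.ρ 2) (univ.filter fun t => χ t = 2) R)) = 0 := by
  classical
  refine PiLp.ext fun s => ?_
  rw [model_alt3 T hT]
  set k : FS (n + 1) m1 m2 m3 := ∑ σ : Fin 3 → Perm (Fin (n + 1)), EuclideanSpace.single
    (perm3 σ s) (if ∀ X t, χ t = X → σ X t = t then
      (((∏ X, ((Perm.sign (σ X) : ℤˣ) : ℤ) : ℤ) : ℂ)) else 0) with hk
  have hPhi : Phi k = hookPoly χ s := by
    rw [hk, ← PhiL_apply, map_sum]
    unfold hookPoly
    refine Finset.sum_congr rfl fun σ _ => ?_
    rw [PhiL_apply, Phi_single]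
    split_ifs
    · rw [map_intCast, zsmul_eq_mul]
    · rw [map_zero, zero_mul]
  have h1 := h (symP k) (symP_symF k) s (by rw [Phi_symP, hPhi])
  rw [inner_symP R k hR, hk, inner_sum] at h1
  have h2 := congrArg (starRingEnd ℂ) h1
  rw [map_sum, map_zero] at h2
  rw [PiLp.zero_apply]
  refine Eq.trans (Finset.sum_congr rfl fun σ _ => ?_) h2
  rw [EuclideanSpace.inner_single_right, map_mul, Complex.conj_conj]
  split_ifs
  · rw [map_intCast]
  · rw [map_zero, zero_mul]

/-- The generating polynomials: the minors of size `r + 1` of the three flattenings (they are zero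
unless the factor has dimension `> r`), and the polynomials of the sorted colourings. -/
def gens (r m1 m2 m3 : ℕ) : Set (MvPolynomial (Var m1 m2 m3) ℂ) :=
  {g | ∃ (X : Fin 3) (s : Fin (r + 1) → Var m1 m2 m3), g = minorPoly X s} ∪
    {g | ∃ (a b : ℕ) (s : Fin (r + 1) → Var m1 m2 m3), 1 ≤ a ∧ 1 ≤ b ∧ a + b < r ∧
      g = hookPoly (col a b) s}

theorem lowest_degree2 (r m1 m2 m3 : ℕ) (f : MvPolynomial (Var m1 m2 m3) ℂ)
    (hf : f.IsHomogeneous (r + 1)) :
    Vanish r f ↔ f ∈ Submodule.span ℂ (gens r m1 m2 m3) := by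
  classical
  set G : Submodule ℂ (MvPolynomial (Var m1 m2 m3) ℂ) := Submodule.span ℂ (gens r m1 m2 m3) with hG
  have hGv : G ≤ vanSub r m1 m2 m3 := by
    rw [hG, Submodule.span_le]
    rintro g (⟨X, s, rfl⟩ | ⟨a, b, s, _, _, _, rfl⟩)
    · exact minorPoly_vanish X s
    · exact hookPoly_vanish _ s
  constructor
  · intro hV
    obtain ⟨P, hPs, hPf⟩ := exists_Phi f hf
    set K : Submodule ℂ (FS (r + 1) m1 m2 m3) :=
      { carrier := {Q | SymF Q ∧ Phi Q ∈ G}
        add_mem' := by
          rintro Q Q' ⟨h1, h2⟩ ⟨h3, h4⟩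
          refine ⟨fun g s => by
            rw [PiLp.add_apply, PiLp.add_apply, h1, h3], ?_⟩
          rw [← PhiL_apply, map_add]
          exact G.add_mem h2 h4
        zero_mem' := ⟨fun g s => rfl, by rw [← PhiL_apply, map_zero]; exact G.zero_mem⟩
        smul_mem' := by
          rintro a Q ⟨h1, h2⟩
          refine ⟨fun g s => by rw [PiLp.smul_apply, PiLp.smul_apply, h1], ?_⟩
          rw [← PhiL_apply, map_smul]
          exact G.smul_mem _ h2 } with hK
    set Q := K.starProjection P with hQ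
    set R := P - Q with hR
    have hQK : Q ∈ K := K.starProjection_apply_mem P
    have hRo : ∀ Q' : FS (r + 1) m1 m2 m3, Q' ∈ K → (inner ℂ R Q' : ℂ) = 0 := by
      intro Q' hQ'
      rw [hR, hQ, inner_sub_left, K.inner_starProjection_left_eq_right,
        K.starProjection_eq_self_iff.mpr hQ', sub_self]
    have hRs : SymF R := fun g s => by
      rw [hR, PiLp.sub_apply, PiLp.sub_apply, hPs, hQK.1]
    have hRV : Vanish r (Phi R) := by
      have e : Phi R = f - Phi Q := by
        rw [hR, ← PhiL_apply, map_sub, PhiL_apply, PhiL_apply, hPf]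
      rw [e]
      exact (vanSub r m1 m2 m3).sub_mem hV (hGv hQK.2)
    obtain ⟨T, hT⟩ := exists_model r m1 m2 m3
    have hPol := pol_of_vanish T hT R hRs hRV
    have h1 := orth_minor T hT R hRs (fun Q' hs hQ' => hRo Q' ⟨hs, by
      rw [hG]
      refine Submodule.span_mono ?_ hQ'
      rintro g ⟨q, rfl⟩
      exact Or.inl ⟨q.1, q.2, rfl⟩⟩)
    have hR0 := main_abs2 T R hPol h1 (fun a b ha hb hab =>
      orth_hook2 T hT R hRs (col a b) (fun Q' hs s hQ' => hRo Q' ⟨hs, by
        rw [hG, hQ']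
        exact Submodule.subset_span (Or.inr ⟨a, b, s, ha, hb, hab, rfl⟩)⟩))
    have hPQ : P = Q := sub_eq_zero.mp hR0
    rw [← hPf, hPQ]
    exact hQK.2
  · intro h
    exact hGv h

/-- no polynomials of degree `≤ r` -/
theorem low_zero (r m1 m2 m3 d : ℕ) (hd : d ≤ r) (f : MvPolynomial (Var m1 m2 m3) ℂ)
    (hf : f.IsHomogeneous d) (hV : Vanish r f) : f = 0 := by
  classical
  obtain ⟨P, hPs, hPf⟩ := exists_Phi f hf
  have hP0 : P = 0 := by
    refine PiLp.ext fun s => ?_
    have hVP : Vanish r (Phi P) := by rw [hPf]; exact hV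
    -- extend the coordinate vectors by zero
    have h := polar_fiber P hPs hVP
      (fun k => if h : (k : ℕ) < d then Pi.single (s ⟨k, h⟩).1 1 else 0)
      (fun k => if h : (k : ℕ) < d then Pi.single (s ⟨k, h⟩).2.1 1 else 0)
      (fun k => if h : (k : ℕ) < d then Pi.single (s ⟨k, h⟩).2.2 1 else 0)
      (fun t => Fin.castLE hd t)
    rw [PolG_eq] at h
    have e1 : (fun t : Fin d => if h : ((Fin.castLE hd t : Fin r) : ℕ) < d then
        (Pi.single (s ⟨(Fin.castLE hd t : Fin r), h⟩).1 1 : Fin m1 → ℂ) else 0) =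
        fun t => Pi.single (s t).1 1 := by
      funext t
      rw [dif_pos (by simp)]
      rfl
    have e2 : (fun t : Fin d => if h : ((Fin.castLE hd t : Fin r) : ℕ) < d then
        (Pi.single (s ⟨(Fin.castLE hd t : Fin r), h⟩).2.1 1 : Fin m2 → ℂ) else 0) =
        fun t => Pi.single (s t).2.1 1 := by
      funext t
      rw [dif_pos (by simp)]
      rfl
    have e3 : (fun t : Fin d => if h : ((Fin.castLE hd t : Fin r) : ℕ) < d then
        (Pi.single (s ⟨(Fin.castLE hd t : Fin r), h⟩).2.2 1 : Fin m3 → ℂ) else 0) =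
        fun t => Pi.single (s t).2.2 1 := by
      funext t
      rw [dif_pos (by simp)]
      rfl
    rw [e1, e2, e3, PolG_single] at h
    rw [h]
    rfl
  rw [← hPf, hP0, ← PhiL_apply, map_zero]

end poly

end SecLow
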