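import Pool.Agent.Lib.MP_d70044_ag.L.Step
import Pool.Agent.Lib.MP_d70044_ag.L.Alt

/-! # The column antisymmetriser does not kill a hook vector -/

namespace SecLow

open Equiv Finset

variable {n : ℕ} {V : Type*} [NormedAddCommGroup V] [InnerProductSpace ℂ V]

/-- conjugation of antisymmetrisers -/
theorem altS_conj (ρ : Perm (Fin (n + 1)) →* (V →ₗ[ℂ] V)) (S S' : Finset (Fin (n + 1)))
    (τ : Perm (Fin (n + 1))) (h : ∀ t, t ∈ S ↔ τ t ∈ S') (v : V) :
    altS ρ S' (ρ τ v) = ρ τ (altS ρ S v) := by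
  rw [altS_apply, altS_apply, map_sum]
  refine Finset.sum_bij (fun g _ => τ⁻¹ * g * τ) ?_ ?_ ?_ ?_
  · intro g hg
    rw [mem_fixS] at hg ⊢
    intro t ht
    rw [Perm.mul_apply, Perm.mul_apply, hg _ ((h t).mp ht), Perm.inv_eq_iff_eq]
  · intro a _ b _ e
    simpa using e
  · intro g hg
    refine ⟨τ * g * τ⁻¹, ?_, by group⟩
    rw [mem_fixS] at hg ⊢
    intro t ht
    have e1 : τ (τ⁻¹ t) = t := by rw [← Perm.mul_apply, mul_inv_cancel, Perm.one_apply]
    rw [Perm.mul_apply, Perm.mul_apply, hg, e1]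
    rw [h, e1]
    exact ht
  · intro g _
    rw [map_smul, ← Module.End.mul_apply, ← Module.End.mul_apply, ← map_mul, ← map_mul]
    have e1 : τ * (τ⁻¹ * g * τ) = g * τ := by group
    have e2 : Perm.sign (τ⁻¹ * g * τ) = Perm.sign g := by
      rw [Perm.sign_mul, Perm.sign_mul, Perm.sign_inv, mul_comm (Perm.sign τ), mul_assoc,
        Int.units_mul_self, mul_one]
    rw [e1, e2]

/-- an antisymmetriser over permutations of the positions `< N` commutes with the Jucys–Murphy
element of the position `N` -/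
theorem altS_jm (ρ : Perm (Fin (n + 1)) →* (V →ₗ[ℂ] V)) (S : Finset (Fin (n + 1)))
    (N : Fin (n + 1)) (hS : ∀ t, N ≤ t → t ∈ S) (v : V) :
    jm ρ N (altS ρ S v) = altS ρ S (jm ρ N v) := by
  rw [altS_apply, altS_apply, map_sum]
  refine Finset.sum_congr rfl fun g hg => ?_
  rw [mem_fixS] at hg
  have h := rho_jm ρ g N (hg N (hS N le_rfl)) (by
    intro i hi
    by_contra hcon
    push Not at hcon
    have h1 := hg _ (hS _ hcon)
    rw [g.injective h1] at hcon
    exact absurd hi (not_lt.mpr hcon))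
  have h2 : ρ g (jm ρ N v) = jm ρ N (ρ g v) := congrArg (fun f : V →ₗ[ℂ] V => f v) h
  rw [map_smul, h2]

/-- moving a large content to the right past a decreasing sequence of contents -/
theorem move_right (ρ : Perm (Fin (n + 1)) →* (V →ₗ[ℂ] V)) (hρ : IsUni ρ)
    (c : Fin (n + 1) → ℝ) (v : V) (hv : JE ρ c v) (h0 : v ≠ 0) (P : Fin (n + 1)) (C : ℕ) :
    (P : ℕ) + C ≤ n →
    (∀ j : Fin n, (P : ℕ) < j → (j : ℕ) + 1 ≤ P + C → c j.succ = c j.castSucc - 1) →
    (∀ j : Fin (n + 1), (P : ℕ) < j → (j : ℕ) ≤ P + C → 1 < |c j - c P|) →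
    ∃ (τ : Perm (Fin (n + 1))) (v' u : V), v' ≠ 0 ∧ JE ρ (fun j => c (τ⁻¹ j)) v' ∧
      ρ τ v = v' + u ∧
      u ∈ Submodule.span ℂ {w : V | ∃ e, JE ρ e w ∧ ∀ j : Fin (n + 1), (P : ℕ) + C ≤ j →
        e j = c j} ∧
      (C = 0 → u = 0) ∧ (∀ t : Fin (n + 1), ((t : ℕ) < P ∨ (P : ℕ) + C < t) → τ t = t) ∧
      ((τ P : ℕ) = P + C) ∧
      ∀ t : Fin (n + 1), (P : ℕ) < t → (t : ℕ) ≤ P + C → ((τ t : ℕ) + 1 = t) := by
  induction C with
  | zero =>
    intro _ _ _
    refine ⟨1, v, 0, h0, by simpa using hv, by simp, Submodule.zero_mem _, fun _ => rfl,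
      fun t _ => rfl, by simp, ?_⟩
    intro t h1 h2
    omega
  | succ C ih =>
    intro hC hdec hbig
    obtain ⟨τ, v', u, hv', hJ, hτ, hu, hu0, t1, t2, t3⟩ := ih (by omega)
      (fun j h1 h2 => hdec j h1 (by omega)) (fun j h1 h2 => hbig j h1 (by omega))
    have hm : (P : ℕ) + C < n := by omega
    set m : Fin n := ⟨P + C, hm⟩ with hmdef
    have hmc : (m.castSucc : ℕ) = P + C := by simp [hmdef]
    have hms : (m.succ : ℕ) = P + C + 1 := by simp [hmdef]
    -- the contents of `v'` at `m`, `m + 1`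
    have hτm : τ⁻¹ m.castSucc = P := by
      rw [Perm.inv_eq_iff_eq]
      exact Fin.ext (by rw [hmc, t2])
    have hτs : ∀ j : Fin (n + 1), (P : ℕ) + C < j → τ⁻¹ j = j := by
      intro j hj
      rw [Perm.inv_eq_iff_eq, t1 j (Or.inr hj)]
    have hτs' := hτs m.succ (by omega)
    have hb : 1 < |(fun j => c (τ⁻¹ j)) m.succ - (fun j => c (τ⁻¹ j)) m.castSucc| := by
      simp only [hτm, hτs']
      exact hbig m.succ (by omega) (by omega)
    obtain ⟨hne, hJ'⟩ := step_big ρ hρ _ v' hJ hv' m hb
    set r : ℝ := (fun j => c (τ⁻¹ j)) m.succ - (fun j => c (τ⁻¹ j)) m.castSucc with hr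
    refine ⟨swap m.castSucc m.succ * τ, sw ρ m v' - ((1 / r : ℝ) : ℂ) • v',
      ((1 / r : ℝ) : ℂ) • v' + sw ρ m u, hne, ?_, ?_, ?_, ?_, ?_, ?_, ?_⟩
    · have e : (fun j => c ((swap m.castSucc m.succ * τ)⁻¹ j)) =
          fun j => (fun j => c (τ⁻¹ j)) (swap m.castSucc m.succ j) := by
        funext j
        rw [mul_inv_rev, swap_inv, Perm.mul_apply]
      rw [e]
      exact hJ'
    · rw [map_mul, Module.End.mul_apply, hτ, map_add, sw]
      abel
    · refine Submodule.add_mem _ (Submodule.smul_mem _ _ (Submodule.subset_span ?_)) ?_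
      · exact ⟨_, hJ, fun j hj => by rw [hτs j (by omega)]⟩
      · -- `sw` maps the old span to the new one
        by_cases hC0 : C = 0
        · rw [hu0 hC0, map_zero]; exact Submodule.zero_mem _
        have hmap : ∀ w : V, w ∈ {w : V | ∃ e, JE ρ e w ∧ ∀ j : Fin (n + 1), (P : ℕ) + C ≤ j →
            e j = c j} → sw ρ m w ∈ Submodule.span ℂ {w : V | ∃ e, JE ρ e w ∧
              ∀ j : Fin (n + 1), (P : ℕ) + (C + 1) ≤ j → e j = c j} := by
          rintro w ⟨e, he, hej⟩
          by_cases hw : w = 0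
          · rw [hw, map_zero]; exact Submodule.zero_mem _
          have h1 : e m.succ = e m.castSucc - 1 := by
            rw [hej m.succ (by omega), hej m.castSucc (by omega)]
            exact hdec m (by simp only [hmdef]; omega) (by simp only [hmdef]; omega)
          rw [step_neg_one ρ hρ e w he hw m h1]
          exact Submodule.neg_mem _ (Submodule.subset_span ⟨e, he, fun j hj => hej j (by omega)⟩)
        exact (Submodule.span_le.mpr (fun w hw => hmap w hw) :
          Submodule.span ℂ {w : V | ∃ e, JE ρ e w ∧ ∀ j : Fin (n + 1), (P : ℕ) + C ≤ j →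
            e j = c j} ≤ Submodule.comap (sw ρ m) (Submodule.span ℂ {w : V | ∃ e, JE ρ e w ∧
              ∀ j : Fin (n + 1), (P : ℕ) + (C + 1) ≤ j → e j = c j})) hu
    · intro h; omega
    · intro t ht
      rw [Perm.mul_apply, t1 t (by omega)]
      apply swap_apply_of_ne_of_ne
      · intro e; rw [e, hmc] at ht; omega
      · intro e; rw [e, hms] at ht; omega
    · rw [Perm.mul_apply, show τ P = m.castSucc from Fin.ext (by rw [hmc, t2]), swap_apply_left,
        hms]
      omega
    · intro t h1 h2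
      rw [Perm.mul_apply]
      by_cases h3 : (t : ℕ) ≤ P + C
      · have h4 := t3 t h1 h3
        rw [swap_apply_of_ne_of_ne]
        · exact h4
        · intro e; rw [e, hmc] at h4; omega
        · intro e; rw [e, hms] at h4; omega
      · rw [t1 t (by omega), show t = m.succ from Fin.ext (by omega), swap_apply_right, hmc, hms]

theorem hook_alt_aux (ρ : Perm (Fin (n + 1)) →* (V →ₗ[ℂ] V)) (hρ : IsUni ρ) (b : ℕ) :
    ∀ (a N : ℕ) (c : Fin (n + 1) → ℝ) (v : V), JE ρ c v → v ≠ 0 → a + b ≤ N → N ≤ n →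
      (∀ m : Fin (n + 1), (m : ℕ) ≤ N → c m = if (m : ℕ) ≤ a then -(m : ℝ) else
        if (m : ℕ) ≤ a + b then (m : ℝ) - a else -((m : ℝ) - b)) →
      ∀ S : Finset (Fin (n + 1)),
        (∀ t : Fin (n + 1), t ∈ S ↔ (a < (t : ℕ) ∧ (t : ℕ) ≤ a + b) ∨ N < (t : ℕ)) →
        altS ρ S v ≠ 0 := by
  classical
  induction b with
  | zero =>
    intro a N c v hv h0 _ hNn hc S hS
    have hc' : ∀ m : Fin (n + 1), (m : ℕ) ≤ N → c m = -(m : ℝ) := by
      intro m hm
      rw [hc m hm]
      split_ifs with h1 h2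
      · rfl
      · omega
      · simp
    rw [altS_of_interval ρ 0 N S (fun t => by rw [hS]; omega) v]
    · intro h
      rcases smul_eq_zero.mp h with h1 | h1
      · exact (Nat.factorial_ne_zero _) (by exact_mod_cast h1)
      · exact h0 h1
    · intro m _ hm
      apply step_neg_one ρ hρ c v hv h0 m
      rw [hc' m.succ (by simpa using hm), hc' m.castSucc (by simp; omega)]
      simp
      ring
  | succ b ih =>
    intro a N c v hv h0 hab hNn hc S hS halt
    set P : Fin (n + 1) := ⟨a + b + 1, by omega⟩ with hP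
    have hPv : (P : ℕ) = a + b + 1 := rfl
    set C : ℕ := N - (a + b + 1) with hC
    have hPC : (P : ℕ) + C = N := by omega
    have hcP : c P = (b : ℝ) + 1 := by
      rw [hc P (by omega), if_neg (by omega), if_pos (by omega), hPv]
      push_cast; ring
    have hcbig : ∀ j : Fin (n + 1), (P : ℕ) < j → (j : ℕ) ≤ N →
        c j = -((j : ℝ) - ((b : ℝ) + 1)) := by
      intro j h1 h2
      rw [hc j h2, if_neg (by omega), if_neg (by omega)]
      push_cast; ring
    obtain ⟨τ, v', u, hv', hJ, hτ, hu, hu0, t1, t2, t3⟩ := move_right ρ hρ c v hv h0 P C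
      (by omega) (by
        intro j h1 h2
        rw [hcbig j.succ (by simp; omega) (by simp; omega), hcbig j.castSucc (by simp; omega)
          (by simp; omega)]
        simp
        ring) (by
        intro j h1 h2
        rw [hcbig j h1 (by omega), hcP]
        have e : -((j : ℝ) - ((b : ℝ) + 1)) - ((b : ℝ) + 1) = -(j : ℝ) := by ring
        rw [e, abs_neg, abs_of_nonneg (by positivity)]
        have : 1 < (j : ℕ) := by omega
        exact_mod_cast this)
    set S' : Finset (Fin (n + 1)) := univ.filter fun t : Fin (n + 1) =>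
      (a < (t : ℕ) ∧ (t : ℕ) ≤ a + b) ∨ N - 1 < (t : ℕ) with hS'
    have hS'm : ∀ t : Fin (n + 1), t ∈ S' ↔ (a < (t : ℕ) ∧ (t : ℕ) ≤ a + b) ∨ N - 1 < (t : ℕ) := by
      intro t; simp [hS']
    have hy := ih a (N - 1) _ v' hJ hv' (by omega) (by omega) (by
      intro m hm
      by_cases h1 : (m : ℕ) < P
      · have e : τ⁻¹ m = m := by rw [Perm.inv_eq_iff_eq, t1 m (Or.inl h1)]
        rw [e, hc m (by omega)]
        split_ifs <;> first | rfl | (exfalso; omega)
      · have hm1 : (m : ℕ) + 1 < n + 1 := by omega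
        have e : τ⁻¹ m = ⟨m + 1, hm1⟩ := by
          rw [Perm.inv_eq_iff_eq]
          have := t3 ⟨m + 1, hm1⟩ (by simp only []; omega) (by simp only []; omega)
          exact Fin.ext (by simpa using this.symm)
        rw [e, hcbig _ (by simp only []; omega) (by simp only []; omega), if_neg (by omega),
          if_neg (by omega)]
        push_cast; ring) S' hS'm
    -- the conjugation
    have hconj := altS_conj ρ S S' τ (by
      intro t
      rw [hS, hS'm]
      rcases lt_trichotomy (t : ℕ) P with h1 | h1 | h1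
      · rw [t1 t (Or.inl h1)]; omega
      · rw [show t = P from Fin.ext h1, t2]; omega
      · by_cases h2 : (t : ℕ) ≤ P + C
        · have := t3 t h1 h2; omega
        · rw [t1 t (Or.inr (by omega))]; omega) v
    rw [halt, map_zero, hτ, map_add] at hconj
    set y := altS ρ S' v' with hydef
    apply hy
    by_cases hC0 : C = 0
    · rw [hu0 hC0, map_zero, add_zero] at hconj
      exact hconj
    set N' : Fin (n + 1) := ⟨N, by omega⟩ with hN'
    have hjy : jm ρ N' y = (c P : ℂ) • y := by
      rw [hydef, altS_jm ρ S' N' (by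
        intro t ht
        rw [hS'm]
        rw [Fin.le_def] at ht
        have : (N' : ℕ) = N := rfl
        omega) v', hJ N', map_smul]
      have : τ⁻¹ N' = P := by
        rw [Perm.inv_eq_iff_eq]
        exact Fin.ext (by rw [t2, hPC])
      simp only [this]
    have hcN : c N' = -((N : ℝ) - ((b : ℝ) + 1)) := hcbig N' (by simp only [hN']; omega) le_rfl
    have huy : inner ℂ u y = 0 := by
      refine Submodule.span_induction (p := fun w _ => inner ℂ w y = 0) ?_ ?_ ?_ ?_ hu
      · rintro w ⟨e, he, hej⟩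
        have h1 := jm_symm ρ hρ N' w y
        rw [he N', hjy, hej N' (by simp only [hN']; omega), inner_smul_left, inner_smul_right,
          Complex.conj_ofReal] at h1
        have h2 : ((c N' : ℂ) - c P) * inner ℂ w y = 0 := by linear_combination h1
        rcases mul_eq_zero.mp h2 with h3 | h3
        · exfalso
          rw [hcN, hcP] at h3
          have h4 : (N : ℂ) = 0 := by push_cast at h3; linear_combination -h3
          have h5 : N = 0 := by exact_mod_cast h4
          omega
        · exact h3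
      · exact inner_zero_left _
      · intro x z _ _ hx hz
        rw [inner_add_left, hx, hz, add_zero]
      · intro t x _ hx
        rw [inner_smul_left, hx, mul_zero]
    have hyy : inner ℂ y y = 0 := by
      have h1 : y = - altS ρ S' u := eq_neg_of_add_eq_zero_left hconj.symm.symm
      have h2 : (inner ℂ y y : ℂ) = - inner ℂ (altS ρ S' u) y := by
        nth_rewrite 1 [h1]
        rw [inner_neg_left]
      rw [h2, altS_symm ρ hρ, hydef, altS_sq, ← hydef, inner_smul_right, huy, mul_zero, neg_zero]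
    exact inner_self_eq_zero.mp hyy

/-- contents `0, -1, …, -a, 1, …, b, -(a+1), …`: antisymmetrisation over the complement of
`{a+1, …, a+b}` does not give zero -/
theorem hook_alt_ne (ρ : Perm (Fin (n + 1)) →* (V →ₗ[ℂ] V)) (hρ : IsUni ρ) [FiniteDimensional ℂ V]
    (v : V) (h0 : v ≠ 0) (a b : ℕ) (hab : a + b ≤ n)
    (hv : JE ρ (fun m : Fin (n + 1) => if (m : ℕ) ≤ a then -(m : ℝ) else
      if (m : ℕ) ≤ a + b then (m : ℝ) - a else -((m : ℝ) - b)) v)
    (S : Finset (Fin (n + 1))) (hS : ∀ t : Fin (n + 1), t ∈ S ↔ a < (t : ℕ) ∧ (t : ℕ) ≤ a + b) :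
    altS ρ S v ≠ 0 :=
  hook_alt_aux ρ hρ b a n _ v hv h0 hab le_rfl (fun _ _ => rfl) S (fun t => by
    rw [hS]; have := t.2; omega)

end SecLow
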