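import Pool.Agent.Lib.MP_d70044_ag.L.Defs

/-! # Jucys–Murphy elements: basic relations -/

namespace SecLow

open Equiv Finset

variable {n : ℕ} {V : Type*} [NormedAddCommGroup V] [InnerProductSpace ℂ V]

theorem rho_inv (ρ : Perm (Fin (n + 1)) →* (V →ₗ[ℂ] V)) (g : Perm (Fin (n + 1))) (v : V) :
    ρ g (ρ g⁻¹ v) = v := by
  rw [← Module.End.mul_apply, ← map_mul, mul_inv_cancel, map_one, Module.End.one_apply]

theorem rho_inv' (ρ : Perm (Fin (n + 1)) →* (V →ₗ[ℂ] V)) (g : Perm (Fin (n + 1))) (v : V) :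
    ρ g⁻¹ (ρ g v) = v := by
  rw [← Module.End.mul_apply, ← map_mul, inv_mul_cancel, map_one, Module.End.one_apply]

theorem uni_symm (ρ : Perm (Fin (n + 1)) →* (V →ₗ[ℂ] V)) (hρ : IsUni ρ)
    (g : Perm (Fin (n + 1))) (v w : V) : inner ℂ (ρ g v) w = inner ℂ v (ρ g⁻¹ w) := by
  rw [← hρ g v (ρ g⁻¹ w), rho_inv]

theorem rho_swap_symm (ρ : Perm (Fin (n + 1)) →* (V →ₗ[ℂ] V)) (hρ : IsUni ρ) (i j : Fin (n + 1))
    (v w : V) : inner ℂ (ρ (swap i j) v) w = inner ℂ v (ρ (swap i j) w) := by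
  rw [uni_symm ρ hρ, swap_inv]

theorem jm_symm (ρ : Perm (Fin (n + 1)) →* (V →ₗ[ℂ] V)) (hρ : IsUni ρ) (m : Fin (n + 1))
    (v w : V) : inner ℂ (jm ρ m v) w = inner ℂ v (jm ρ m w) := by
  simp only [jm, LinearMap.sum_apply, sum_inner, inner_sum]
  exact Finset.sum_congr rfl fun i _ => rho_swap_symm ρ hρ i m v w

/-- conjugation by a permutation which fixes `m` and preserves the set `i < m` -/
theorem rho_jm (ρ : Perm (Fin (n + 1)) →* (V →ₗ[ℂ] V)) (g : Perm (Fin (n + 1))) (m : Fin (n + 1))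
    (hm : g m = m) (hg : ∀ i, i < m → g i < m) : ρ g * jm ρ m = jm ρ m * ρ g := by
  classical
  simp only [jm, Finset.mul_sum, Finset.sum_mul]
  refine Finset.sum_bij (fun i _ => g i) ?_ ?_ ?_ ?_
  · intro i hi
    simp only [mem_filter, mem_univ, true_and] at hi ⊢
    exact hg i hi
  · intro i _ j _ h
    exact g.injective h
  · intro j hj
    simp only [mem_filter, mem_univ, true_and] at hj
    have himg : (univ.filter fun i => i < m).image g = univ.filter fun i => i < m := by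
      apply Finset.eq_of_subset_of_card_le
      · intro x hx
        simp only [mem_image, mem_filter, mem_univ, true_and] at hx ⊢
        obtain ⟨a, ha, rfl⟩ := hx
        exact hg a ha
      · rw [Finset.card_image_of_injective _ g.injective]
    have : j ∈ (univ.filter fun i => i < m).image g := by
      rw [himg]; simpa using hj
    simp only [mem_image, mem_filter, mem_univ, true_and] at this
    obtain ⟨a, ha, rfl⟩ := this
    exact ⟨a, by simpa using ha, rfl⟩
  · intro i _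
    rw [← map_mul, ← map_mul]
    congr 1
    have : g * swap i m = swap (g i) (g m) * g := by
      rw [Equiv.mul_swap_eq_swap_mul]
    rw [this, hm]

theorem jm_comm (ρ : Perm (Fin (n + 1)) →* (V →ₗ[ℂ] V)) (m m' : Fin (n + 1)) :
    Commute (jm ρ m) (jm ρ m') := by
  wlog h : m < m' generalizing m m'
  · rcases lt_trichotomy m m' with h1 | h1 | h1
    · exact absurd h1 h
    · rw [h1]
    · exact (this m' m h1).symm
  unfold Commute SemiconjBy
  conv_lhs => rw [jm, Finset.sum_mul]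
  conv_rhs => rw [jm, jm, ← jm, Finset.mul_sum]
  refine Finset.sum_congr rfl fun i hi => ?_
  simp only [mem_filter, mem_univ, true_and] at hi
  apply rho_jm
  · rw [swap_apply_of_ne_of_ne (by rintro rfl; exact absurd hi (not_lt.mpr h.le)) (ne_of_gt h)]
  · intro j hj
    by_cases h1 : j = i
    · subst h1; rw [swap_apply_left]; exact h
    by_cases h2 : j = m
    · subst h2; rw [swap_apply_right]; exact hi.trans h
    rw [swap_apply_of_ne_of_ne h1 h2]; exact hj

theorem sw_sq (ρ : Perm (Fin (n + 1)) →* (V →ₗ[ℂ] V)) (m : Fin n) (v : V) :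
    sw ρ m (sw ρ m v) = v := by
  rw [sw, ← Module.End.mul_apply, ← map_mul, swap_mul_self, map_one, Module.End.one_apply]

theorem sw_jm_of_ne (ρ : Perm (Fin (n + 1)) →* (V →ₗ[ℂ] V)) (m : Fin n) (j : Fin (n + 1))
    (h1 : j ≠ m.castSucc) (h2 : j ≠ m.succ) (v : V) : sw ρ m (jm ρ j v) = jm ρ j (sw ρ m v) := by
  have := rho_jm ρ (swap m.castSucc m.succ) j (swap_apply_of_ne_of_ne h1 h2) (by
    intro i hi
    have h1' : (j : ℕ) ≠ m := fun h => h1 (Fin.ext (by simpa using h))
    have h2' : (j : ℕ) ≠ m + 1 := fun h => h2 (Fin.ext (by simpa using h))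
    rw [Fin.lt_def] at hi ⊢
    by_cases e1 : i = m.castSucc
    · subst e1; rw [swap_apply_left]; simp at hi ⊢; omega
    by_cases e2 : i = m.succ
    · subst e2; rw [swap_apply_right]; simp at hi ⊢; omega
    rw [swap_apply_of_ne_of_ne e1 e2]; exact hi)
  exact congrArg (fun f : V →ₗ[ℂ] V => f v) this

theorem sw_jm_mul (ρ : Perm (Fin (n + 1)) →* (V →ₗ[ℂ] V)) (m : Fin n) :
    sw ρ m * jm ρ m.castSucc = jm ρ m.succ * sw ρ m - 1 := by
  classical
  have e1 : (univ.filter fun i : Fin (n + 1) => i < m.succ) =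
      insert m.castSucc (univ.filter fun i : Fin (n + 1) => i < m.castSucc) := by
    ext i
    simp only [mem_filter, mem_univ, true_and, mem_insert, Fin.lt_def, Fin.ext_iff, Fin.val_succ,
      Fin.val_castSucc]
    omega
  have e2 : jm ρ m.succ = sw ρ m +
      ∑ i ∈ univ.filter (fun i : Fin (n + 1) => i < m.castSucc), ρ (swap i m.succ) := by
    rw [jm, e1, Finset.sum_insert (by simp)]
    rfl
  have e3 : sw ρ m * sw ρ m = 1 := by
    ext v; rw [Module.End.mul_apply, sw_sq, Module.End.one_apply]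
  rw [e2, add_mul, e3, add_sub_cancel_left, jm, Finset.mul_sum, Finset.sum_mul]
  refine Finset.sum_congr rfl fun i hi => ?_
  simp only [mem_filter, mem_univ, true_and] at hi
  rw [sw, ← map_mul, ← map_mul]
  congr 1
  rw [Equiv.mul_swap_eq_swap_mul, swap_apply_left, swap_apply_of_ne_of_ne (ne_of_lt hi)]
  exact ne_of_lt (hi.trans (Fin.castSucc_lt_succ))

/-- `s J_m = J_{m+1} s - 1` -/
theorem sw_jm (ρ : Perm (Fin (n + 1)) →* (V →ₗ[ℂ] V)) (m : Fin n) (v : V) :
    sw ρ m (jm ρ m.castSucc v) = jm ρ m.succ (sw ρ m v) - v :=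
  congrArg (fun f : V →ₗ[ℂ] V => f v) (sw_jm_mul ρ m)

/-- `s J_{m+1} = J_m s + 1` -/
theorem sw_jm' (ρ : Perm (Fin (n + 1)) →* (V →ₗ[ℂ] V)) (m : Fin n) (v : V) :
    sw ρ m (jm ρ m.succ v) = jm ρ m.castSucc (sw ρ m v) + v := by
  have h := sw_jm ρ m (sw ρ m v)
  rw [sw_sq] at h
  have h2 : jm ρ m.succ v = sw ρ m (jm ρ m.castSucc (sw ρ m v)) + sw ρ m v := by
    rw [h]; abel
  rw [h2, map_add, sw_sq, sw_sq]

/-- braid relation -/
theorem sw_braid (ρ : Perm (Fin (n + 1)) →* (V →ₗ[ℂ] V)) (m m' : Fin n) (h : (m' : ℕ) = m + 1)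
    (v : V) : sw ρ m (sw ρ m' (sw ρ m v)) = sw ρ m' (sw ρ m (sw ρ m' v)) := by
  simp only [sw, ← Module.End.mul_apply, ← map_mul]
  have hc : m'.castSucc = m.succ := Fin.ext (by simp [h])
  rw [hc]
  set a := m.castSucc
  set b := m.succ
  set c := m'.succ
  have hab : a ≠ b := by simp [a, b, Fin.ext_iff]
  have hac : a ≠ c := by simp [a, c, Fin.ext_iff, h]; omega
  have hbc : b ≠ c := by simp [b, c, Fin.ext_iff, h]
  have e1 : swap a b * (swap b c * swap a b) = swap a c := by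
    rw [← mul_assoc, Equiv.mul_swap_eq_swap_mul (swap a b) b c, swap_apply_right,
      swap_apply_of_ne_of_ne hac.symm hbc.symm, mul_assoc, swap_mul_self, mul_one]
  have e2 : swap b c * (swap a b * swap b c) = swap a c := by
    rw [← mul_assoc, Equiv.mul_swap_eq_swap_mul (swap b c) a b, swap_apply_left,
      swap_apply_of_ne_of_ne hab hac, mul_assoc, swap_mul_self, mul_one]
  rw [e1, e2]

end SecLow
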