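import Pool.Agent.Lib.MP_d70044_ag.L.Jm

/-! # Joint decomposition -/

namespace SecLow

open Equiv Finset

variable {n : ℕ} {V : Type*} [NormedAddCommGroup V] [InnerProductSpace ℂ V]

theorem jm_comm_of_ne (T : Tri n V) (X Y : Fin 3) (h : X ≠ Y) (m m' : Fin (n + 1)) :
    Commute (jm (T.ρ X) m) (jm (T.ρ Y) m') := by
  unfold jm
  exact Commute.sum_left _ _ _ fun i _ => Commute.sum_right _ _ _ fun j _ => T.comm X Y h _ _

theorem Tri.JE3.add {T : Tri n V} {c : Fin 3 → Fin (n + 1) → ℝ} {u v : V} (hu : T.JE3 c u)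
    (hv : T.JE3 c v) : T.JE3 c (u + v) := fun X m => by
  rw [map_add, hu X m, hv X m, smul_add]

theorem Tri.JE3.smul {T : Tri n V} {c : Fin 3 → Fin (n + 1) → ℝ} {u : V} (hu : T.JE3 c u)
    (a : ℂ) : T.JE3 c (a • u) := fun X m => by
  rw [map_smul, hu X m, smul_comm]

theorem Tri.JE3.zero {T : Tri n V} {c : Fin 3 → Fin (n + 1) → ℝ} : T.JE3 c 0 := fun X m => by
  rw [map_zero, smul_zero]

/-- every vector is a finite sum of joint eigenvectors with pairwise different contents -/
theorem exists_decomp [FiniteDimensional ℂ V] (T : Tri n V) (u : V) :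
    ∃ (s : Finset (Fin 3 → Fin (n + 1) → ℝ)) (f : (Fin 3 → Fin (n + 1) → ℝ) → V),
      (∀ c ∈ s, T.JE3 c (f c)) ∧ u = ∑ c ∈ s, f c := by
  classical
  set A : Fin 3 × Fin (n + 1) → V →ₗ[ℂ] V := fun i => jm (T.ρ i.1) i.2 with hA
  have hsym : ∀ i, (A i).IsSymmetric := fun i v w => jm_symm (T.ρ i.1) (T.uni i.1) i.2 v w
  have hcomm : Pairwise (Function.onFun Commute A) := by
    intro i j _
    show Commute (A i) (A j)
    by_cases h : i.1 = j.1
    · simp only [hA]
      rw [h]
      exact jm_comm _ _ _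
    · exact jm_comm_of_ne T _ _ h _ _
  have htop := LinearMap.IsSymmetric.iSup_iInf_eq_top_of_commute hsym hcomm
  have hu : u ∈ ⨆ χ : Fin 3 × Fin (n + 1) → ℂ, ⨅ i, Module.End.eigenspace (A i) (χ i) := by
    rw [htop]; exact Submodule.mem_top
  have key : ∃ f : (Fin 3 → Fin (n + 1) → ℝ) →₀ V, (∀ c, T.JE3 c (f c)) ∧
      u = f.sum fun _ x => x := by
    refine Submodule.iSup_induction _ (motive := fun u => ∃ f : (Fin 3 → Fin (n + 1) → ℝ) →₀ V,
      (∀ c, T.JE3 c (f c)) ∧ u = f.sum fun _ x => x) hu ?_ ?_ ?_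
    · intro χ x hx
      by_cases hx0 : x = 0
      · exact ⟨0, fun c => Tri.JE3.zero, by simp [hx0]⟩
      rw [Submodule.mem_iInf] at hx
      have hre : ∀ i, χ i = ((χ i).re : ℂ) := by
        intro i
        have hev : Module.End.HasEigenvalue (A i) (χ i) :=
          Module.End.hasEigenvalue_of_hasEigenvector ⟨hx i, hx0⟩
        have h1 := (hsym i).conj_eigenvalue_eq_self hev
        exact (Complex.conj_eq_iff_re.mp h1).symm
      refine ⟨Finsupp.single (fun X m => (χ (X, m)).re) x, ?_, by simp⟩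
      intro c
      by_cases hc : c = fun X m => (χ (X, m)).re
      · rw [hc, Finsupp.single_eq_same]
        intro X m
        have h1 := hx (X, m)
        rw [Module.End.mem_eigenspace_iff] at h1
        rw [← hre]
        exact h1
      · rw [Finsupp.single_eq_of_ne (by simpa using hc)]
        exact Tri.JE3.zero
    · exact ⟨0, fun c => Tri.JE3.zero, by simp⟩
    · rintro x y ⟨f, hf, rfl⟩ ⟨g, hg, rfl⟩
      refine ⟨f + g, fun c => (hf c).add (hg c), ?_⟩
      rw [Finsupp.sum_add_index' (fun _ => rfl) (fun _ _ _ => rfl)]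
  obtain ⟨f, hf, hsum⟩ := key
  exact ⟨f.support, f, fun c _ => hf c, hsum⟩

theorem inner_eq_zero_of_JE (ρ : Perm (Fin (n + 1)) →* (V →ₗ[ℂ] V)) (hρ : IsUni ρ)
    (c c' : Fin (n + 1) → ℝ) (h : c ≠ c') (u v : V) (hu : JE ρ c u) (hv : JE ρ c' v) :
    inner ℂ u v = 0 := by
  obtain ⟨m, hm⟩ := Function.ne_iff.mp h
  have h1 := jm_symm ρ hρ m u v
  rw [hu m, hv m, inner_smul_left, inner_smul_right, Complex.conj_ofReal] at h1
  have h2 : ((c m : ℂ) - c' m) * inner ℂ u v = 0 := by linear_combination h1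
  rcases mul_eq_zero.mp h2 with h3 | h3
  · exact absurd (by exact_mod_cast sub_eq_zero.mp h3) hm
  · exact h3

/-- the component of `P` of type `c` -/
theorem exists_proj [FiniteDimensional ℂ V] (T : Tri n V) (P : V)
    (c : Fin 3 → Fin (n + 1) → ℝ) :
    ∃ y : V, T.JE3 c y ∧ ∀ u, T.JE3 c u → inner ℂ P u = inner ℂ y u := by
  set K : Submodule ℂ V :=
    { carrier := {u | T.JE3 c u}
      add_mem' := fun ha hb => ha.add hb
      zero_mem' := Tri.JE3.zero
      smul_mem' := fun a _ hx => hx.smul a } with hK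
  refine ⟨K.starProjection P, ?_, fun u hu => ?_⟩
  · exact K.starProjection_apply_mem P
  · rw [K.inner_starProjection_left_eq_right, K.starProjection_eq_self_iff.mpr hu]

end SecLow
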