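import Pool.Agent.Lib.MP_d70044_ag.L.SortWord
import Pool.Agent.Lib.MP_d70044_ag.L.HookAlt

/-! # The abstract theorem -/

namespace SecLow

open Equiv Finset

section words
variable {n : ℕ}

theorem wcont_dec (w : Fin (n + 1) → Fin 3) (X : Fin 3) (m : Fin n) (h1 : w m.castSucc ≠ X)
    (h2 : w m.succ ≠ X) : (wcont w X m.succ : ℝ) = (wcont w X m.castSucc : ℝ) - 1 := by
  unfold wcont
  rw [if_neg h1, if_neg h2, cnt_succ, if_neg h2]
  simp only [Fin.val_castSucc, Fin.val_succ]
  push_cast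
  ring

theorem exists_ab (w : Fin (n + 1) → Fin 3) (hw : Monotone w) (hw0 : w 0 = 0) :
    ∃ a b : ℕ, a + b ≤ n ∧ (∀ t : Fin (n + 1), w t = 0 ↔ (t : ℕ) ≤ a) ∧
      ∀ t : Fin (n + 1), w t = 2 ↔ a + b < (t : ℕ) := by
  classical
  have hne0 : (univ.filter fun t : Fin (n + 1) => w t = 0).Nonempty := ⟨0, by simpa using hw0⟩
  have hne1 : (univ.filter fun t : Fin (n + 1) => w t ≤ 1).Nonempty := ⟨0, by simp [hw0]⟩
  obtain ⟨A, hA1, hA2⟩ : ∃ A : Fin (n + 1), w A = 0 ∧ ∀ t, w t = 0 → t ≤ A :=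
    ⟨(univ.filter fun t : Fin (n + 1) => w t = 0).max' hne0,
      by simpa using Finset.max'_mem _ hne0, fun t ht => Finset.le_max' _ t (by simpa using ht)⟩
  obtain ⟨B, hB1, hB2⟩ : ∃ B : Fin (n + 1), w B ≤ 1 ∧ ∀ t, w t ≤ 1 → t ≤ B :=
    ⟨(univ.filter fun t : Fin (n + 1) => w t ≤ 1).max' hne1,
      by simpa using Finset.max'_mem _ hne1, fun t ht => Finset.le_max' _ t (by simpa using ht)⟩
  have hAB : A ≤ B := hB2 A (by rw [hA1]; decide)
  have e0 : ∀ t : Fin (n + 1), w t = 0 ↔ (t : ℕ) ≤ A := by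
    intro t
    constructor
    · intro h; exact hA2 t h
    · intro h
      have := hw (Fin.le_def.mpr h)
      rw [hA1] at this
      exact le_antisymm this (Fin.zero_le _)
  have e1 : ∀ t : Fin (n + 1), w t ≤ 1 ↔ (t : ℕ) ≤ B := by
    intro t
    constructor
    · intro h; exact hB2 t h
    · intro h
      exact (hw (Fin.le_def.mpr h)).trans hB1
  refine ⟨A, B - A, ?_, e0, ?_⟩
  · rw [Fin.le_def] at hAB
    have := B.2
    omega
  · intro t
    rw [Fin.le_def] at hAB
    have h2 : (w t = 2) ↔ ¬ w t ≤ 1 := by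
      generalize w t = x
      revert x; decide
    rw [h2, e1]
    omega

theorem cnt_one (w : Fin (n + 1) → Fin 3) (a b : ℕ)
    (h0 : ∀ t : Fin (n + 1), w t = 0 ↔ (t : ℕ) ≤ a)
    (h2 : ∀ t : Fin (n + 1), w t = 2 ↔ a + b < (t : ℕ)) (m : Fin (n + 1)) :
    cnt w 1 m = if (m : ℕ) ≤ a then 0 else if (m : ℕ) ≤ a + b then ((m : ℕ) : ℤ) - a else b := by
  have h1 : ∀ t : Fin (n + 1), w t = 1 ↔ a < (t : ℕ) ∧ (t : ℕ) ≤ a + b := by
    intro t
    have e : w t = 1 ↔ ¬ w t = 0 ∧ ¬ w t = 2 := by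
      generalize w t = x
      revert x; decide
    rw [e, h0, h2]
    omega
  induction m using Fin.induction with
  | zero => rw [cnt_zero, if_pos (by simp)]
  | succ m ih =>
    rw [cnt_succ, ih]
    have e := h1 m.succ
    rw [Fin.val_succ] at e
    simp only [Fin.val_castSucc, Fin.val_succ]
    by_cases h : w m.succ = 1
    · rw [if_pos h]
      have := e.mp h
      split_ifs <;> push_cast <;> omega
    · rw [if_neg h]
      have : ¬ (a < (m : ℕ) + 1 ∧ (m : ℕ) + 1 ≤ a + b) := fun h' => h (e.mpr h')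
      split_ifs <;> push_cast <;> omega

end words

section tri
variable {n : ℕ} {V : Type*} [NormedAddCommGroup V] [InnerProductSpace ℂ V]

theorem altS_comm_rho (T : Tri n V) {X Y : Fin 3} (h : X ≠ Y) (S : Finset (Fin (n + 1)))
    (g : Perm (Fin (n + 1))) (v : V) : altS (T.ρ X) S (T.ρ Y g v) = T.ρ Y g (altS (T.ρ X) S v) := by
  rw [altS_apply, altS_apply, map_sum]
  exact Finset.sum_congr rfl fun k _ => by rw [map_smul, T.comm_apply h]

theorem altS_comm (T : Tri n V) {X Y : Fin 3} (h : X ≠ Y) (S S' : Finset (Fin (n + 1))) (v : V) :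
    altS (T.ρ X) S (altS (T.ρ Y) S' v) = altS (T.ρ Y) S' (altS (T.ρ X) S v) := by
  rw [altS_apply (T.ρ Y), altS_apply (T.ρ Y), map_sum]
  exact Finset.sum_congr rfl fun k _ => by rw [map_smul, altS_comm_rho T h]

theorem jm_altS (T : Tri n V) {X Y : Fin 3} (h : X ≠ Y) (S : Finset (Fin (n + 1)))
    (m : Fin (n + 1)) (v : V) :
    jm (T.ρ X) m (altS (T.ρ Y) S v) = altS (T.ρ Y) S (jm (T.ρ X) m v) := by
  rw [altS_apply, altS_apply, map_sum]
  exact Finset.sum_congr rfl fun k _ => by rw [map_smul, T.jm_rho h]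

theorem main_abs [FiniteDimensional ℂ V] (T : Tri n V) (P : V) (hP : T.Pol P)
    (hX : ∀ X, altS (T.ρ X) ∅ P = 0)
    (hχ : ∀ χ : Fin (n + 1) → Fin 3, altS (T.ρ 0) (univ.filter fun t => χ t = 0)
      (altS (T.ρ 1) (univ.filter fun t => χ t = 1)
        (altS (T.ρ 2) (univ.filter fun t => χ t = 2) P)) = 0) : P = 0 := by
  classical
  by_contra hP0
  obtain ⟨w, y, hmono, hw0, hy0, hyJ, hyP⟩ := sorted_word T P hP hX hP0
  obtain ⟨a, b, hab, e0, e2⟩ := exists_ab w hmono hw0
  have e1 : ∀ t : Fin (n + 1), w t = 1 ↔ a < (t : ℕ) ∧ (t : ℕ) ≤ a + b := by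
    intro t
    have e : w t = 1 ↔ ¬ w t = 0 ∧ ¬ w t = 2 := by
      generalize w t = x
      revert x; decide
    rw [e, e0, e2]
    omega
  set S0 : Finset (Fin (n + 1)) := univ.filter fun t => w t = 0 with hS0
  set S1 : Finset (Fin (n + 1)) := univ.filter fun t => w t = 1 with hS1
  set S2 : Finset (Fin (n + 1)) := univ.filter fun t => w t = 2 with hS2
  have hA0 : altS (T.ρ 0) S0 y = (((n + 1 - S0.card).factorial : ℕ) : ℂ) • y := by
    apply altS_of_interval (T.ρ 0) (a + 1) n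
    · intro t
      simp only [hS0, mem_filter, mem_univ, true_and, e0]
      have := t.2
      omega
    · intro m hm _
      apply step_neg_one (T.ρ 0) (T.uni 0) _ y (hyJ 0) hy0 m
      apply wcont_dec
      · rw [Ne, e0]; simp; omega
      · rw [Ne, e0]; simp; omega
  have hA2 : altS (T.ρ 2) S2 y = (((n + 1 - S2.card).factorial : ℕ) : ℂ) • y := by
    apply altS_of_interval (T.ρ 2) 0 (a + b)
    · intro t
      simp only [hS2, mem_filter, mem_univ, true_and, e2]
      omega
    · intro m _ hm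
      apply step_neg_one (T.ρ 2) (T.uni 2) _ y (hyJ 2) hy0 m
      apply wcont_dec
      · rw [Ne, e2]; simp; omega
      · rw [Ne, e2]; simp; omega
  -- `⟨P, altS_1 y⟩ = 0`
  set z : V := altS (T.ρ 1) S1 y with hz
  have hPz : (inner ℂ P z : ℂ) = 0 := by
    have h := congrArg (fun u => (inner ℂ u y : ℂ)) (hχ w)
    simp only [inner_zero_left] at h
    rw [altS_symm (T.ρ 0) (T.uni 0), altS_symm (T.ρ 1) (T.uni 1), altS_symm (T.ρ 2) (T.uni 2),
      hA0, map_smul, map_smul, altS_comm T (by decide : (2 : Fin 3) ≠ 1), hA2, map_smul,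
      inner_smul_right, inner_smul_right] at h
    rcases mul_eq_zero.mp h with h1 | h1
    · exact absurd (by exact_mod_cast h1) (Nat.factorial_ne_zero _)
    · rcases mul_eq_zero.mp h1 with h2 | h2
      · exact absurd (by exact_mod_cast h2) (Nat.factorial_ne_zero _)
      · exact h2
  set cw : Fin 3 → Fin (n + 1) → ℝ := fun X m => (wcont w X m : ℝ) with hcw
  have hz0 : JE (T.ρ 0) (cw 0) z := fun m => by
    rw [hz, jm_altS T (by decide), hyJ 0 m, map_smul]
  have hz2 : JE (T.ρ 2) (cw 2) z := fun m => by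
    rw [hz, jm_altS T (by decide), hyJ 2 m, map_smul]
  obtain ⟨s, f, hf, hsum⟩ := exists_decomp T z
  have horth : ∀ c ∈ s, ∀ c' ∈ s, c ≠ c' → (inner ℂ (f c) (f c') : ℂ) = 0 := by
    intro c hc c' hc' hne
    obtain ⟨X, hX⟩ := Function.ne_iff.mp hne
    exact inner_eq_zero_of_JE (T.ρ X) (T.uni X) (c X) (c' X) hX _ _ (hf c hc X) (hf c' hc' X)
  have hzf : ∀ c ∈ s, (inner ℂ z (f c) : ℂ) = inner ℂ (f c) (f c) := by
    intro c hc
    conv_lhs => rw [hsum]
    rw [sum_inner]
    exact Finset.sum_eq_single_of_mem c hc fun c' hc' hne => horth c' hc' c hc hne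
  have hyc : (inner ℂ P y : ℂ) ≠ 0 := by
    rw [hyP y hyJ]; exact inner_self_ne_zero.mpr hy0
  have hterm : ∀ c ∈ s, (inner ℂ P (f c) : ℂ) = inner ℂ y (f c) := by
    intro c hc
    by_cases hcc : c = cw
    · exact hyP _ (by have := hf c hc; rwa [hcc] at this ⊢)
    by_cases h0 : c 0 = cw 0
    · by_cases h2 : c 2 = cw 2
      · have h1 : c 1 ≠ cw 1 := by
          intro h1
          apply hcc
          funext X
          fin_cases X
          · exact h0
          · exact h1
          · exact h2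
        rw [inner_eq_zero_of_JE (T.ρ 1) (T.uni 1) (cw 1) (c 1) h1.symm y (f c) (hyJ 1)
          (hf c hc 1)]
        by_contra hcon
        apply h1
        funext m
        have a1 := sum_cont T P hP c (f c) (hf c hc) hcon m
        have a2 := sum_cont T P hP cw y hyJ hyc m
        rw [Fin.sum_univ_three] at a1 a2
        rw [h0, h2] at a1
        linarith
      · have h3 := hzf c hc
        rw [inner_eq_zero_of_JE (T.ρ 2) (T.uni 2) (cw 2) (c 2) (Ne.symm h2) z (f c) hz2
          (hf c hc 2)] at h3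
        rw [inner_self_eq_zero.mp h3.symm, inner_zero_right, inner_zero_right]
    · have h3 := hzf c hc
      rw [inner_eq_zero_of_JE (T.ρ 0) (T.uni 0) (cw 0) (c 0) (Ne.symm h0) z (f c) hz0
        (hf c hc 0)] at h3
      rw [inner_self_eq_zero.mp h3.symm, inner_zero_right, inner_zero_right]
  have hyz : (inner ℂ y z : ℂ) = 0 := by
    rw [← hPz, hsum, inner_sum, inner_sum]
    exact (Finset.sum_congr rfl hterm).symm
  have hzz : (inner ℂ z z : ℂ) = 0 := by
    have : (inner ℂ z z : ℂ) = inner ℂ y (altS (T.ρ 1) S1 z) :=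
      altS_symm (T.ρ 1) (T.uni 1) S1 y z
    rw [this, hz, altS_sq, inner_smul_right, ← hz, hyz, mul_zero]
  refine hook_alt_ne (T.ρ 1) (T.uni 1) y hy0 a b hab ?_ S1 (fun t => by
    simp only [hS1, mem_filter, mem_univ, true_and, e1]) (inner_self_eq_zero.mp hzz)
  have hc1 : (fun m : Fin (n + 1) => if (m : ℕ) ≤ a then -(m : ℝ) else
      if (m : ℕ) ≤ a + b then (m : ℝ) - a else -((m : ℝ) - b)) = cw 1 := by
    funext m
    simp only [hcw, wcont, cnt_one w a b e0 e2 m]
    have e := e1 m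
    by_cases h : w m = 1
    · rw [if_pos h]
      have := e.mp h
      rw [if_neg (by omega), if_pos (by omega), if_neg (by omega), if_pos (by omega)]
      push_cast; ring
    · rw [if_neg h]
      have : ¬ (a < (m : ℕ) ∧ (m : ℕ) ≤ a + b) := fun h' => h (e.mpr h')
      by_cases h1 : (m : ℕ) ≤ a
      · rw [if_pos h1, if_pos h1]; push_cast; ring
      · rw [if_neg h1, if_neg h1, if_neg (by omega), if_neg (by omega)]; push_cast; ring
  rw [hc1]
  exact hyJ 1

end tri

end SecLow
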