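import Pool.Agent.Lib.MP_d70044_ag.L.Alt

/-! # The representation on functions -/

namespace SecLow

open Equiv Finset

section poly
variable {m1 m2 m3 : ℕ}

/-- The action on the factor `X` is `(ρ_X g P)(s) = P(s with the indices of X permuted by g)`. -/
def IsModel {n : ℕ} (T : Tri n (FS (n + 1) m1 m2 m3)) : Prop :=
  ∀ (X : Fin 3) (g : Perm (Fin (n + 1))) (P : FS (n + 1) m1 m2 m3)
    (s : Fin (n + 1) → Var m1 m2 m3),
    T.ρ X g P s = P (perm3 (Function.update (fun _ => Equiv.refl _) X g) s)

/-- symmetric functions -/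
def SymF {d : ℕ} (P : FS d m1 m2 m3) : Prop := ∀ (g : Perm (Fin d)) s, P (fun t => s (g t)) = P s

theorem perm3_perm3 {D : Type*} (σ τ : Fin 3 → Perm D) (s : D → Var m1 m2 m3) :
    perm3 σ (perm3 τ s) = perm3 (fun X => τ X * σ X) s := rfl

theorem perm3_one {D : Type*} (s : D → Var m1 m2 m3) : perm3 (fun _ => 1) s = s := rfl

/-- permuting the indices of one factor, as a bijection -/
def permX {D : Type*} (X : Fin 3) (g : Perm D) : Perm (D → Var m1 m2 m3) where
  toFun := perm3 (Function.update (fun _ => Equiv.refl _) X g)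
  invFun := perm3 (Function.update (fun _ => Equiv.refl _) X g⁻¹)
  left_inv s := by
    rw [perm3_perm3]
    have e : (fun Y => (Function.update (fun _ => Equiv.refl D) X g : Fin 3 → Perm D) Y *
        (Function.update (fun _ => Equiv.refl D) X g⁻¹ : Fin 3 → Perm D) Y) = fun _ => 1 := by
      funext Y
      by_cases h : Y = X
      · subst h; simp
      · simp only [Function.update_of_ne h]; rfl
    rw [e]; rfl
  right_inv s := by
    rw [perm3_perm3]
    have e : (fun Y => (Function.update (fun _ => Equiv.refl D) X g⁻¹ : Fin 3 → Perm D) Y *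
        (Function.update (fun _ => Equiv.refl D) X g : Fin 3 → Perm D) Y) = fun _ => 1 := by
      funext Y
      by_cases h : Y = X
      · subst h; simp
      · simp only [Function.update_of_ne h]; rfl
    rw [e]; rfl

theorem permX_apply {D : Type*} (X : Fin 3) (g : Perm D) (s : D → Var m1 m2 m3) :
    permX X g s = perm3 (Function.update (fun _ => Equiv.refl _) X g) s := rfl

theorem permX_mul {D : Type*} (X : Fin 3) (g h : Perm D) (s : D → Var m1 m2 m3) :
    permX X (g * h) s = permX X h (permX X g s) := by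
  rw [permX_apply, permX_apply, permX_apply, perm3_perm3]
  congr 1
  funext Y
  by_cases hY : Y = X
  · subst hY; simp
  · simp only [Function.update_of_ne hY]; rfl

theorem permX_comm {D : Type*} (X Y : Fin 3) (h : X ≠ Y) (g k : Perm D)
    (s : D → Var m1 m2 m3) : permX X g (permX Y k s) = permX Y k (permX X g s) := by
  rw [permX_apply, permX_apply, permX_apply, permX_apply, perm3_perm3, perm3_perm3]
  congr 1
  funext Z
  by_cases h1 : Z = X
  · subst h1
    simp only [Function.update_self, Function.update_of_ne h]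
    rfl
  · by_cases h2 : Z = Y
    · subst h2
      simp only [Function.update_self, Function.update_of_ne h1]
      rfl
    · simp only [Function.update_of_ne h1, Function.update_of_ne h2]

/-- the operators -/
noncomputable def opX {n : ℕ} (X : Fin 3) (g : Perm (Fin (n + 1))) :
    FS (n + 1) m1 m2 m3 →ₗ[ℂ] FS (n + 1) m1 m2 m3 where
  toFun P := WithLp.toLp 2 fun s => P (permX X g s)
  map_add' P Q := by ext s; simp
  map_smul' a P := by ext s; simp

theorem opX_apply {n : ℕ} (X : Fin 3) (g : Perm (Fin (n + 1))) (P : FS (n + 1) m1 m2 m3)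
    (s : Fin (n + 1) → Var m1 m2 m3) : opX X g P s = P (permX X g s) := rfl

/-- the model -/
noncomputable def theTri (n m1 m2 m3 : ℕ) : Tri n (FS (n + 1) m1 m2 m3) where
  ρ X :=
    { toFun := fun g => opX X g
      map_one' := by
        refine LinearMap.ext fun P => PiLp.ext fun s => ?_
        have e : Function.update (fun _ => Equiv.refl (Fin (n + 1))) X 1 =
            (fun _ => 1 : Fin 3 → Perm (Fin (n + 1))) := by
          funext Y
          by_cases h : Y = X
          · subst h; simp
          · simp only [Function.update_of_ne h]; rfl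
        have e2 : permX X 1 s = s := by rw [permX_apply, e]; rfl
        rw [opX_apply, e2]
        rfl
      map_mul' := fun g h => by
        refine LinearMap.ext fun P => PiLp.ext fun s => ?_
        rw [Module.End.mul_apply, opX_apply, opX_apply, opX_apply, permX_mul] }
  uni X g P Q := by
    show inner ℂ (opX X g P) (opX X g Q) = inner ℂ P Q
    rw [PiLp.inner_apply, PiLp.inner_apply,
      ← Equiv.sum_comp (permX X g) (fun i => inner ℂ (P.ofLp i) (Q.ofLp i))]
    rfl
  comm X Y h g k := by
    show opX X g * opX Y k = opX Y k * opX X g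
    refine LinearMap.ext fun P => PiLp.ext fun s => ?_
    rw [Module.End.mul_apply, Module.End.mul_apply, opX_apply, opX_apply, opX_apply, opX_apply,
      permX_comm X Y h]

theorem exists_model (n m1 m2 m3 : ℕ) : ∃ T : Tri n (FS (n + 1) m1 m2 m3), IsModel T :=
  ⟨theTri n m1 m2 m3, fun _ _ _ _ => rfl⟩

theorem model_altS {n : ℕ} (T : Tri n (FS (n + 1) m1 m2 m3)) (hT : IsModel T) (X : Fin 3)
    (S : Finset (Fin (n + 1))) (R : FS (n + 1) m1 m2 m3) (s : Fin (n + 1) → Var m1 m2 m3) :
    altS (T.ρ X) S R s = ∑ σ : Perm (Fin (n + 1)), if ∀ t ∈ S, σ t = t then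
      (((Perm.sign σ : ℤˣ) : ℤ) : ℂ) * R (permX X σ s) else 0 := by
  rw [← Finset.sum_filter, altS_apply]
  rw [WithLp.ofLp_sum, Finset.sum_apply]
  refine Finset.sum_congr rfl fun g _ => ?_
  rw [PiLp.smul_apply, hT, smul_eq_mul]
  rfl

/-- the antisymmetrisers in the model -/
theorem model_alt {n : ℕ} (T : Tri n (FS (n + 1) m1 m2 m3)) (hT : IsModel T) (X : Fin 3)
    (R : FS (n + 1) m1 m2 m3) (s : Fin (n + 1) → Var m1 m2 m3) :
    altS (T.ρ X) ∅ R s = ∑ σ : Perm (Fin (n + 1)), (((Perm.sign σ : ℤˣ) : ℤ) : ℂ) *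
      R (perm3 (Function.update (fun _ => Equiv.refl _) X σ) s) := by
  rw [model_altS T hT]
  refine Finset.sum_congr rfl fun g _ => ?_
  rw [if_pos (by simp)]
  rfl

/-- functions on three elements -/
def fin3 (α : Type*) : (Fin 3 → α) ≃ α × α × α where
  toFun f := (f 0, f 1, f 2)
  invFun p := ![p.1, p.2.1, p.2.2]
  left_inv f := by funext i; fin_cases i <;> rfl
  right_inv p := rfl

theorem model_alt3 {n : ℕ} (T : Tri n (FS (n + 1) m1 m2 m3)) (hT : IsModel T)
    (χ : Fin (n + 1) → Fin 3) (R : FS (n + 1) m1 m2 m3) (s : Fin (n + 1) → Var m1 m2 m3) :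
    altS (T.ρ 0) (univ.filter fun t => χ t = 0) (altS (T.ρ 1) (univ.filter fun t => χ t = 1)
      (altS (T.ρ 2) (univ.filter fun t => χ t = 2) R)) s =
    ∑ σ : Fin 3 → Perm (Fin (n + 1)), if ∀ X t, χ t = X → σ X t = t then
      (((∏ X, ((Perm.sign (σ X) : ℤˣ) : ℤ) : ℤ) : ℂ)) * R (perm3 σ s) else 0 := by
  classical
  rw [model_altS T hT]
  simp only [model_altS T hT]
  rw [← Equiv.sum_comp (fin3 (Perm (Fin (n + 1)))).symm, Fintype.sum_prod_type]
  refine Finset.sum_congr rfl fun g0 _ => ?_
  rw [Fintype.sum_prod_type]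
  by_cases h0 : ∀ t ∈ univ.filter (fun t => χ t = 0), g0 t = t
  · rw [if_pos h0, Finset.mul_sum]
    refine Finset.sum_congr rfl fun g1 _ => ?_
    by_cases h1 : ∀ t ∈ univ.filter (fun t => χ t = 1), g1 t = t
    · rw [if_pos h1, Finset.mul_sum, Finset.mul_sum]
      refine Finset.sum_congr rfl fun g2 _ => ?_
      by_cases h2 : ∀ t ∈ univ.filter (fun t => χ t = 2), g2 t = t
      · rw [if_pos h2, if_pos]
        · rw [Fin.prod_univ_three]
          have e1 : permX 2 g2 (permX 1 g1 (permX 0 g0 s)) =
              perm3 ((fin3 (Perm (Fin (n + 1)))).symm (g0, g1, g2)) s := rfl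
          rw [e1]
          have e2 : (fin3 (Perm (Fin (n + 1)))).symm (g0, g1, g2) 0 = g0 := rfl
          have e3 : (fin3 (Perm (Fin (n + 1)))).symm (g0, g1, g2) 1 = g1 := rfl
          have e4 : (fin3 (Perm (Fin (n + 1)))).symm (g0, g1, g2) 2 = g2 := rfl
          rw [e2, e3, e4]
          push_cast
          ring
        · intro X t hX
          fin_cases X
          · exact h0 t (by simpa using hX)
          · exact h1 t (by simpa using hX)
          · exact h2 t (by simpa using hX)
      · rw [if_neg h2, if_neg, mul_zero, mul_zero]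
        intro h
        exact h2 fun t ht => h 2 t (by simpa using ht)
    · rw [if_neg h1, mul_zero]
      refine (Finset.sum_eq_zero fun g2 _ => ?_).symm
      rw [if_neg]
      intro h
      exact h1 fun t ht => h 1 t (by simpa using ht)
  · rw [if_neg h0]
    refine (Finset.sum_eq_zero fun g1 _ => Finset.sum_eq_zero fun g2 _ => ?_).symm
    rw [if_neg]
    intro h
    exact h0 fun t ht => h 0 t (by simpa using ht)

end poly

end SecLow
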