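import Pool.Agent.Lib.MP_d70044_ag.L.Model

/-! # Homogeneous polynomials and symmetric functions -/

namespace SecLow

open Equiv Finset MvPolynomial

section poly
variable {m1 m2 m3 : ℕ}

theorem monS_homog {d : ℕ} (s : Fin d → Var m1 m2 m3) : (monS s).IsHomogeneous d := by
  unfold monS
  have h := IsHomogeneous.prod (univ : Finset (Fin d)) (fun t => (X (s t) :
    MvPolynomial (Var m1 m2 m3) ℂ)) (fun _ => 1) (fun t _ => isHomogeneous_X ℂ (s t))
  simpa using h

theorem Phi_homog {d : ℕ} (P : FS d m1 m2 m3) : (Phi P).IsHomogeneous d := by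
  unfold Phi
  refine IsHomogeneous.sum _ _ _ fun s _ => ?_
  have h := (isHomogeneous_C (Var m1 m2 m3) (P s)).mul (monS_homog s)
  rwa [zero_add] at h

/-- `Phi` as a linear map -/
noncomputable def PhiL {d : ℕ} : FS d m1 m2 m3 →ₗ[ℂ] MvPolynomial (Var m1 m2 m3) ℂ where
  toFun P := Phi P
  map_add' P Q := by
    simp only [Phi, PiLp.add_apply, map_add, add_mul, Finset.sum_add_distrib]
  map_smul' a P := by
    simp only [Phi, PiLp.smul_apply, smul_eq_mul, map_mul, RingHom.id_apply, Finset.smul_sum,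
      smul_eq_C_mul, mul_assoc]

theorem PhiL_apply {d : ℕ} (P : FS d m1 m2 m3) : PhiL P = Phi P := rfl

theorem Phi_single {d : ℕ} (s : Fin d → Var m1 m2 m3) (a : ℂ) :
    Phi (EuclideanSpace.single s a) = C a * monS s := by
  classical
  unfold Phi
  rw [Finset.sum_eq_single s]
  · simp
  · intro s' _ hne
    simp [hne]
  · intro h; exact absurd (mem_univ _) h

theorem monS_perm {d : ℕ} (g : Perm (Fin d)) (s : Fin d → Var m1 m2 m3) :
    monS (fun t => s (g t)) = monS s := by
  unfold monS
  exact Equiv.prod_comp g fun t => X (s t)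

/-- symmetrisation -/
noncomputable def symP {d : ℕ} (h : FS d m1 m2 m3) : FS d m1 m2 m3 :=
  WithLp.toLp 2 fun s => ((d.factorial : ℕ) : ℂ)⁻¹ * ∑ g : Perm (Fin d), h (fun t => s (g t))

theorem symP_apply {d : ℕ} (h : FS d m1 m2 m3) (s : Fin d → Var m1 m2 m3) :
    symP h s = ((d.factorial : ℕ) : ℂ)⁻¹ * ∑ g : Perm (Fin d), h (fun t => s (g t)) := rfl

theorem symP_symF {d : ℕ} (h : FS d m1 m2 m3) : SymF (symP h) := by
  intro g s
  rw [symP_apply, symP_apply]
  congr 1
  exact Equiv.sum_comp (Equiv.mulLeft g) fun k => h (fun t => s (k t))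

/-- rearranging the positions, as a bijection of sequences -/
def posE {D A : Type*} (g : Perm D) : (D → A) ≃ (D → A) where
  toFun s := fun t => s (g t)
  invFun s := fun t => s (g⁻¹ t)
  left_inv s := by
    funext t
    show s (g (g⁻¹ t)) = s t
    rw [← Perm.mul_apply, mul_inv_cancel, Perm.one_apply]
  right_inv s := by
    funext t
    show s (g⁻¹ (g t)) = s t
    rw [← Perm.mul_apply, inv_mul_cancel, Perm.one_apply]

theorem Phi_symP {d : ℕ} (h : FS d m1 m2 m3) : Phi (symP h) = Phi h := by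
  classical
  have hf : ((d.factorial : ℕ) : ℂ) ≠ 0 := by exact_mod_cast Nat.factorial_ne_zero d
  have e1 : ∀ g : Perm (Fin d), ∑ s : Fin d → Var m1 m2 m3,
      C (h (fun t => s (g t))) * monS s = Phi h := by
    intro g
    unfold Phi
    rw [← Equiv.sum_comp (posE g) (fun s => C (h s) * monS s)]
    refine Finset.sum_congr rfl fun s _ => ?_
    show _ = C (h (fun t => s (g t))) * monS (fun t => s (g t))
    rw [monS_perm]
  have e2 : Phi (symP h) = C ((d.factorial : ℕ) : ℂ)⁻¹ * ∑ g : Perm (Fin d),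
      ∑ s : Fin d → Var m1 m2 m3, C (h (fun t => s (g t))) * monS s := by
    rw [Finset.sum_comm, Finset.mul_sum]
    unfold Phi
    refine Finset.sum_congr rfl fun s _ => ?_
    rw [symP_apply, map_mul, map_sum, mul_assoc, Finset.sum_mul]
  rw [e2, Finset.sum_congr rfl (fun g _ => e1 g), Finset.sum_const, Finset.card_univ,
    Fintype.card_perm, Fintype.card_fin, nsmul_eq_mul, ← mul_assoc]
  have e3 : (C ((d.factorial : ℕ) : ℂ)⁻¹ : MvPolynomial (Var m1 m2 m3) ℂ) *
      ((d.factorial : ℕ) : MvPolynomial (Var m1 m2 m3) ℂ) = 1 := by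
    rw [← map_natCast (C : ℂ →+* MvPolynomial (Var m1 m2 m3) ℂ), ← map_mul, inv_mul_cancel₀ hf,
      map_one]
  rw [e3, one_mul]

theorem exists_monS (d : ℕ) : ∀ m : Var m1 m2 m3 →₀ ℕ, m.degree = d →
    ∃ s : Fin d → Var m1 m2 m3, monS s = monomial m 1 := by
  classical
  induction d with
  | zero =>
    intro m hm
    refine ⟨Fin.elim0, ?_⟩
    rw [Finsupp.degree_eq_zero_iff] at hm
    rw [hm]
    simp [monS]
  | succ d ih =>
    intro m hm
    obtain ⟨i, hi⟩ : ∃ i, m i ≠ 0 := by
      by_contra hcon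
      push Not at hcon
      have : m = 0 := Finsupp.ext hcon
      rw [this] at hm
      simp at hm
    have hle : Finsupp.single i 1 ≤ m := by
      rw [Finsupp.single_le_iff]
      omega
    obtain ⟨m', hm'⟩ : ∃ m', m = Finsupp.single i 1 + m' := ⟨m - Finsupp.single i 1, by
      rw [add_tsub_cancel_of_le hle]⟩
    obtain ⟨s, hs⟩ := ih m' (by
      rw [hm', map_add, Finsupp.degree_single] at hm
      omega)
    refine ⟨Fin.cons i s, ?_⟩
    have : monS (Fin.cons i s : Fin (d + 1) → Var m1 m2 m3) = X i * monS s := by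
      unfold monS
      rw [Fin.prod_univ_succ]
      simp
    rw [this, hs, hm', X, monomial_mul, one_mul]

theorem exists_Phi {d : ℕ} (f : MvPolynomial (Var m1 m2 m3) ℂ) (hf : f.IsHomogeneous d) :
    ∃ P : FS d m1 m2 m3, SymF P ∧ Phi P = f := by
  classical
  have hdeg : ∀ m : {m // m ∈ f.support}, (m : Var m1 m2 m3 →₀ ℕ).degree = d := by
    intro m
    have := hf (mem_support_iff.mp m.2)
    rw [Finsupp.degree_eq_weight_one]
    exact this
  choose σ hσ using fun m : {m // m ∈ f.support} => exists_monS d m.1 (hdeg m)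
  set h : FS d m1 m2 m3 := ∑ m ∈ f.support.attach, EuclideanSpace.single (σ m) (coeff m.1 f)
    with hh
  refine ⟨symP h, symP_symF h, ?_⟩
  rw [Phi_symP, ← PhiL_apply, hh, map_sum]
  conv_rhs => rw [← support_sum_monomial_coeff f, ← Finset.sum_attach]
  refine Finset.sum_congr rfl fun m _ => ?_
  rw [PhiL_apply, Phi_single, hσ m, C_mul_monomial, mul_one]

end poly

end SecLow
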