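import Pool.Agent.Lib.MP_d70044_ag.L.Polar

/-! # The full polarisation of a polynomial vanishing on tensors of low rank -/

namespace SecLow

open Equiv Finset MvPolynomial

section poly
variable {m1 m2 m3 : ℕ}

theorem exists_perm_of_fiber {D A : Type*} [Fintype D] [DecidableEq A] (φ ψ : D → A)
    (h : ∀ i, (univ.filter fun t => φ t = i).card = (univ.filter fun t => ψ t = i).card) :
    ∃ g : Perm D, ∀ t, ψ (g t) = φ t := by
  classical
  have hcard : ∀ i, Fintype.card {t // φ t = i} = Fintype.card {t // ψ t = i} := by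
    intro i
    rw [Fintype.card_subtype, Fintype.card_subtype, h i]
  set g : Perm D := (Equiv.sigmaFiberEquiv φ).symm.trans
    ((Equiv.sigmaCongrRight fun i => Fintype.equivOfCardEq (hcard i)).trans
      (Equiv.sigmaFiberEquiv ψ)) with hg
  refine ⟨g, fun t => ?_⟩
  have : g t = ((Fintype.equivOfCardEq (hcard (φ t))) ⟨t, rfl⟩ : {s // ψ s = φ t}).1 := rfl
  rw [this]
  exact ((Fintype.equivOfCardEq (hcard (φ t))) ⟨t, rfl⟩ : {s // ψ s = φ t}).2

/-- the value of the polarisation at a sequence of rank one tensors -/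
noncomputable def Pol {N M : ℕ} (P : FS N m1 m2 m3) (a : Fin M → Fin m1 → ℂ)
    (b : Fin M → Fin m2 → ℂ) (c : Fin M → Fin m3 → ℂ) (φ : Fin N → Fin M) : ℂ :=
  ∑ s : Fin N → Var m1 m2 m3, P s * ∏ t, (a (φ t) (s t).1 * b (φ t) (s t).2.1 * c (φ t) (s t).2.2)

theorem Pol_perm {N M : ℕ} (P : FS N m1 m2 m3) (hP : SymF P) (a : Fin M → Fin m1 → ℂ)
    (b : Fin M → Fin m2 → ℂ) (c : Fin M → Fin m3 → ℂ) (φ : Fin N → Fin M) (g : Perm (Fin N)) :
    Pol P a b c (fun t => φ (g t)) = Pol P a b c φ := by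
  unfold Pol
  rw [← Equiv.sum_comp (posE g) (fun s => P s * ∏ t, (a (φ (g t)) (s t).1 *
    b (φ (g t)) (s t).2.1 * c (φ (g t)) (s t).2.2))]
  refine Finset.sum_congr rfl fun s _ => ?_
  show P (fun t => s (g t)) * _ = _
  rw [hP g s]
  congr 1
  exact Equiv.prod_comp g (fun t => a (φ t) (s t).1 * b (φ t) (s t).2.1 * c (φ t) (s t).2.2)

theorem eval_monS {d : ℕ} (x : Var m1 m2 m3 → ℂ) (s : Fin d → Var m1 m2 m3) :
    eval x (monS s) = ∏ t, x (s t) := by
  unfold monS
  rw [map_prod]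
  exact Finset.prod_congr rfl fun t _ => eval_X _

theorem eval_Phi {d : ℕ} (P : FS d m1 m2 m3) (x : Var m1 m2 m3 → ℂ) :
    eval x (Phi P) = ∑ s, P s * ∏ t, x (s t) := by
  unfold Phi
  rw [map_sum]
  refine Finset.sum_congr rfl fun s _ => ?_
  rw [map_mul, eval_C, eval_monS]

theorem polar_fiber {N M : ℕ} (P : FS N m1 m2 m3) (hP : SymF P)
    (hV : Vanish M (Phi P)) (a : Fin M → Fin m1 → ℂ)
    (b : Fin M → Fin m2 → ℂ) (c : Fin M → Fin m3 → ℂ) (ψ : Fin N → Fin M) :
    Pol P a b c ψ = 0 := by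
  classical
  set F : MvPolynomial (Fin M) ℂ := ∑ φ : Fin N → Fin M, C (Pol P a b c φ) * ∏ t, X (φ t) with hF
  have hev : ∀ y : Fin M → ℂ, eval y F = 0 := by
    intro y
    have h1 := hV (fun i j => y i * a i j) b c
    rw [eval_Phi] at h1
    rw [← h1, hF, map_sum]
    have h2 : ∀ s : Fin N → Var m1 m2 m3,
        ∏ t, tens (fun i j => y i * a i j) b c (s t) = ∑ φ : Fin N → Fin M, (∏ t, y (φ t)) *
          ∏ t, (a (φ t) (s t).1 * b (φ t) (s t).2.1 * c (φ t) (s t).2.2) := by
      intro s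
      unfold tens
      rw [Finset.prod_univ_sum, Fintype.piFinset_univ]
      refine Finset.sum_congr rfl fun φ _ => ?_
      rw [← Finset.prod_mul_distrib]
      exact Finset.prod_congr rfl fun t _ => by ring
    have h3 : ∑ s : Fin N → Var m1 m2 m3, P s * ∏ t, tens (fun i j => y i * a i j) b c (s t) =
        ∑ φ : Fin N → Fin M, ∑ s : Fin N → Var m1 m2 m3, P s * ((∏ t, y (φ t)) *
          ∏ t, (a (φ t) (s t).1 * b (φ t) (s t).2.1 * c (φ t) (s t).2.2)) := by
      rw [Finset.sum_comm]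
      refine Finset.sum_congr rfl fun s _ => ?_
      rw [h2 s, Finset.mul_sum]
    rw [h3]
    refine Finset.sum_congr rfl fun φ _ => ?_
    rw [map_mul, eval_C, map_prod, Pol, Finset.sum_mul]
    refine Finset.sum_congr rfl fun s _ => ?_
    rw [Finset.prod_congr rfl fun t _ => eval_X (f := y) (φ t)]
    ring
  have hF0 : F = 0 := by
    apply MvPolynomial.funext
    intro y
    rw [hev, map_zero]
  -- the coefficient
  have hmon : ∀ φ : Fin N → Fin M, (∏ t, X (φ t) : MvPolynomial (Fin M) ℂ) =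
      monomial (∑ t, Finsupp.single (φ t) 1) 1 := by
    intro φ
    rw [monomial_sum_one]
    rfl
  have hcoef := congrArg (coeff (∑ t, Finsupp.single (ψ t) 1)) hF0
  rw [hF, coeff_sum, coeff_zero] at hcoef
  have hterm : ∀ φ : Fin N → Fin M, coeff (∑ t, Finsupp.single (ψ t) 1)
      (C (Pol P a b c φ) * ∏ t, X (φ t)) =
      if (∑ t, Finsupp.single (φ t) 1 : Fin M →₀ ℕ) = ∑ t, Finsupp.single (ψ t) 1 then
        Pol P a b c ψ else 0 := by
    intro φ
    rw [hmon, coeff_C_mul, coeff_monomial]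
    split_ifs with h
    · obtain ⟨g, hg⟩ := exists_perm_of_fiber φ ψ (by
        intro i
        have h3 := DFunLike.congr_fun h i
        rw [Finsupp.finsetSum_apply, Finsupp.finsetSum_apply] at h3
        simp only [Finsupp.single_apply] at h3
        rw [← Finset.card_filter, ← Finset.card_filter] at h3
        exact h3)
      have : φ = fun t => ψ (g t) := by funext t; exact (hg t).symm
      rw [this, Pol_perm P hP, mul_one]
    · rw [mul_zero]
  rw [Finset.sum_congr rfl fun φ _ => hterm φ, ← Finset.sum_filter, Finset.sum_const,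
    nsmul_eq_mul] at hcoef
  rcases mul_eq_zero.mp hcoef with h | h
  · exfalso
    have h2 : (univ.filter fun φ : Fin N → Fin M => (∑ t, Finsupp.single (φ t) 1 : Fin M →₀ ℕ) =
        ∑ t, Finsupp.single (ψ t) 1).card = 0 := by exact_mod_cast h
    rw [Finset.card_eq_zero] at h2
    have h3 : ψ ∈ (univ.filter fun φ : Fin N → Fin M => (∑ t, Finsupp.single (φ t) 1 :
        Fin M →₀ ℕ) = ∑ t, Finsupp.single (ψ t) 1) := by simp
    rw [h2] at h3
    exact absurd h3 (Finset.notMem_empty _)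
  · exact h

/-- the full polarisation vanishes if two of the rank one tensors are equal -/
theorem polar_zero {d : ℕ} (P : FS (d + 2) m1 m2 m3) (hP : SymF P)
    (hV : Vanish (d + 1) (Phi P)) (a : Fin (d + 1) → Fin m1 → ℂ) (b : Fin (d + 1) → Fin m2 → ℂ)
    (c : Fin (d + 1) → Fin m3 → ℂ) :
    ∑ s : Fin (d + 2) → Var m1 m2 m3, P s * ∏ t : Fin (d + 2),
      (a ((Fin.cases 0 id : Fin (d + 2) → Fin (d + 1)) t) (s t).1 *
        b ((Fin.cases 0 id : Fin (d + 2) → Fin (d + 1)) t) (s t).2.1 *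
        c ((Fin.cases 0 id : Fin (d + 2) → Fin (d + 1)) t) (s t).2.2) = 0 := by
  have key := polar_fiber P hP hV a b c (fun t => (Fin.cases 0 id : Fin (d + 2) → Fin (d + 1)) t)
  unfold Pol at key
  exact key

end poly

end SecLow
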