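import Pool.Agent.Lib.MP_d70044_ag.L.SwapWord

/-! # A component with a sorted word -/

namespace SecLow

open Equiv Finset

variable {n : ℕ} {V : Type*} [NormedAddCommGroup V] [InnerProductSpace ℂ V]

theorem wcont_update (w : Fin (n + 1) → Fin 3) (X : Fin 3) (m : Fin (n + 1)) :
    wcont (Function.update w 0 0) X m = wcont w X m := by
  have hcnt : cnt (Function.update w 0 0) X m = cnt w X m := by
    unfold cnt
    congr 2
    ext j
    simp only [mem_filter, mem_univ, true_and]
    constructor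
    · rintro ⟨h1, h2, h3⟩
      rw [Function.update_of_ne (ne_of_gt h1)] at h3
      exact ⟨h1, h2, h3⟩
    · rintro ⟨h1, h2, h3⟩
      refine ⟨h1, h2, ?_⟩
      rw [Function.update_of_ne (ne_of_gt h1)]
      exact h3
  unfold wcont
  rw [hcnt]
  by_cases h : m = 0
  · subst h
    rw [cnt_zero]
    simp
  · rw [Function.update_of_ne h]

/-- the measure which grows when a descent is removed -/
def wgt (w : Fin (n + 1) → Fin 3) : ℤ := ∑ j : Fin (n + 1), ((j : ℕ) : ℤ) * ((w j : ℕ) : ℤ)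

theorem wgt_swap (w : Fin (n + 1) → Fin 3) (m : Fin n) (h : w m.succ < w m.castSucc) :
    wgt w < wgt (fun j => w (swap m.castSucc m.succ j)) := by
  classical
  have e1 : wgt (fun j => w (swap m.castSucc m.succ j)) =
      ∑ j : Fin (n + 1), (((swap m.castSucc m.succ j : Fin (n + 1)) : ℕ) : ℤ) * ((w j : ℕ) : ℤ) := by
    unfold wgt
    rw [← Equiv.sum_comp (swap m.castSucc m.succ)]
    refine Finset.sum_congr rfl fun j _ => ?_
    simp only [swap_apply_self]
  have e2 : ∑ j : Fin (n + 1), ((((swap m.castSucc m.succ j : Fin (n + 1)) : ℕ) : ℤ) -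
      ((j : ℕ) : ℤ)) * ((w j : ℕ) : ℤ) =
      ((w m.castSucc : ℕ) : ℤ) - ((w m.succ : ℕ) : ℤ) := by
    rw [Finset.sum_eq_add m.castSucc m.succ (ne_of_lt Fin.castSucc_lt_succ)]
    · rw [swap_apply_left, swap_apply_right]
      simp only [Fin.val_castSucc, Fin.val_succ]
      push_cast
      ring
    · rintro c _ ⟨h1, h2⟩
      rw [swap_apply_of_ne_of_ne h1 h2, sub_self, zero_mul]
    · intro h; exact absurd (mem_univ _) h
    · intro h; exact absurd (mem_univ _) h
  have e3 : wgt (fun j => w (swap m.castSucc m.succ j)) - wgt w =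
      ((w m.castSucc : ℕ) : ℤ) - ((w m.succ : ℕ) : ℤ) := by
    rw [e1, ← e2, wgt, ← Finset.sum_sub_distrib]
    exact Finset.sum_congr rfl fun j _ => by ring
  rw [Fin.lt_def] at h
  omega

theorem sorted_word [FiniteDimensional ℂ V] (T : Tri n V) (P : V) (hP : T.Pol P)
    (hX : ∀ X, altS (T.ρ X) ∅ P = 0) (h0 : P ≠ 0) :
    ∃ (w : Fin (n + 1) → Fin 3) (y : V), Monotone w ∧ w 0 = 0 ∧ y ≠ 0 ∧ T.Comp P w y := by
  classical
  -- a first word
  have hfirst : ∃ (w : Fin (n + 1) → Fin 3) (y : V), w 0 = 0 ∧ y ≠ 0 ∧ T.Comp P w y := by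
    obtain ⟨s, f, hf, hsum⟩ := exists_decomp T P
    obtain ⟨c, hcs, hc⟩ : ∃ c ∈ s, (inner ℂ P (f c) : ℂ) ≠ 0 := by
      by_contra hcon
      push Not at hcon
      have : (inner ℂ P P : ℂ) = 0 := by
        nth_rewrite 2 [hsum]
        rw [inner_sum]
        exact Finset.sum_eq_zero hcon
      exact h0 (inner_self_eq_zero.mp this)
    obtain ⟨w, hw⟩ := exists_word T P hP hX c (f c) (hf c hcs) hc
    obtain ⟨y, hy1, hy2⟩ := exists_proj T P c
    have hce : (fun X m => (wcont (Function.update w 0 0) X m : ℝ)) = c := by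
      funext X m
      rw [wcont_update, hw]
    refine ⟨Function.update w 0 0, y, by simp, ?_, ?_, ?_⟩
    · rintro rfl
      exact hc (by rw [hy2 _ (hf c hcs), inner_zero_left])
    · rw [hce]; exact hy1
    · rw [hce]; exact hy2
  set W : Set (Fin (n + 1) → Fin 3) := {w | w 0 = 0 ∧ ∃ y : V, y ≠ 0 ∧ T.Comp P w y} with hW
  have hWne : W.Nonempty := by
    obtain ⟨w, y, h1, h2, h3⟩ := hfirst
    exact ⟨w, h1, y, h2, h3⟩
  obtain ⟨w, ⟨hw0, y, hy0, hy⟩, hmax⟩ := Set.exists_max_image W wgt (Set.toFinite W) hWne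
  refine ⟨w, y, ?_, hw0, hy0, hy⟩
  rw [Fin.monotone_iff_le_succ]
  intro m
  by_contra hcon
  push Not at hcon
  have hm : 0 < (m : ℕ) := by
    rcases Nat.eq_zero_or_pos (m : ℕ) with h | h
    · exfalso
      have : m.castSucc = 0 := Fin.ext (by simp [h])
      rw [this, hw0] at hcon
      exact absurd hcon (Fin.not_lt_zero _)
    · exact h
  obtain ⟨y', hy'0, hy'⟩ := swap_word T P hP hX w y hy hy0 m hm (ne_of_gt hcon)
  have hmem : (fun j => w (swap m.castSucc m.succ j)) ∈ W := by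
    refine ⟨?_, y', hy'0, hy'⟩
    show w (swap m.castSucc m.succ 0) = 0
    rw [swap_apply_of_ne_of_ne]
    · exact hw0
    · intro e; have := congrArg Fin.val e; simp at this; omega
    · exact (Fin.succ_ne_zero m).symm
  exact absurd (hmax _ hmem) (not_le.mpr (wgt_swap w m hcon))

end SecLow
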