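import Pool.Agent.Lib.MP_d70044_ag.L.Jm

/-! # Adjacent contents -/

namespace SecLow

open Equiv Finset

variable {n : ℕ} {V : Type*} [NormedAddCommGroup V] [InnerProductSpace ℂ V]

theorem uni_norm (ρ : Perm (Fin (n + 1)) →* (V →ₗ[ℂ] V)) (hρ : IsUni ρ)
    (g : Perm (Fin (n + 1))) (v : V) : ‖ρ g v‖ = ‖v‖ := by
  have h := hρ g v v
  rw [inner_self_eq_norm_sq_to_K, inner_self_eq_norm_sq_to_K] at h
  have h2 : ‖ρ g v‖ ^ 2 = ‖v‖ ^ 2 := by exact_mod_cast h
  exact (sq_eq_sq₀ (norm_nonneg _) (norm_nonneg _)).mp h2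

theorem inner_self_C (v : V) : (inner ℂ v v : ℂ) = ((‖v‖ ^ 2 : ℝ) : ℂ) := by
  rw [inner_self_eq_norm_sq_to_K]; push_cast; rfl

variable (ρ : Perm (Fin (n + 1)) →* (V →ₗ[ℂ] V)) (hρ : IsUni ρ) (c : Fin (n + 1) → ℝ) (v : V)
  (hv : JE ρ c v) (h0 : v ≠ 0)

include hρ hv h0

theorem step_inner (m : Fin n) :
    ((c m.succ - c m.castSucc : ℝ) : ℂ) * inner ℂ (sw ρ m v) v = inner ℂ v v := by
  have h := sw_jm' ρ m v
  rw [hv m.succ, map_smul] at h
  have h2 := congrArg (fun u => inner ℂ u v) h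
  simp only [inner_add_left, inner_smul_left, Complex.conj_ofReal] at h2
  rw [jm_symm ρ hρ, hv m.castSucc, inner_smul_right] at h2
  push_cast
  linear_combination h2

theorem step_abs (m : Fin n) : 1 ≤ |c m.succ - c m.castSucc| := by
  have h := step_inner ρ hρ c v hv h0 m
  have h1 : ‖(inner ℂ (sw ρ m v) v : ℂ)‖ ≤ ‖v‖ * ‖v‖ := by
    have := norm_inner_le_norm (𝕜 := ℂ) (sw ρ m v) v
    rwa [sw, uni_norm ρ hρ] at this
  have h2 := congrArg norm h
  rw [norm_mul, Complex.norm_real, Real.norm_eq_abs, inner_self_C, Complex.norm_real, norm_pow,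
    norm_norm, sq] at h2
  have hpos : 0 < ‖v‖ * ‖v‖ := by
    have := norm_pos_iff.mpr h0
    positivity
  by_contra hlt
  push Not at hlt
  have : |c m.succ - c m.castSucc| * ‖(inner ℂ (sw ρ m v) v : ℂ)‖ < ‖v‖ * ‖v‖ := by
    calc |c m.succ - c m.castSucc| * ‖(inner ℂ (sw ρ m v) v : ℂ)‖
        ≤ |c m.succ - c m.castSucc| * (‖v‖ * ‖v‖) := by gcongr
      _ < 1 * (‖v‖ * ‖v‖) := by gcongr
      _ = ‖v‖ * ‖v‖ := one_mul _
  exact absurd h2 (ne_of_lt this)

theorem step_one (m : Fin n) (h : c m.succ = c m.castSucc + 1) : sw ρ m v = v := by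
  have hi := step_inner ρ hρ c v hv h0 m
  rw [h, add_sub_cancel_left, Complex.ofReal_one, one_mul] at hi
  rw [← sub_eq_zero, ← norm_eq_zero, ← sq_eq_zero_iff]
  rw [@norm_sub_sq ℂ, hi, sw, uni_norm ρ hρ, inner_self_eq_norm_sq]
  ring

theorem step_neg_one (m : Fin n) (h : c m.succ = c m.castSucc - 1) : sw ρ m v = -v := by
  have hi := step_inner ρ hρ c v hv h0 m
  have e : ((c m.succ - c m.castSucc : ℝ) : ℂ) = -1 := by rw [h]; push_cast; ring
  rw [e] at hi
  have hi2 : (inner ℂ (sw ρ m v) v : ℂ) = - inner ℂ v v := by linear_combination -hi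
  rw [← sub_eq_zero, sub_neg_eq_add, ← norm_eq_zero, ← sq_eq_zero_iff]
  rw [@norm_add_sq ℂ, hi2, sw, uni_norm ρ hρ, map_neg, inner_self_eq_norm_sq]
  ring

theorem step_big (m : Fin n) (h : 1 < |c m.succ - c m.castSucc|) :
    sw ρ m v - ((1 / (c m.succ - c m.castSucc) : ℝ) : ℂ) • v ≠ 0 ∧
      JE ρ (fun j => c (swap m.castSucc m.succ j))
        (sw ρ m v - ((1 / (c m.succ - c m.castSucc) : ℝ) : ℂ) • v) := by
  classical
  set r : ℝ := c m.succ - c m.castSucc with hr
  have hr0 : r ≠ 0 := by rintro h1; rw [h1] at h; norm_num at h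
  have hrc : (r : ℂ) ≠ 0 := by exact_mod_cast hr0
  constructor
  · intro h1
    have h2 : ‖v‖ = ‖((1 / r : ℝ) : ℂ) • v‖ := by
      rw [← sub_eq_zero.mp h1, sw, uni_norm ρ hρ]
    rw [norm_smul, Complex.norm_real, Real.norm_eq_abs, abs_div, abs_one] at h2
    have hpos := norm_pos_iff.mpr h0
    have h3 : 1 / |r| < 1 := by
      rw [div_lt_one (by positivity)]; exact h
    nlinarith
  · intro j
    have hs := sw_jm ρ m v
    have hs' := sw_jm' ρ m v
    rw [hv m.castSucc, map_smul] at hs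
    rw [hv m.succ, map_smul] at hs'
    have hdiff : (c m.succ : ℂ) - c m.castSucc = r := by rw [hr]; push_cast; ring
    by_cases h1 : j = m.castSucc
    · subst h1
      simp only [swap_apply_left]
      rw [map_sub, map_smul, hv m.castSucc]
      have e : jm ρ m.castSucc (sw ρ m v) = (c m.succ : ℂ) • sw ρ m v - v := by
        rw [hs']; abel
      rw [e, smul_sub, smul_smul, smul_smul]
      have : (v : V) = ((1 / r : ℝ) * ((c m.succ : ℂ) - c m.castSucc)) • v := by
        rw [hdiff]; push_cast; rw [one_div, inv_mul_cancel₀ hrc, one_smul]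
      have e2 : (c m.succ : ℂ) • sw ρ m v - v - (((1 / r : ℝ) : ℂ) * (c m.castSucc : ℂ)) • v =
          (c m.succ : ℂ) • sw ρ m v - ((((1 / r : ℝ) : ℂ) * ((c m.succ : ℂ) - c m.castSucc)) • v
            + (((1 / r : ℝ) : ℂ) * (c m.castSucc : ℂ)) • v) := by
        rw [← this]; abel
      rw [e2, ← add_smul]
      congr 2
      ring
    by_cases h2 : j = m.succ
    · subst h2
      simp only [swap_apply_right]
      rw [map_sub, map_smul, hv m.succ]
      have e : jm ρ m.succ (sw ρ m v) = (c m.castSucc : ℂ) • sw ρ m v + v := by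
        rw [hs]; abel
      rw [e, smul_sub, smul_smul, smul_smul]
      have : (v : V) = ((1 / r : ℝ) * ((c m.succ : ℂ) - c m.castSucc)) • v := by
        rw [hdiff]; push_cast; rw [one_div, inv_mul_cancel₀ hrc, one_smul]
      have e2 : (c m.castSucc : ℂ) • sw ρ m v + v - (((1 / r : ℝ) : ℂ) * (c m.succ : ℂ)) • v =
          (c m.castSucc : ℂ) • sw ρ m v - ((((1 / r : ℝ) : ℂ) * (c m.succ : ℂ)) • v -
            (((1 / r : ℝ) : ℂ) * ((c m.succ : ℂ) - c m.castSucc)) • v) := by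
        rw [← this]; abel
      rw [e2, ← sub_smul]
      congr 2
      ring
    simp only [swap_apply_of_ne_of_ne h1 h2]
    rw [map_sub, map_smul, ← sw_jm_of_ne ρ m j h1 h2, hv j, map_smul,
      smul_sub, smul_smul, smul_smul, mul_comm]

end SecLow
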