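import Pool.Agent.Lib.MP_d70044_ag.L.Types
import Pool.Agent.Lib.MP_d70044_ag.L.Joint

/-! # Exchanging two adjacent letters -/

namespace SecLow

open Equiv Finset

section words
variable {n : ℕ}

theorem cnt_zero (w : Fin (n + 1) → Fin 3) (X : Fin 3) : cnt w X 0 = 0 := by
  unfold cnt
  rw [Finset.filter_eq_empty_iff.mpr]
  · simp
  · rintro j _ ⟨h1, h2, _⟩
    exact absurd h1 (not_lt.mpr h2)

theorem cnt_succ (w : Fin (n + 1) → Fin 3) (X : Fin 3) (m : Fin n) :
    cnt w X m.succ = cnt w X m.castSucc + if w m.succ = X then 1 else 0 := by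
  classical
  unfold cnt
  have hlt : ∀ i : Fin (n + 1), i ≤ m.succ ↔ i = m.succ ∨ i ≤ m.castSucc := by
    intro i
    rw [Fin.le_def, Fin.le_def, Fin.ext_iff]
    simp
    omega
  split_ifs with h
  · have e : (univ.filter fun j : Fin (n + 1) => 0 < j ∧ j ≤ m.succ ∧ w j = X) =
        insert m.succ (univ.filter fun j : Fin (n + 1) => 0 < j ∧ j ≤ m.castSucc ∧ w j = X) := by
      ext i
      simp only [mem_filter, mem_univ, true_and, mem_insert, hlt]
      constructor
      · rintro ⟨h1, h2 | h2, h3⟩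
        · left; exact h2
        · right; exact ⟨h1, h2, h3⟩
      · rintro (rfl | ⟨h1, h2, h3⟩)
        · exact ⟨Fin.succ_pos m, Or.inl rfl, h⟩
        · exact ⟨h1, Or.inr h2, h3⟩
    rw [e, Finset.card_insert_of_notMem]
    · push_cast; ring
    · simp only [mem_filter, mem_univ, true_and, not_and]
      intro _ h2
      rw [Fin.le_def] at h2
      simp at h2
  · rw [add_zero]
    congr 2
    ext i
    simp only [mem_filter, mem_univ, true_and, hlt]
    constructor
    · rintro ⟨h1, h2 | h2, h3⟩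
      · rw [h2] at h3; exact absurd h3 h
      · exact ⟨h1, h2, h3⟩
    · rintro ⟨h1, h2, h3⟩
      exact ⟨h1, Or.inr h2, h3⟩

/-- the word with the letters at `m`, `m + 1` exchanged -/
theorem cnt_swap (w : Fin (n + 1) → Fin 3) (X : Fin 3) (m : Fin n) (hm : 0 < (m : ℕ))
    (j : Fin (n + 1)) :
    cnt (fun j => w (swap m.castSucc m.succ j)) X j = cnt w X j +
      if j = m.castSucc then ((if w m.succ = X then 1 else 0) -
        (if w m.castSucc = X then 1 else 0)) else 0 := by
  induction j using Fin.induction with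
  | zero =>
    rw [cnt_zero, cnt_zero, if_neg]
    · rfl
    · intro h
      have := congrArg Fin.val h
      simp at this
      omega
  | succ j ih =>
    rw [cnt_succ, ih, cnt_succ]
    by_cases h1 : j.succ = m.castSucc
    · have h2 : j.castSucc ≠ m.castSucc := by
        intro e
        rw [← e] at h1
        exact absurd h1.symm (ne_of_lt Fin.castSucc_lt_succ)
      rw [if_neg h2, if_pos h1, h1, swap_apply_left]
      ring
    · by_cases h3 : j.succ = m.succ
      · have h4 : j = m := Fin.succ_injective _ h3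
        subst h4
        rw [if_pos rfl, if_neg h1, swap_apply_right]
        ring
      · have h4 : j ≠ m := fun e => h3 (by rw [e])
        rw [if_neg h1, if_neg (fun e => h4 (Fin.castSucc_injective _ e)),
          swap_apply_of_ne_of_ne h1 h3]
        ring

theorem wcont_swap (w : Fin (n + 1) → Fin 3) (m : Fin n) (hm : 0 < (m : ℕ))
    (hne : w m.castSucc ≠ w m.succ) (X : Fin 3) (j : Fin (n + 1)) :
    wcont (fun j => w (swap m.castSucc m.succ j)) X j =
      if X = w m.castSucc ∨ X = w m.succ then wcont w X (swap m.castSucc m.succ j)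
      else wcont w X j := by
  have hs := cnt_succ w X m
  by_cases h1 : j = m.castSucc
  · subst h1
    unfold wcont
    rw [cnt_swap w X m hm, if_pos rfl, swap_apply_left]
    simp only [Fin.val_castSucc, Fin.val_succ]
    split_ifs <;> first
    | (exfalso; simp_all; done)
    | (simp_all; try omega)
  · by_cases h2 : j = m.succ
    · subst h2
      unfold wcont
      rw [cnt_swap w X m hm, if_neg h1, swap_apply_right]
      simp only [Fin.val_castSucc, Fin.val_succ]
      split_ifs <;> first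
      | (exfalso; simp_all; done)
      | (simp_all; try omega)
    · unfold wcont
      rw [cnt_swap w X m hm, if_neg h1, swap_apply_of_ne_of_ne h1 h2]
      simp [swap_apply_of_ne_of_ne h1 h2]

end words

section tri
variable {n : ℕ} {V : Type*} [NormedAddCommGroup V] [InnerProductSpace ℂ V]

theorem Tri.comm_apply (T : Tri n V) {X Y : Fin 3} (h : X ≠ Y) (g k : Perm (Fin (n + 1)))
    (v : V) : T.ρ X g (T.ρ Y k v) = T.ρ Y k (T.ρ X g v) :=
  congrArg (fun f : V →ₗ[ℂ] V => f v) (T.comm X Y h g k)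

theorem Tri.jm_rho (T : Tri n V) {X Y : Fin 3} (h : X ≠ Y) (m : Fin (n + 1))
    (k : Perm (Fin (n + 1))) (v : V) : jm (T.ρ X) m (T.ρ Y k v) = T.ρ Y k (jm (T.ρ X) m v) := by
  simp only [jm, LinearMap.sum_apply, map_sum]
  exact Finset.sum_congr rfl fun i _ => T.comm_apply h _ _ _

theorem JE.sub_smul {ρ : Perm (Fin (n + 1)) →* (V →ₗ[ℂ] V)} {c : Fin (n + 1) → ℝ} {u v : V}
    (hu : JE ρ c u) (hv : JE ρ c v) (a : ℂ) : JE ρ c (u - a • v) := fun m => by
  rw [map_sub, map_smul, hu m, hv m, smul_sub, smul_comm]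

theorem JE.other (T : Tri n V) {X Y : Fin 3} (h : X ≠ Y) {c : Fin (n + 1) → ℝ} {v : V}
    (hv : JE (T.ρ X) c v) (k : Perm (Fin (n + 1))) (a : ℂ) :
    JE (T.ρ X) c (T.ρ Y k v - a • v) :=
  JE.sub_smul (fun m => by rw [T.jm_rho h, hv m, map_smul]) hv a

theorem inv_perm (T : Tri n V) (P : V) (hP : T.Pol P) (X Y Z : Fin 3) (h1 : X ≠ Y) (h2 : X ≠ Z)
    (h3 : Y ≠ Z) (g : Perm (Fin (n + 1))) : T.ρ X g (T.ρ Y g (T.ρ Z g P)) = P := by
  have h := hP.inv g
  fin_cases X <;> fin_cases Y <;> fin_cases Z <;> first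
  | exact absurd rfl h1
  | exact absurd rfl h2
  | exact absurd rfl h3
  | exact h
  | skip
  · show T.ρ 0 g (T.ρ 2 g (T.ρ 1 g P)) = P
    rw [T.comm_apply (by decide : (2 : Fin 3) ≠ 1)]; exact h
  · show T.ρ 1 g (T.ρ 0 g (T.ρ 2 g P)) = P
    rw [T.comm_apply (by decide : (1 : Fin 3) ≠ 0)]; exact h
  · show T.ρ 1 g (T.ρ 2 g (T.ρ 0 g P)) = P
    rw [T.comm_apply (by decide : (2 : Fin 3) ≠ 0), T.comm_apply (by decide : (1 : Fin 3) ≠ 0)]
    exact h
  · show T.ρ 2 g (T.ρ 0 g (T.ρ 1 g P)) = P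
    rw [T.comm_apply (by decide : (2 : Fin 3) ≠ 0), T.comm_apply (by decide : (2 : Fin 3) ≠ 1)]
    exact h
  · show T.ρ 2 g (T.ρ 1 g (T.ρ 0 g P)) = P
    rw [T.comm_apply (by decide : (1 : Fin 3) ≠ 0), T.comm_apply (by decide : (2 : Fin 3) ≠ 0),
      T.comm_apply (by decide : (2 : Fin 3) ≠ 1)]
    exact h

theorem sum_three (f : Fin 3 → ℝ) (X Y Z : Fin 3) (h1 : X ≠ Y) (h2 : X ≠ Z)
    (h3 : Y ≠ Z) : ∑ W, f W = f X + f Y + f Z := by
  rw [Fin.sum_univ_three]
  fin_cases X <;> fin_cases Y <;> fin_cases Z <;> first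
  | exact absurd rfl h1
  | exact absurd rfl h2
  | exact absurd rfl h3
  | (simp only [Fin.zero_eta, Fin.mk_one, Fin.reduceFinMk]; try ring)

theorem third (X Y : Fin 3) (h : X ≠ Y) : ∃ Z, X ≠ Z ∧ Y ≠ Z ∧ ∀ W, W = X ∨ W = Y ∨ W = Z := by
  revert X Y; decide

theorem swap_word [FiniteDimensional ℂ V] (T : Tri n V) (P : V) (hP : T.Pol P)
    (hX : ∀ X, altS (T.ρ X) ∅ P = 0) (w : Fin (n + 1) → Fin 3) (y : V) (hy : T.Comp P w y)
    (h0 : y ≠ 0) (m : Fin n) (hm : 0 < (m : ℕ)) (hne : w m.castSucc ≠ w m.succ) :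
    ∃ y' : V, y' ≠ 0 ∧ T.Comp P (fun j => w (swap m.castSucc m.succ j)) y' := by
  classical
  set X := w m.castSucc with hXd
  set Y := w m.succ with hYd
  obtain ⟨Z, hXZ, hYZ, hall⟩ := third X Y hne
  obtain ⟨hJ, hproj⟩ := hy
  set a := m.castSucc with ha
  set b := m.succ with hb
  set c : Fin 3 → Fin (n + 1) → ℝ := fun X m => (wcont w X m : ℝ) with hc
  have hav : ((a : ℕ) : ℝ) = m := by rw [ha]; simp
  have hbv : ((b : ℕ) : ℝ) = m + 1 := by rw [hb]; simp
  -- the contents
  have cX : c X b - c X a = -((m : ℝ) + 1) := by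
    simp only [hc, wcont, ← hXd, ← hYd, if_true, if_neg hne.symm]
    rw [hb, cnt_succ w X m, ← hb, ← hYd, if_neg hne.symm, ← ha]
    push_cast
    rw [hbv]
    ring
  have cY : c Y b - c Y a = (m : ℝ) + 1 := by
    simp only [hc, wcont, ← hXd, ← hYd, if_true, if_neg hne]
    rw [hb, cnt_succ w Y m, ← hb, ← hYd, if_pos rfl, ← ha]
    push_cast
    rw [hav]
    ring
  have cZ : c Z b = c Z a - 1 := by
    simp only [hc, wcont, ← hXd, ← hYd, if_neg hXZ, if_neg hYZ]
    rw [hb, cnt_succ w Z m, ← hb, ← hYd, if_neg hYZ, ← ha]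
    push_cast
    rw [hav, hbv]
    ring
  have hm1 : (1 : ℝ) ≤ m := by exact_mod_cast hm
  have hbigX : 1 < |c X b - c X a| := by
    rw [cX, abs_neg, abs_of_pos (by positivity)]; linarith
  have hbigY : 1 < |c Y b - c Y a| := by
    rw [cY, abs_of_pos (by positivity)]; linarith
  -- the two steps
  obtain ⟨h1ne, h1J⟩ := step_big (T.ρ X) (T.uni X) (c X) y (hJ X) h0 m hbigX
  set rX : ℝ := c X b - c X a with hrX
  set rY : ℝ := c Y b - c Y a with hrY
  set y1 : V := sw (T.ρ X) m y - ((1 / rX : ℝ) : ℂ) • y with hy1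
  have h1Y : JE (T.ρ Y) (c Y) y1 := JE.other T hne.symm (hJ Y) _ _
  have h1Z : JE (T.ρ Z) (c Z) y1 := JE.other T hXZ.symm (hJ Z) _ _
  obtain ⟨h2ne, h2J⟩ := step_big (T.ρ Y) (T.uni Y) (c Y) y1 h1Y h1ne m hbigY
  set u : V := sw (T.ρ Y) m y1 - ((1 / rY : ℝ) : ℂ) • y1 with hu
  have h2X : JE (T.ρ X) (fun j => c X (swap a b j)) u := JE.other T hne h1J _ _
  have h2Z : JE (T.ρ Z) (c Z) u := JE.other T hYZ.symm h1Z _ _
  have huJ : T.JE3 (fun X j => (wcont (fun j => w (swap a b j)) X j : ℝ)) u := by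
    intro W
    show JE (T.ρ W) (fun j => (wcont (fun j => w (swap a b j)) W j : ℝ)) u
    have e : (fun j => (wcont (fun j => w (swap a b j)) W j : ℝ)) = fun j =>
        if W = X ∨ W = Y then c W (swap a b j) else c W j := by
      funext j
      rw [wcont_swap w m hm hne W j]
      split_ifs <;> rfl
    rw [e]
    rcases hall W with h | h | h
    · subst h; simp only [true_or, if_true]; exact h2X
    · subst h; simp only [or_true, if_true]; exact h2J
    · subst h
      simp only [hXZ.symm, hYZ.symm, or_self, if_false]; exact h2Z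
  -- inner products
  have N0 : (inner ℂ P y : ℂ) = inner ℂ y y := hproj y hJ
  have hDy : sw (T.ρ Z) m y = -y := step_neg_one (T.ρ Z) (T.uni Z) (c Z) y (hJ Z) h0 m cZ
  have hAB : (inner ℂ P (sw (T.ρ Y) m (sw (T.ρ X) m y)) : ℂ) = - inner ℂ y y := by
    have e1 : sw (T.ρ X) m (sw (T.ρ Y) m P) = sw (T.ρ Z) m P := by
      have h := inv_perm T P hP X Y Z hne hXZ hYZ (swap m.castSucc m.succ)
      have h' : sw (T.ρ X) m (sw (T.ρ Y) m (sw (T.ρ Z) m P)) = P := h
      have h3 : sw (T.ρ Z) m (sw (T.ρ X) m (sw (T.ρ Y) m (sw (T.ρ Z) m P))) = sw (T.ρ Z) m P := by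
        rw [h']
      rw [← h3]
      simp only [sw]
      rw [T.comm_apply hXZ.symm, T.comm_apply hYZ.symm]
      have h4 := sw_sq (T.ρ Z) m P
      simp only [sw] at h4
      rw [h4]
    have e2 : (inner ℂ P (sw (T.ρ Y) m (sw (T.ρ X) m y)) : ℂ) =
        inner ℂ (sw (T.ρ X) m (sw (T.ρ Y) m P)) y := by
      simp only [sw]
      rw [rho_swap_symm (T.ρ X) (T.uni X), rho_swap_symm (T.ρ Y) (T.uni Y)]
    rw [e2, e1, sw, rho_swap_symm (T.ρ Z) (T.uni Z)]
    rw [sw] at hDy
    rw [hDy, inner_neg_right, N0]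
  have hzeroX : (inner ℂ P y1 : ℂ) = 0 := by
    by_contra hcon
    have hJ1 : T.JE3 (Function.update c X (fun j => c X (swap a b j))) y1 := by
      intro W
      by_cases hW : W = X
      · subst hW; rw [Function.update_self]; exact h1J
      · rw [Function.update_of_ne hW]
        rcases hall W with h | h | h
        · exact absurd h hW
        · subst h; exact h1Y
        · subst h; exact h1Z
    have h1 := sum_cont T P hP _ y1 hJ1 hcon a
    have h2 := sum_cont T P hP c y hJ (by rw [N0]; exact inner_self_ne_zero.mpr h0) a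
    rw [sum_three _ X Y Z hne hXZ hYZ] at h1
    rw [sum_three (fun W => c W a) X Y Z hne hXZ hYZ] at h2
    rw [Function.update_self, Function.update_of_ne hne.symm, Function.update_of_ne hXZ.symm,
      swap_apply_left] at h1
    have : rX = 0 := by rw [hrX]; linarith
    rw [cX] at this
    linarith
  have hA : (inner ℂ P (sw (T.ρ X) m y) : ℂ) = ((1 / rX : ℝ) : ℂ) * inner ℂ y y := by
    rw [hy1, inner_sub_right, inner_smul_right, N0] at hzeroX
    linear_combination hzeroX
  -- the same for `Y`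
  obtain ⟨h3ne, h3J⟩ := step_big (T.ρ Y) (T.uni Y) (c Y) y (hJ Y) h0 m hbigY
  have hzeroY : (inner ℂ P (sw (T.ρ Y) m y - ((1 / rY : ℝ) : ℂ) • y) : ℂ) = 0 := by
    by_contra hcon
    have hJ1 : T.JE3 (Function.update c Y (fun j => c Y (swap a b j)))
        (sw (T.ρ Y) m y - ((1 / rY : ℝ) : ℂ) • y) := by
      intro W
      by_cases hW : W = Y
      · subst hW; rw [Function.update_self]; exact h3J
      · rw [Function.update_of_ne hW]
        exact JE.other T hW (hJ W) _ _
    have h1 := sum_cont T P hP _ _ hJ1 hcon a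
    have h2 := sum_cont T P hP c y hJ (by rw [N0]; exact inner_self_ne_zero.mpr h0) a
    rw [sum_three _ X Y Z hne hXZ hYZ] at h1
    rw [sum_three (fun W => c W a) X Y Z hne hXZ hYZ] at h2
    rw [Function.update_self, Function.update_of_ne hne, Function.update_of_ne hYZ.symm,
      swap_apply_left] at h1
    have : rY = 0 := by rw [hrY]; linarith
    rw [cY] at this
    linarith
  have hB : (inner ℂ P (sw (T.ρ Y) m y) : ℂ) = ((1 / rY : ℝ) : ℂ) * inner ℂ y y := by
    rw [inner_sub_right, inner_smul_right, N0] at hzeroY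
    linear_combination hzeroY
  have hPu : (inner ℂ P u : ℂ) = -(1 + ((1 / rX : ℝ) : ℂ) * ((1 / rY : ℝ) : ℂ)) *
      inner ℂ y y := by
    have e : u = sw (T.ρ Y) m (sw (T.ρ X) m y) - ((1 / rX : ℝ) : ℂ) • sw (T.ρ Y) m y -
        ((1 / rY : ℝ) : ℂ) • sw (T.ρ X) m y +
        (((1 / rX : ℝ) : ℂ) * ((1 / rY : ℝ) : ℂ)) • y := by
      rw [hu, hy1, map_sub, map_smul, smul_sub, smul_smul, mul_comm ((1 / rY : ℝ) : ℂ)]
      abel
    rw [e, inner_add_right, inner_sub_right, inner_sub_right, inner_smul_right, inner_smul_right,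
      inner_smul_right, hAB, hA, hB, N0]
    ring
  have hPune : (inner ℂ P u : ℂ) ≠ 0 := by
    rw [hPu]
    apply mul_ne_zero _ (inner_self_ne_zero.mpr h0)
    rw [neg_ne_zero, ← Complex.ofReal_mul, ← Complex.ofReal_one, ← Complex.ofReal_add]
    rw [Complex.ofReal_ne_zero, cX, cY]
    have h4 : (0 : ℝ) < (m : ℝ) + 1 := by linarith
    have h5 : 1 + 1 / -((m : ℝ) + 1) * (1 / ((m : ℝ) + 1)) =
        (((m : ℝ) + 1) ^ 2 - 1) / ((m : ℝ) + 1) ^ 2 := by
      field_simp
      ring
    rw [h5]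
    apply div_ne_zero
    · nlinarith
    · positivity
  obtain ⟨y', hy'J, hy'p⟩ := exists_proj T P
    (fun X j => (wcont (fun j => w (swap a b j)) X j : ℝ))
  refine ⟨y', ?_, hy'J, hy'p⟩
  rintro rfl
  exact hPune (by rw [hy'p u huJ, inner_zero_left])

end tri

end SecLow
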