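import Pool.Agent.Lib.MP_d70044_ag.L.Content
import Pool.Agent.Lib.MP_d70044_ag.L.Alt
import Pool.Agent.Lib.MP_d70044_ag.L.Classify

/-! # The types of the components of `P` -/

namespace SecLow

open Equiv Finset

variable {n : ℕ} {V : Type*} [NormedAddCommGroup V] [InnerProductSpace ℂ V]

theorem sum_cont (T : Tri n V) (P : V) (hP : T.Pol P) (c : Fin 3 → Fin (n + 1) → ℝ) (u : V)
    (hu : T.JE3 c u) (h : inner ℂ P u ≠ 0) (m : Fin (n + 1)) :
    ∑ X, c X m = -((m : ℕ) : ℝ) := by
  classical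
  have h1 : ∑ X, jm (T.ρ X) m P = -((m : ℕ) : ℂ) • P := by
    simp only [jm, LinearMap.sum_apply]
    rw [Finset.sum_comm]
    rw [Finset.sum_congr rfl (fun i hi => hP.quad i m (by
      simp only [mem_filter, mem_univ, true_and] at hi
      exact ne_of_lt hi)), Finset.sum_const]
    have hcard : (univ.filter fun i : Fin (n + 1) => i < m).card = (m : ℕ) := by
      have : (univ.filter fun i : Fin (n + 1) => i < m) = Finset.Iio m := by
        ext i; simp
      rw [this, Fin.card_Iio]
    rw [hcard, smul_neg, neg_smul, Nat.cast_smul_eq_nsmul]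
  have h2 : ∑ X, inner ℂ P (jm (T.ρ X) m u) = -((m : ℕ) : ℂ) * inner ℂ P u := by
    have h3 : ∀ X, inner ℂ P (jm (T.ρ X) m u) = inner ℂ (jm (T.ρ X) m P) u := fun X =>
      (jm_symm (T.ρ X) (T.uni X) m P u).symm
    rw [Finset.sum_congr rfl (fun X _ => h3 X), ← sum_inner, h1, inner_smul_left, map_neg,
      map_natCast]
  have h4 : ∑ X, inner ℂ P (jm (T.ρ X) m u) = (∑ X, (c X m : ℂ)) * inner ℂ P u := by
    rw [Finset.sum_mul]
    exact Finset.sum_congr rfl fun X _ => by rw [hu X m, inner_smul_right]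
  rw [h4] at h2
  have h5 := mul_right_cancel₀ h h2
  exact_mod_cast h5

theorem not_column (T : Tri n V) (P : V) (X : Fin 3) (hX : altS (T.ρ X) ∅ P = 0)
    (c : Fin 3 → Fin (n + 1) → ℝ) (u : V) (hu : T.JE3 c u) (h : inner ℂ P u ≠ 0) :
    ∃ m, c X m ≠ -((m : ℕ) : ℝ) := by
  by_contra hcon
  push Not at hcon
  have hu0 : u ≠ 0 := by
    rintro rfl
    exact h (inner_zero_right _)
  have halt := altS_of_interval (T.ρ X) 0 n ∅ (fun t => by
    constructor
    · intro h; exact absurd h (Finset.notMem_empty _)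
    · intro h; have := t.2; exfalso; apply h; omega) u (fun m _ _ => by
    apply step_neg_one (T.ρ X) (T.uni X) (c X) u (hu X) hu0 m
    rw [hcon, hcon]
    simp
    ring)
  have h1 := altS_symm (T.ρ X) (T.uni X) ∅ P u
  rw [hX, inner_zero_left, halt, inner_smul_right] at h1
  rcases mul_eq_zero.mp h1.symm with h2 | h2
  · exact Nat.factorial_ne_zero _ (by exact_mod_cast h2)
  · exact h h2

/-- the types are given by words, and all letters occur -/
theorem exists_word (T : Tri n V) (P : V) (hP : T.Pol P) (hX : ∀ X, altS (T.ρ X) ∅ P = 0)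
    (c : Fin 3 → Fin (n + 1) → ℝ) (u : V) (hu : T.JE3 c u) (h : inner ℂ P u ≠ 0) :
    ∃ w : Fin (n + 1) → Fin 3, ∀ X m, c X m = wcont w X m := by
  have hu0 : u ≠ 0 := by
    rintro rfl
    exact h (inner_zero_right _)
  choose z hz1 hz2 using fun X => exists_cont (T.ρ X) (T.uni X) (c X) u (hu X) hu0
  obtain ⟨w, hw⟩ := classify z hz2 (fun m => by
    have h1 := sum_cont T P hP c u hu h m
    simp only [hz1] at h1
    exact_mod_cast h1) (fun X => by
    obtain ⟨m, hm⟩ := not_column T P X (hX X) c u hu h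
    refine ⟨m, fun h1 => hm ?_⟩
    rw [hz1, h1]; push_cast; ring)
  exact ⟨w, fun X m => by rw [hz1, hw]⟩

/-- the component of `P` attached to a word -/
def Tri.Comp (T : Tri n V) (P : V) (w : Fin (n + 1) → Fin 3) (y : V) : Prop :=
  T.JE3 (fun X m => (wcont w X m : ℝ)) y ∧
    ∀ u, T.JE3 (fun X m => (wcont w X m : ℝ)) u → inner ℂ P u = inner ℂ y u

end SecLow
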